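import Mathlib

/-!
# Binary vectors: the bracket, quadratic forms with a given root (helper279)
-/

set_option autoImplicit false

namespace Pool.Agent.W279.Tri

section ring

variable {R : Type*} [CommRing R]

/-- the bracket `u_0 v_1 - u_1 v_0` -/
def br (u v : Fin 2 → R) : R := u 0 * v 1 - u 1 * v 0

/-- the quadratic form `A w_0² + B w_0 w_1 + C w_1²` -/
def qf (A B C : R) (w : Fin 2 → R) : R := A * w 0 ^ 2 + B * (w 0 * w 1) + C * w 1 ^ 2

lemma br_self (u : Fin 2 → R) : br u u = 0 := by unfold br; ring

lemma br_swap (u v : Fin 2 → R) : br u v = -br v u := by unfold br; ring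

lemma br_smul_left (c : R) (u v : Fin 2 → R) : br (c • u) v = c * br u v := by
  simp only [br, Pi.smul_apply, smul_eq_mul]; ring

lemma br_smul_right (c : R) (u v : Fin 2 → R) : br u (c • v) = c * br u v := by
  simp only [br, Pi.smul_apply, smul_eq_mul]; ring

lemma br_map {S : Type*} [CommRing S] (φ : R →+* S) (u v : Fin 2 → R) :
    br (fun a => φ (u a)) (fun a => φ (v a)) = φ (br u v) := by
  simp [br]

end ring

section field

variable {K : Type*} [Field K]

lemma br_eq_zero_iff {u v : Fin 2 → K} (hu : u ≠ 0) (hv : v ≠ 0) :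
    br u v = 0 ↔ ∃ c : K, c ≠ 0 ∧ v = c • u := by
  constructor
  · intro h
    unfold br at h
    have h0 : u 0 ≠ 0 ∨ u 1 ≠ 0 := by
      by_contra hh
      push Not at hh
      exact hu (by ext i; fin_cases i <;> simp [hh.1, hh.2])
    rcases h0 with h0 | h1
    · refine ⟨v 0 / u 0, ?_, ?_⟩
      · intro hc
        rw [div_eq_zero_iff, or_iff_left h0] at hc
        apply hv
        rw [hc, mul_zero, sub_zero, mul_eq_zero, or_iff_right h0] at h
        ext i; fin_cases i <;> simp [hc, h]
      · ext i
        fin_cases i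
        · simp [h0]
        · simp only [Pi.smul_apply, smul_eq_mul, Fin.mk_one, Fin.isValue]
          field_simp
          linear_combination h
    · refine ⟨v 1 / u 1, ?_, ?_⟩
      · intro hc
        rw [div_eq_zero_iff, or_iff_left h1] at hc
        apply hv
        rw [hc, mul_zero, zero_sub, neg_eq_zero, mul_eq_zero, or_iff_right h1] at h
        ext i; fin_cases i <;> simp [hc, h]
      · ext i
        fin_cases i
        · simp only [Pi.smul_apply, smul_eq_mul, Fin.zero_eta, Fin.isValue]
          field_simp
          linear_combination -h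
        · simp [h1]
  · rintro ⟨c, hc, rfl⟩
    rw [br_smul_right, br_self, mul_zero]

/-- A nonzero quadratic form with the root `v` is a product of two brackets. -/
lemma exists_root {A B C : K} (h : ¬(A = 0 ∧ B = 0 ∧ C = 0)) {v : Fin 2 → K} (hv : v ≠ 0)
    (hq : qf A B C v = 0) :
    ∃ v' : Fin 2 → K, v' ≠ 0 ∧ A = v 1 * v' 1 ∧ B = -(v 1 * v' 0 + v 0 * v' 1) ∧
      C = v 0 * v' 0 := by
  unfold qf at hq
  have key : ∃ v' : Fin 2 → K, A = v 1 * v' 1 ∧ B = -(v 1 * v' 0 + v 0 * v' 1) ∧
      C = v 0 * v' 0 := by
    by_cases h1 : v 1 = 0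
    · have h0 : v 0 ≠ 0 := by
        intro h0
        exact hv (by ext i; fin_cases i <;> simp [h0, h1])
      have hA : A = 0 := by
        rw [h1] at hq
        have : A * v 0 ^ 2 = 0 := by linear_combination hq
        rcases mul_eq_zero.1 this with h | h
        · exact h
        · exact absurd (pow_eq_zero_iff (by norm_num) |>.1 h) h0
      refine ⟨![C / v 0, -B / v 0], ?_, ?_, ?_⟩
      · simp [h1, hA]
      · simp only [h1, Matrix.cons_val_zero, Matrix.cons_val_one]
        field_simp
        ring
      · simp only [Matrix.cons_val_zero]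
        field_simp
    · refine ⟨![-(B + v 0 * A / v 1) / v 1, A / v 1], ?_, ?_, ?_⟩
      · simp only [Matrix.cons_val_one, Matrix.cons_val_zero]
        field_simp
      · simp only [Matrix.cons_val_zero, Matrix.cons_val_one]
        field_simp
        ring
      · simp only [Matrix.cons_val_zero]
        field_simp
        linear_combination hq
  obtain ⟨v', hA, hB, hC⟩ := key
  refine ⟨v', ?_, hA, hB, hC⟩
  rintro rfl
  exact h ⟨by simpa using hA, by simpa using hB, by simpa using hC⟩

lemma qf_of_roots {A B C : K} {v v' : Fin 2 → K} (hA : A = v 1 * v' 1)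
    (hB : B = -(v 1 * v' 0 + v 0 * v' 1)) (hC : C = v 0 * v' 0) (w : Fin 2 → K) :
    qf A B C w = br w v * br w v' := by
  rw [hA, hB, hC]
  unfold qf br
  ring

end field

end Pool.Agent.W279.Tri
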