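import Pool.Agent.W279.Tri.Smooth

/-!
# Density of the rational points near a rational point (helper279)
-/

set_option autoImplicit false

namespace Pool.Agent.W279.Tri

open Height Filter

variable {K : Type*} [Field K]

section reach

variable {L : Type*} [NontriviallyNormedField L]

/-- a rational point of the surface with a representative in `W` -/
def Pt (c : Fin 3 → Fin 3 → Fin 3 → K) (σ : K →+* L) (W : Set (Fin 3 → Fin 2 → L))
    (P : Fin 3 → Fin 2 → K) : Prop :=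
  (∀ i, P i ≠ 0) ∧ E c (P 0) (P 1) (P 2) = 0 ∧ Reach σ W P

lemma Reach.smul {σ : K →+* L} {W : Set (Fin 3 → Fin 2 → L)} {P Q : Fin 3 → Fin 2 → K}
    (h : Reach σ W P) (hPQ : ∀ i, ∃ t : K, t ≠ 0 ∧ P i = t • Q i) : Reach σ W Q := by
  obtain ⟨c, hc, hcW⟩ := h
  choose t ht0 ht using hPQ
  refine ⟨fun i => c i * σ (t i), fun i => mul_ne_zero (hc i) ((map_ne_zero σ).2 (ht0 i)), ?_⟩
  convert hcW using 1
  funext i a
  rw [ht i, Pi.smul_apply, smul_eq_mul, map_mul, mul_assoc]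

lemma Pt.smul {c : Fin 3 → Fin 3 → Fin 3 → K} {σ : K →+* L} {W : Set (Fin 3 → Fin 2 → L)}
    {P Q : Fin 3 → Fin 2 → K} (h : Pt c σ W P) (hPQ : ∀ i, ∃ t : K, t ≠ 0 ∧ P i = t • Q i) :
    Pt c σ W Q := by
  obtain ⟨h1, h2, h3⟩ := h
  refine ⟨fun i h0 => ?_, ?_, h3.smul hPQ⟩
  · obtain ⟨t, -, ht⟩ := hPQ i
    apply h1 i
    rw [ht, h0, smul_zero]
  · choose t ht0 ht using hPQ
    rw [ht 0, ht 1, ht 2, E_smul] at h2
    have := mul_ne_zero (mul_ne_zero (pow_ne_zero 2 (ht0 0)) (pow_ne_zero 2 (ht0 1)))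
      (pow_ne_zero 2 (ht0 2))
    exact (mul_eq_zero.1 h2).resolve_left this

lemma norm_vec {u : Fin 2 → K} (hu : u 1 ≠ 0) : u = u 1 • ![u 0 / u 1, 1] := by
  funext a
  fin_cases a
  · simp; field_simp
  · simp

/-- infinitely many slopes -/
lemma infinite_slopes {U V : ℕ → Fin 2 → K} {Ms : Set ℕ} (hM : Ms.Infinite)
    (hdu : ∀ n m, n ≠ m → br (U n) (U m) ≠ 0) (hdv : ∀ n m, n ≠ m → br (V n) (V m) ≠ 0) :
    {β : K | ∃ m ∈ Ms, U m 1 ≠ 0 ∧ V m 1 ≠ 0 ∧ β = U m 0 / U m 1}.Infinite := by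
  have hs : ∀ U : ℕ → Fin 2 → K, (∀ n m, n ≠ m → br (U n) (U m) ≠ 0) →
      {m | U m 1 = 0}.Finite := by
    intro U h
    apply Set.Subsingleton.finite
    intro n hn m hm
    by_contra hnm
    simp only [Set.mem_ofPred_eq] at hn hm
    exact h n m hnm (by simp [br, hn, hm])
  have h1 : (Ms \ ({m | U m 1 = 0} ∪ {m | V m 1 = 0})).Infinite :=
    hM.sdiff ((hs U hdu).union (hs V hdv))
  have h2 : Set.InjOn (fun m => U m 0 / U m 1) (Ms \ ({m | U m 1 = 0} ∪ {m | V m 1 = 0})) := by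
    intro n hn m hm hnm
    by_contra hne
    simp only [Set.mem_sdiff, Set.mem_union, Set.mem_ofPred_eq, not_or] at hn hm
    simp only at hnm
    rw [div_eq_div_iff hn.2.1 hm.2.1] at hnm
    apply hdu n m hne
    unfold br
    linear_combination hnm
  refine (h1.image h2).mono ?_
  rintro _ ⟨m, ⟨hm1, hm2⟩, rfl⟩
  simp only [Set.mem_union, Set.mem_ofPred_eq, not_or] at hm2
  exact ⟨m, hm1, hm2.1, hm2.2, rfl⟩

lemma infinite_of_forall {p : ℕ → Prop} (h : ∀ M, ∃ m, M ≤ m ∧ p m) : {m | p m}.Infinite := by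
  rw [← Nat.frequently_atTop_iff_infinite, frequently_atTop]
  intro M
  obtain ⟨m, hm, hp⟩ := h M
  exact ⟨m, hm, hp⟩

variable [ProperSpace L]

/-- moving on the fibre over the first coordinate -/
lemma move0 {c : Fin 3 → Fin 3 → Fin 3 → K} {σ : K →+* L} {W : Set (Fin 3 → Fin 2 → L)}
    (hW : IsOpen W) {x y z : Fin 2 → K} (hP : Pt c σ W ![x, y, z]) (hns : NS (fib c x))
    {U V : ℕ → Fin 2 → K} (hO : Orb2 (fib c x) U V) (hU : U 0 = y) (hV : V 0 = z) :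
    {β : K | ∃ w : Fin 2 → K, w 1 ≠ 0 ∧ Pt c σ W ![x, ![β, 1], w]}.Infinite := by
  obtain ⟨ε, hε, hcl⟩ := reach_of_close hW hP.1 hP.2.2
  have hx : x ≠ 0 := hP.1 0
  have h1 := infinite_of_forall fun M => hO.recurr σ (hns.sm σ) hε M
  have hM : {m | Pt c σ W ![x, U m, V m]}.Infinite := by
    refine h1.mono ?_
    rintro m ⟨h2, h3⟩
    have hne : ∀ i, (![x, U m, V m] : Fin 3 → Fin 2 → K) i ≠ 0 := by
      intro i
      fin_cases i
      · exact hx
      · exact hO.hU m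
      · exact hO.hV m
    refine ⟨hne, ?_, hcl _ hne fun i => ?_⟩
    · change E c x (U m) (V m) = 0
      rw [← G_fib]
      exact hO.G_eq_zero m
    · fin_cases i
      · change ‖br (fun a => σ (x a)) (fun a => σ (x a))‖ ≤ _
        rw [br_self, norm_zero]
        positivity
      · change ‖br (fun a => σ (y a)) (fun a => σ (U m a))‖ ≤ _
        rw [← hU]
        exact h2
      · change ‖br (fun a => σ (z a)) (fun a => σ (V m a))‖ ≤ _
        rw [← hV]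
        exact h3
  refine (infinite_slopes hM (fun n m h => hO.hdu h) (fun n m h => hO.hdv h)).mono ?_
  rintro _ ⟨m, hm, hu, hv, rfl⟩
  refine ⟨V m, hv, Pt.smul hm fun i => ?_⟩
  fin_cases i
  · exact ⟨1, one_ne_zero, (one_smul _ _).symm⟩
  · exact ⟨U m 1, hu, norm_vec hu⟩
  · exact ⟨1, one_ne_zero, (one_smul _ _).symm⟩

/-- moving on the fibre over the second coordinate -/
lemma move1 {c : Fin 3 → Fin 3 → Fin 3 → K} {σ : K →+* L} {W : Set (Fin 3 → Fin 2 → L)}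
    (hW : IsOpen W) {x y z : Fin 2 → K} (hP : Pt c σ W ![x, y, z]) (hns : NS (fib (sw c) y))
    {U V : ℕ → Fin 2 → K} (hO : Orb2 (fib (sw c) y) U V) (hU : U 0 = x) (hV : V 0 = z) :
    {α : K | ∃ w : Fin 2 → K, w 1 ≠ 0 ∧ Pt c σ W ![![α, 1], y, w]}.Infinite := by
  obtain ⟨ε, hε, hcl⟩ := reach_of_close hW hP.1 hP.2.2
  have hy : y ≠ 0 := hP.1 1
  have h1 := infinite_of_forall fun M => hO.recurr σ (hns.sm σ) hε M
  have hM : {m | Pt c σ W ![U m, y, V m]}.Infinite := by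
    refine h1.mono ?_
    rintro m ⟨h2, h3⟩
    have hne : ∀ i, (![U m, y, V m] : Fin 3 → Fin 2 → K) i ≠ 0 := by
      intro i
      fin_cases i
      · exact hO.hU m
      · exact hy
      · exact hO.hV m
    refine ⟨hne, ?_, hcl _ hne fun i => ?_⟩
    · change E c (U m) y (V m) = 0
      rw [← E_sw, ← G_fib]
      exact hO.G_eq_zero m
    · fin_cases i
      · change ‖br (fun a => σ (x a)) (fun a => σ (U m a))‖ ≤ _
        rw [← hU]
        exact h2
      · change ‖br (fun a => σ (y a)) (fun a => σ (y a))‖ ≤ _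
        rw [br_self, norm_zero]
        positivity
      · change ‖br (fun a => σ (z a)) (fun a => σ (V m a))‖ ≤ _
        rw [← hV]
        exact h3
  refine (infinite_slopes hM (fun n m h => hO.hdu h) (fun n m h => hO.hdv h)).mono ?_
  rintro _ ⟨m, hm, hu, hv, rfl⟩
  refine ⟨V m, hv, Pt.smul hm fun i => ?_⟩
  fin_cases i
  · exact ⟨U m 1, hu, norm_vec hu⟩
  · exact ⟨1, one_ne_zero, (one_smul _ _).symm⟩
  · exact ⟨1, one_ne_zero, (one_smul _ _).symm⟩

/-- good classes: the fibre is smooth and has an orbit through every point -/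
def Good (c : Fin 3 → Fin 3 → Fin 3 → K) (x : Fin 2 → K) : Prop :=
  NS (fib c x) ∧ ∀ y z : Fin 2 → K, y ≠ 0 → z ≠ 0 → E c x y z = 0 →
    ∃ U V : ℕ → Fin 2 → K, Orb2 (fib c x) U V ∧ U 0 = y ∧ V 0 = z

/-- the density theorem -/
theorem density [Infinite K] {c : Fin 3 → Fin 3 → Fin 3 → K} (hirr : Irreducible (form c))
    (hb0 : {t : K | ¬Good c ![t, 1]}.Finite) (hb1 : {t : K | ¬Good (sw c) ![t, 1]}.Finite)
    {σ : K →+* L} {W : Set (Fin 3 → Fin 2 → L)} (hW : IsOpen W) {x y z : Fin 2 → K}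
    (hP : Pt c σ W ![x, y, z]) (hg : Good c x ∨ Good (sw c) y)
    {f : MvPolynomial (Fin 3 × Fin 2) K} (hf : ∀ Q, Pt c σ W Q → Van f Q) : form c ∣ f := by
  have m0 : ∀ x y z : Fin 2 → K, Pt c σ W ![x, y, z] → Good c x →
      {β : K | ∃ w : Fin 2 → K, w 1 ≠ 0 ∧ Pt c σ W ![x, ![β, 1], w]}.Infinite := by
    intro x y z hP hg
    obtain ⟨U, V, hO, hU, hV⟩ := hg.2 y z (hP.1 1) (hP.1 2) hP.2.1
    exact move0 hW hP hg.1 hO hU hV
  have m1 : ∀ x y z : Fin 2 → K, Pt c σ W ![x, y, z] → Good (sw c) y →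
      {α : K | ∃ w : Fin 2 → K, w 1 ≠ 0 ∧ Pt c σ W ![![α, 1], y, w]}.Infinite := by
    intro x y z hP hg
    obtain ⟨U, V, hO, hU, hV⟩ := hg.2 x z (hP.1 0) (hP.1 2) (by rw [E_sw]; exact hP.2.1)
    exact move1 hW hP hg.1 hO hU hV
  have main : ∀ x y z : Fin 2 → K, Pt c σ W ![x, y, z] → Good c x → form c ∣ f := by
    intro x y z hP hg
    have hS : ({β : K | ∃ w : Fin 2 → K, w 1 ≠ 0 ∧ Pt c σ W ![x, ![β, 1], w]} \
        {t : K | ¬Good (sw c) ![t, 1]}).Infinite := (m0 x y z hP hg).sdiff hb1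
    refine dvd_of_dense hirr hS
      (fun β => {α : K | ∃ w : Fin 2 → K, w 1 ≠ 0 ∧ Pt c σ W ![![α, 1], ![β, 1], w]}) ?_ ?_
    · rintro β ⟨⟨w, -, hw⟩, hβ⟩
      simp only [Set.mem_ofPred_eq, not_not] at hβ
      exact m1 _ _ _ hw hβ
    · rintro β - α ⟨w, hw1, hw⟩
      exact ⟨w, hw1, hw.2.1, hf _ hw⟩
  rcases hg with hg | hg
  · exact main x y z hP hg
  · have h1 : ({α : K | ∃ w : Fin 2 → K, w 1 ≠ 0 ∧ Pt c σ W ![![α, 1], y, w]} \
        {t : K | ¬Good c ![t, 1]}).Infinite := (m1 x y z hP hg).sdiff hb0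
    obtain ⟨α, ⟨w, -, hw⟩, hα⟩ := h1.nonempty
    simp only [Set.mem_ofPred_eq, not_not] at hα
    exact main _ _ _ hw hα

end reach

end Pool.Agent.W279.Tri
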