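import Pool.Agent.W279.Tri.Tridegree

/-!
# Diophantine sets given by the (2,2,2)-surfaces (helper279)
-/

set_option autoImplicit false

namespace Pool.Agent.W279.Tri

open MvPolynomial Filter

variable {K : Type*} [Field K]

/-- homogenisation -/
theorem exists_hom (p : MvPolynomial (Fin 3) K) :
    ∃ (N : ℕ) (s : MvPolynomial (Fin 3 × Fin 2) K), ∀ y : Fin 3 → Fin 2 → K,
      (∀ i, y i 1 ≠ 0) → eval (fun q => y q.1 q.2) s =
        (∏ i, y i 1) ^ N * eval (fun i => y i 0 / y i 1) p := by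
  have hD : ∀ y : Fin 3 → Fin 2 → K, eval (fun q : Fin 3 × Fin 2 => y q.1 q.2)
      (∏ i : Fin 3, X (i, 1) : MvPolynomial (Fin 3 × Fin 2) K) = ∏ i, y i 1 := by
    intro y
    rw [map_prod]
    exact Finset.prod_congr rfl fun i _ => by simp
  induction p using MvPolynomial.induction_on with
  | C a => exact ⟨0, C a, fun y _ => by simp⟩
  | add p q hp hq =>
    obtain ⟨N, s, hs⟩ := hp
    obtain ⟨M, t, ht⟩ := hq
    refine ⟨N + M, s * (∏ i : Fin 3, X (i, 1)) ^ M + t * (∏ i : Fin 3, X (i, 1)) ^ N,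
      fun y hy => ?_⟩
    rw [map_add, map_mul, map_mul, map_pow, map_pow, hD, hs y hy, ht y hy, map_add]
    ring
  | mul_X p j hp =>
    obtain ⟨N, s, hs⟩ := hp
    refine ⟨N + 1, s * (X (j, 0) * ∏ i ∈ Finset.univ.erase j, X (i, 1)), fun y hy => ?_⟩
    have e1 : eval (fun q : Fin 3 × Fin 2 => y q.1 q.2)
        (∏ i ∈ Finset.univ.erase j, X (i, 1) : MvPolynomial (Fin 3 × Fin 2) K) =
        ∏ i ∈ Finset.univ.erase j, y i 1 := by
      rw [map_prod]
      exact Finset.prod_congr rfl fun i _ => by simp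
    have e2 : ∏ i, y i 1 = y j 1 * ∏ i ∈ Finset.univ.erase j, y i 1 :=
      (Finset.mul_prod_erase Finset.univ (fun i => y i 1) (Finset.mem_univ _)).symm
    rw [map_mul, map_mul, e1, hs y hy, map_mul, eval_X, eval_X, pow_succ, e2]
    have := hy j
    field_simp

/-- the affine points -/
def afp {F : Type*} [One F] (x : Fin 3 → F) : Fin 3 → Fin 2 → F := fun i => ![x i, 1]

lemma afp_ne {F : Type*} [Field F] (x : Fin 3 → F) (i : Fin 3) : afp x i ≠ 0 := by
  intro h
  have := congrFun h 1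
  simp [afp] at this

/-- the values of a rational function at the rational points of the affine surface -/
def vals (F : MvPolynomial (Fin 3 × Fin 2) K) (p q : MvPolynomial (Fin 3) K) : Set K :=
  {a | ∃ x : Fin 3 → K, eval (fun r => afp x r.1 r.2) F = 0 ∧ eval x q ≠ 0 ∧
    a = eval x p / eval x q}

/-- isolated values -/
def isol {L : Type*} [NormedField L] (A : Set K) (σ : K →+* L) : Set K :=
  {a | a ∈ A ∧ ∃ U ∈ nhds (σ a), ∀ b ∈ A, σ b ∈ U → b = a}

lemma continuous_eval₂ {L : Type*} [NormedField L] (σ : K →+* L) (p : MvPolynomial (Fin 3) K) :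
    Continuous fun x : Fin 3 → L => eval₂ σ x p := by
  have : (fun x : Fin 3 → L => eval₂ σ x p) = fun x => eval x (map σ p) := by
    funext x
    rw [eval_map]
  rw [this]
  exact MvPolynomial.continuous_eval _

theorem isol_finite {L : Type*} [NontriviallyNormedField L] {σ : K →+* L}
    {c : Fin 3 → Fin 3 → Fin 3 → K} {T : Set (Fin 3 → Fin 2 → K)} (hT : T.Finite)
    (hJ : ∀ x : Fin 3 → Fin 2 → L, (∀ i, x i ≠ 0) →
      Jx c σ x = Set.univ ∨ Jx c σ x = {f | form c ∣ f} ∨
        ∃ P ∈ T, Eqv x (fun i a => σ (P i a)) ∧ Jx c σ x = {f | Van f P})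
    (p q : MvPolynomial (Fin 3) K) : (isol (vals (form c) p q) σ).Finite := by
  classical
  -- the values at the points of `T`
  set B : Set K := (fun P : Fin 3 → Fin 2 → K => eval (fun i => P i 0 / P i 1) p /
    eval (fun i => P i 0 / P i 1) q) '' T with hB
  have hBf : B.Finite := hT.image _
  by_cases hall : isol (vals (form c) p q) σ ⊆ B
  · exact hBf.subset hall
  rw [Set.not_subset] at hall
  obtain ⟨a, ⟨⟨x, hxF, hxq, hxa⟩, U, hU, hUA⟩, haB⟩ := hall
  -- then the function is constant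
  suffices h : vals (form c) p q ⊆ {a} by
    exact (Set.finite_singleton a).subset (fun b hb => h hb.1)
  obtain ⟨N, s, hs⟩ := exists_hom (p - C a * q)
  set s' : MvPolynomial (Fin 3 × Fin 2) K := s * ∏ i : Fin 3, X (i, 1) with hs'
  have hs'e : ∀ y : Fin 3 → Fin 2 → K, (∀ i, y i 1 ≠ 0) →
      eval (fun i => y i 0 / y i 1) p = a * eval (fun i => y i 0 / y i 1) q →
      eval (fun r => y r.1 r.2) s' = 0 := by
    intro y hy h
    rw [hs', map_mul, hs y hy, map_sub, map_mul, eval_C, h]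
    ring
  set xL : Fin 3 → L := fun i => σ (x i) with hxL
  have hq0 : eval₂ σ xL q ≠ 0 := by
    have : eval₂ σ xL q = σ (eval x q) := by
      have := eval₂_comp_left σ (RingHom.id K) x q
      rw [eval₂_id, RingHom.comp_id] at this
      exact this.symm
    rw [this]
    exact (map_ne_zero σ).2 hxq
  have hpa : eval₂ σ xL p / eval₂ σ xL q = σ a := by
    have e1 := eval₂_comp_left σ (RingHom.id K) x q
    have e2 := eval₂_comp_left σ (RingHom.id K) x p
    rw [eval₂_id, RingHom.comp_id] at e1 e2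
    rw [hxa, map_div₀, e1, e2]
    rfl
  -- the neighbourhood
  have h1 : ∀ᶠ Q : Fin 3 → Fin 2 → L in nhds (afp xL), ∀ i, Q i 1 ≠ 0 := by
    refine Filter.eventually_all.2 fun i => ?_
    exact (show Continuous fun Q : Fin 3 → Fin 2 → L => Q i 1 by fun_prop).continuousAt
      |>.eventually_ne (by simp [afp])
  have h2 : ContinuousAt (fun Q : Fin 3 → Fin 2 → L => fun i => Q i 0 / Q i 1) (afp xL) := by
    refine continuousAt_pi.2 fun i => ?_
    exact ContinuousAt.div
      (show Continuous fun Q : Fin 3 → Fin 2 → L => Q i 0 by fun_prop).continuousAt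
      (show Continuous fun Q : Fin 3 → Fin 2 → L => Q i 1 by fun_prop).continuousAt
      (by simp [afp])
  have h3 : (fun Q : Fin 3 → Fin 2 → L => fun i => Q i 0 / Q i 1) (afp xL) = xL := by
    funext i
    simp [afp]
  have h4 : ContinuousAt (fun z : Fin 3 → L => eval₂ σ z p / eval₂ σ z q) xL :=
    (continuous_eval₂ σ p).continuousAt.div (continuous_eval₂ σ q).continuousAt hq0
  have h5 : ∀ᶠ z in nhds xL, eval₂ σ z q ≠ 0 ∧ eval₂ σ z p / eval₂ σ z q ∈ U :=
    ((continuous_eval₂ σ q).continuousAt.eventually_ne hq0).and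
      (h4.preimage_mem_nhds (by rw [hpa]; exact hU))
  have h6 : ∀ᶠ Q : Fin 3 → Fin 2 → L in nhds (afp xL),
      eval₂ σ (fun i => Q i 0 / Q i 1) q ≠ 0 ∧
      eval₂ σ (fun i => Q i 0 / Q i 1) p / eval₂ σ (fun i => Q i 0 / Q i 1) q ∈ U := by
    have := h2.eventually (p := fun z => eval₂ σ z q ≠ 0 ∧ eval₂ σ z p / eval₂ σ z q ∈ U)
      (by rw [h3]; exact h5)
    exact this
  have key : ∀ y, Pt c σ {Q | (∀ i, Q i 1 ≠ 0) ∧ eval₂ σ (fun i => Q i 0 / Q i 1) q ≠ 0 ∧
      eval₂ σ (fun i => Q i 0 / Q i 1) p / eval₂ σ (fun i => Q i 0 / Q i 1) q ∈ U} y →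
      (∀ i, y i 1 ≠ 0) ∧ eval (fun i => y i 0 / y i 1) p =
        a * eval (fun i => y i 0 / y i 1) q := by
    rintro y ⟨hy0, hyE, d, hd, k1, k2, k3⟩
    have hy1 : ∀ i, y i 1 ≠ 0 := by
      intro i h0
      apply k1 i
      simp [h0]
    have e : (fun i => d i * σ (y i 0) / (d i * σ (y i 1))) = fun i => σ (y i 0 / y i 1) := by
      funext i
      have := hd i
      have h5 : σ (y i 1) ≠ 0 := (map_ne_zero σ).2 (hy1 i)
      rw [map_div₀]
      field_simp
    rw [e] at k2 k3
    have e1 := eval₂_comp_left σ (RingHom.id K) (fun i => y i 0 / y i 1) q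
    have e2 := eval₂_comp_left σ (RingHom.id K) (fun i => y i 0 / y i 1) p
    rw [eval₂_id, RingHom.comp_id] at e1 e2
    change eval₂ σ (σ ∘ fun i => y i 0 / y i 1) q ≠ 0 at k2
    change eval₂ σ (σ ∘ fun i => y i 0 / y i 1) p / eval₂ σ (σ ∘ fun i => y i 0 / y i 1) q ∈ U
      at k3
    rw [← e1] at k2
    rw [← e1, ← e2, ← map_div₀] at k3
    have hq1 : eval (fun i => y i 0 / y i 1) q ≠ 0 := (map_ne_zero σ).1 k2
    have hyF : eval (fun r => afp (fun i => y i 0 / y i 1) r.1 r.2) (form c) = 0 := by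
      rw [eval_form]
      have e : ∀ i, y i = y i 1 • afp (fun i => y i 0 / y i 1) i := fun i => norm_vec (hy1 i)
      rw [e 0, e 1, e 2, E_smul] at hyE
      have : y 0 1 ^ 2 * y 1 1 ^ 2 * y 2 1 ^ 2 ≠ 0 :=
        mul_ne_zero (mul_ne_zero (pow_ne_zero 2 (hy1 0)) (pow_ne_zero 2 (hy1 1)))
          (pow_ne_zero 2 (hy1 2))
      exact (mul_eq_zero.1 hyE).resolve_left this
    have := hUA _ ⟨_, hyF, hq1, rfl⟩ k3
    refine ⟨hy1, ?_⟩
    rwa [div_eq_iff hq1] at this
  have hmem : s' ∈ Jx c σ (afp xL) := by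
    refine ⟨_, h1.and h6, fun y hy => ?_⟩
    obtain ⟨hy1, hye⟩ := key y hy
    intro t
    by_cases ht : ∀ i, t i ≠ 0
    · refine hs'e (fun i a => t i * y i a) (fun i => mul_ne_zero (ht i) (hy1 i)) ?_
      have e : (fun i => t i * y i 0 / (t i * y i 1)) = fun i => y i 0 / y i 1 := by
        funext i
        have := ht i
        have := hy1 i
        field_simp
      rw [e]
      exact hye
    · push Not at ht
      obtain ⟨i, hi⟩ := ht
      rw [hs', map_mul, map_prod]
      rw [Finset.prod_eq_zero (Finset.mem_univ i) (by simp [hi]), mul_zero]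
  have hxE : E c (afp x 0) (afp x 1) (afp x 2) = 0 := by
    rw [eval_form] at hxF
    exact hxF
  have hPt : ∀ W ∈ nhds (afp xL), Pt c σ W (afp x) := by
    intro W hW
    refine ⟨afp_ne x, hxE, fun _ => 1, fun _ => one_ne_zero, ?_⟩
    have e : (fun i a => (1 : L) * σ (afp x i a)) = afp xL := by
      funext i a
      fin_cases a <;> simp [afp, hxL]
    rw [e]
    exact mem_of_mem_nhds hW
  rcases hJ (afp xL) (afp_ne xL) with h | h | ⟨P, hP, hPx, -⟩
  · -- the constant polynomial
    exfalso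
    have h7 : (1 : MvPolynomial (Fin 3 × Fin 2) K) ∈ Jx c σ (afp xL) := by
      rw [h]
      trivial
    obtain ⟨W, hW, hW1⟩ := h7
    have := hW1 _ (hPt W hW) (fun _ => 1)
    simp at this
  · rw [h] at hmem
    obtain ⟨g, hg⟩ := hmem
    rintro b ⟨z, hzF, hzq, rfl⟩
    have e1 : eval (fun r : Fin 3 × Fin 2 => afp z r.1 r.2) s' = 0 := by
      rw [hg, map_mul, hzF, zero_mul]
    have hz1 : ∀ i, afp z i 1 ≠ 0 := fun i => by simp [afp]
    rw [hs', map_mul, hs _ hz1] at e1
    have e2 : (fun i => afp z i 0 / afp z i 1) = z := by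
      funext i
      simp [afp]
    rw [e2, map_sub, map_mul, eval_C] at e1
    have e3 : ∏ i, afp z i 1 = 1 := by simp [afp]
    rw [e3, one_pow, one_mul] at e1
    have e4 : eval (fun r : Fin 3 × Fin 2 => afp z r.1 r.2) (∏ i : Fin 3, X (i, 1)) = (1 : K) := by
      rw [map_prod]
      simp [afp]
    rw [e4, mul_one, sub_eq_zero] at e1
    rw [Set.mem_singleton_iff, div_eq_iff hzq]
    exact e1
  · exfalso
    apply haB
    refine ⟨P, hP, ?_⟩
    have e : (fun i => P i 0 / P i 1) = x := by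
      funext i
      obtain ⟨t, ht0, ht⟩ := hPx i
      have e0 := congrFun ht 0
      have e1 := congrFun ht 1
      simp only [afp, Matrix.cons_val_zero, Matrix.cons_val_one, Pi.smul_apply, smul_eq_mul,
        hxL] at e0 e1
      have hP1 : P i 1 ≠ 0 := by
        intro h0
        rw [h0, map_zero, mul_zero] at e1
        exact one_ne_zero e1
      have h5 : σ (P i 1) ≠ 0 := (map_ne_zero σ).2 hP1
      apply σ.injective
      rw [map_div₀, div_eq_iff h5, e0]
      linear_combination σ (P i 0) * e1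
    simp only [e]
    exact hxa.symm

end Pool.Agent.W279.Tri
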