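import Pool.Agent.W279.Tri.Fib

/-!
# Elimination on a (2,2,2)-surface (helper279)
-/

set_option autoImplicit false

namespace Pool.Agent.W279.Tri

open MvPolynomial

/-- the form of tridegree (2,2,2) with the coefficients `c` -/
noncomputable def form {K : Type*} [CommRing K] (c : Fin 3 → Fin 3 → Fin 3 → K) :
    MvPolynomial (Fin 3 × Fin 2) K :=
  ∑ i, ∑ j, ∑ k, C (c i j k) * (mon (fun a => X (0, a)) i *
    (mon (fun a => X (1, a)) j * mon (fun a => X (2, a)) k))

variable {K : Type*} [Field K]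

lemma E_expand {R : Type*} [CommRing R] (c : Fin 3 → Fin 3 → Fin 3 → R) (x y z : Fin 2 → R) :
    E c x y z = ∑ i, ∑ j, ∑ k, c i j k * (mon x i * (mon y j * mon z k)) := by
  simp only [E, coef, Finset.mul_sum]
  refine Finset.sum_congr rfl fun i _ => Finset.sum_congr rfl fun j _ =>
    Finset.sum_congr rfl fun k _ => ?_
  ring

lemma eval₂_form {S : Type*} [CommRing S] (σ : K →+* S) (c : Fin 3 → Fin 3 → Fin 3 → K)
    (w : Fin 3 × Fin 2 → S) :
    eval₂ σ w (form c) = E (fun i j k => σ (c i j k)) (fun a => w (0, a)) (fun a => w (1, a))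
      (fun a => w (2, a)) := by
  rw [E_expand, ← coe_eval₂Hom]
  unfold form
  simp only [map_sum, map_mul, ← mon_map, coe_eval₂Hom, eval₂_C, eval₂_X]

lemma eval_form (c : Fin 3 → Fin 3 → Fin 3 → K) (w : Fin 3 × Fin 2 → K) :
    eval w (form c) = E c (fun a => w (0, a)) (fun a => w (1, a)) (fun a => w (2, a)) := by
  have := eval₂_form (RingHom.id K) c w
  simpa [eval₂_id] using this

lemma mon_smul {R : Type*} [CommRing R] (t : R) (x : Fin 2 → R) (i : Fin 3) :
    mon (t • x) i = t ^ 2 * mon x i := by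
  fin_cases i <;> simp [mon] <;> ring

lemma E_smul {R : Type*} [CommRing R] (c : Fin 3 → Fin 3 → Fin 3 → R) (s t w : R)
    (x y z : Fin 2 → R) : E c (s • x) (t • y) (w • z) = s ^ 2 * t ^ 2 * w ^ 2 * E c x y z := by
  rw [E_expand, E_expand]
  simp only [mon_smul, Finset.mul_sum]
  refine Finset.sum_congr rfl fun i _ => Finset.sum_congr rfl fun j _ =>
    Finset.sum_congr rfl fun k _ => ?_
  ring

/-- the variables other than the `0`-th coordinate of the third point -/
abbrev I5 : Type := {p : Fin 3 × Fin 2 // p ≠ (2, 0)}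

/-- the coefficients with respect to the third variable -/
noncomputable def Ap (c : Fin 3 → Fin 3 → Fin 3 → K) (k : Fin 3) : MvPolynomial I5 K :=
  ∑ i, ∑ j, C (c i j k) * (mon (fun a => X ⟨(0, a), by simp⟩) i *
    mon (fun a => X ⟨(1, a), by simp⟩) j)

lemma form_eq (c : Fin 3 → Fin 3 → Fin 3 → K) :
    form c = rename Subtype.val (Ap c 0) * X (2, 0) ^ 2 +
      rename Subtype.val (Ap c 1) * (X (2, 0) * X (2, 1)) +
      rename Subtype.val (Ap c 2) * X (2, 1) ^ 2 := by
  have h : ∀ k, rename Subtype.val (Ap c k) = ∑ i, ∑ j, C (c i j k) *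
      (mon (fun a => (X (0, a) : MvPolynomial (Fin 3 × Fin 2) K)) i * mon (fun a => X (1, a)) j) := by
    intro k
    unfold Ap
    simp only [map_sum, map_mul, rename_C]
    refine Finset.sum_congr rfl fun i _ => Finset.sum_congr rfl fun j _ => ?_
    have e := fun (v : Fin 2 → MvPolynomial I5 K) (l : Fin 3) =>
      mon_map (rename (R := K) (Subtype.val : I5 → Fin 3 × Fin 2)).toRingHom v l
    simp only [AlgHom.toRingHom_eq_coe, RingHom.coe_coe] at e
    rw [← e, ← e]
    simp only [rename_X]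
  rw [h, h, h]
  unfold form
  simp only [Finset.sum_mul, ← Finset.sum_add_distrib]
  refine Finset.sum_congr rfl fun i _ => Finset.sum_congr rfl fun j _ => ?_
  simp only [Fin.sum_univ_three]
  have m0 : mon (fun a => (X (2, a) : MvPolynomial (Fin 3 × Fin 2) K)) 0 = X (2, 0) ^ 2 := rfl
  have m1 : mon (fun a => (X (2, a) : MvPolynomial (Fin 3 × Fin 2) K)) 1 =
    X (2, 0) * X (2, 1) := rfl
  have m2 : mon (fun a => (X (2, a) : MvPolynomial (Fin 3 × Fin 2) K)) 2 = X (2, 1) ^ 2 := rfl
  rw [m0, m1, m2]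
  ring

lemma Ap_ne {c : Fin 3 → Fin 3 → Fin 3 → K} (h : Irreducible (form c)) : Ap c 0 ≠ 0 := by
  intro h0
  have h1 := form_eq c
  rw [h0, map_zero, zero_mul, zero_add] at h1
  have h2 : form c = X (2, 1) * (rename Subtype.val (Ap c 1) * X (2, 0) +
      rename Subtype.val (Ap c 2) * X (2, 1)) := by
    rw [h1]; ring
  rcases h.isUnit_or_isUnit h2 with hu | hu
  · have := hu.map (eval (fun _ => (0 : K)))
    simp at this
  · have := hu.map (eval (fun _ => (0 : K)))
    simp at this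

/-- elimination of one variable -/
theorem elim {c : Fin 3 → Fin 3 → Fin 3 → K} (h : Irreducible (form c))
    {f : MvPolynomial (Fin 3 × Fin 2) K} (hf : ¬form c ∣ f) :
    ∃ r : MvPolynomial I5 K, r ≠ 0 ∧ ∃ g k : MvPolynomial (Fin 3 × Fin 2) K,
      rename Subtype.val r = f * g + k * form c := by
  classical
  have hp : Prime (form c) := h.prime
  have hI : (Ideal.span {form c}).IsPrime := (Ideal.span_singleton_prime hp.ne_zero).2 hp
  let φ : MvPolynomial I5 K →+* MvPolynomial (Fin 3 × Fin 2) K ⧸ Ideal.span {form c} :=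
    (Ideal.Quotient.mk _).comp (rename Subtype.val).toRingHom
  let _ : Algebra (MvPolynomial I5 K) (MvPolynomial (Fin 3 × Fin 2) K ⧸ Ideal.span {form c}) :=
    φ.toAlgebra
  have hφ : ∀ p, algebraMap (MvPolynomial I5 K)
      (MvPolynomial (Fin 3 × Fin 2) K ⧸ Ideal.span {form c}) p =
      Ideal.Quotient.mk _ (rename Subtype.val p) := fun p => rfl
  have hC : ∀ a : K, IsAlgebraic (MvPolynomial I5 K)
      (Ideal.Quotient.mk (Ideal.span {form c}) (C a)) := by
    intro a
    have := isAlgebraic_algebraMap (R := MvPolynomial I5 K)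
      (A := MvPolynomial (Fin 3 × Fin 2) K ⧸ Ideal.span {form c}) (C a)
    rwa [hφ, rename_C] at this
  have hX' : ∀ q : I5, IsAlgebraic (MvPolynomial I5 K)
      (Ideal.Quotient.mk (Ideal.span {form c}) (X q.1)) := by
    intro q
    have := isAlgebraic_algebraMap (R := MvPolynomial I5 K)
      (A := MvPolynomial (Fin 3 × Fin 2) K ⧸ Ideal.span {form c}) (X q)
    rwa [hφ, rename_X] at this
  have hX0 : IsAlgebraic (MvPolynomial I5 K)
      (Ideal.Quotient.mk (Ideal.span {form c}) (X (2, 0))) := by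
    refine ⟨Polynomial.C (Ap c 0) * Polynomial.X ^ 2 +
      Polynomial.C (Ap c 1 * X ⟨(2, 1), by simp⟩) * Polynomial.X +
      Polynomial.C (Ap c 2 * X ⟨(2, 1), by simp⟩ ^ 2), ?_, ?_⟩
    · intro h0
      have h1 := congrArg (fun p => Polynomial.coeff p 2) h0
      simp only [Polynomial.coeff_add, Polynomial.coeff_C_mul, Polynomial.coeff_X_pow,
        Polynomial.coeff_X, Polynomial.coeff_C, Polynomial.coeff_zero] at h1
      norm_num at h1
      exact Ap_ne h h1
    · simp only [map_add, map_mul, map_pow, Polynomial.aeval_C, Polynomial.aeval_X, hφ, rename_X]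
      rw [← map_pow, ← map_pow, ← map_mul, ← map_mul, ← map_mul, ← map_mul, ← map_add, ← map_add,
        Ideal.Quotient.eq_zero_iff_mem]
      have e : (rename Subtype.val) (Ap c 0) * X (2, 0) ^ 2 +
          (rename Subtype.val) (Ap c 1) * X (2, 1) * X (2, 0) +
          (rename Subtype.val) (Ap c 2) * X (2, 1) ^ 2 = form c := by
        rw [form_eq]; ring
      rw [e]
      exact Ideal.mem_span_singleton_self _
  have hX : ∀ q : Fin 3 × Fin 2, IsAlgebraic (MvPolynomial I5 K)
      (Ideal.Quotient.mk (Ideal.span {form c}) (X q)) := by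
    intro q
    by_cases hq : q = (2, 0)
    · rw [hq]; exact hX0
    · exact hX' ⟨q, hq⟩
  have hall : ∀ p : MvPolynomial (Fin 3 × Fin 2) K, IsAlgebraic (MvPolynomial I5 K)
      (Ideal.Quotient.mk (Ideal.span {form c}) p) := by
    intro p
    induction p using MvPolynomial.induction_on with
    | C a => exact hC a
    | add p q hp hq => rw [map_add]; exact hp.add hq
    | mul_X p i hp => rw [map_mul]; exact hp.mul (hX i)
  have hne : Ideal.Quotient.mk (Ideal.span {form c}) f ≠ 0 := by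
    rw [Ne, Ideal.Quotient.eq_zero_iff_mem, Ideal.mem_span_singleton]
    exact hf
  obtain ⟨r, hr, s, hs⟩ := (hall f).exists_nonzero_dvd (mem_nonZeroDivisors_of_ne_zero hne)
  obtain ⟨g, rfl⟩ := Ideal.Quotient.mk_surjective s
  rw [hφ, ← map_mul, Ideal.Quotient.eq, Ideal.mem_span_singleton] at hs
  obtain ⟨k, hk⟩ := hs
  exact ⟨r, hr, g, k, by linear_combination hk⟩

/-- vanishing on infinitely many points of a line -/
lemma line_vanish {ι : Type*} (r : MvPolynomial ι K) (p q : ι → K) {S : Set K} (hS : S.Infinite)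
    (h : ∀ α ∈ S, eval (fun i => p i + α * q i) r = 0) (α : K) :
    eval (fun i => p i + α * q i) r = 0 := by
  set P : Polynomial K := aeval (fun i => Polynomial.C (p i) + Polynomial.X * Polynomial.C (q i)) r
    with hP
  have hev : ∀ α : K, P.eval α = eval (fun i => p i + α * q i) r := by
    intro α
    have h1 : (Polynomial.evalRingHom α).comp
        (aeval (R := K) (fun i => Polynomial.C (p i) + Polynomial.X * Polynomial.C (q i))).toRingHom
        = eval (fun i => p i + α * q i) := by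
      apply MvPolynomial.ringHom_ext
      · intro a
        simp
      · intro i
        simp
        ring
    exact congrArg (fun φ => φ r) h1
  have h0 : P = 0 := by
    apply Polynomial.eq_zero_of_infinite_isRoot
    refine hS.mono fun α hα => ?_
    rw [Set.mem_ofPred_eq, Polynomial.IsRoot, hev]
    exact h α hα
  rw [← hev, h0, Polynomial.eval_zero]

/-- the point with the coordinates `x`, `y`, `w` -/
def pt5 (x y : Fin 2 → K) (w : K) : I5 → K := fun p => ![x, y, ![0, w]] p.1.1 p.1.2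

lemma vanish5 [Infinite K] (r : MvPolynomial I5 K) {S : Set K} (hS : S.Infinite)
    (T : K → Set K) (hT : ∀ β ∈ S, (T β).Infinite)
    (h : ∀ β ∈ S, ∀ α ∈ T β, ∀ s t w : K, eval (pt5 (s • ![α, 1]) (t • ![β, 1]) w) r = 0) :
    r = 0 := by
  have h1 : ∀ β ∈ S, ∀ α s t w : K, eval (pt5 (s • ![α, 1]) (t • ![β, 1]) w) r = 0 := by
    intro β hβ α s t w
    have e : ∀ α : K, pt5 (s • ![α, 1]) (t • ![β, 1]) w =
        fun i => pt5 ![0, s] (t • ![β, 1]) w i + α * pt5 ![s, 0] 0 0 i := by
      intro α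
      funext ⟨⟨i, a⟩, hi⟩
      fin_cases i <;> fin_cases a <;> (simp [pt5]; try ring)
    rw [e]
    refine line_vanish r _ _ (hT β hβ) (fun α hα => ?_) α
    rw [← e]
    exact h β hβ α hα s t w
  have h2 : ∀ β α s t w : K, eval (pt5 (s • ![α, 1]) (t • ![β, 1]) w) r = 0 := by
    intro β α s t w
    have e : ∀ β : K, pt5 (s • ![α, 1]) (t • ![β, 1]) w =
        fun i => pt5 (s • ![α, 1]) ![0, t] w i + β * pt5 0 ![t, 0] 0 i := by
      intro β
      funext ⟨⟨i, a⟩, hi⟩
      fin_cases i <;> fin_cases a <;> (simp [pt5]; try ring)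
    rw [e]
    refine line_vanish r _ _ hS (fun β hβ => ?_) β
    rw [← e]
    exact h1 β hβ α s t w
  have h3 : r * X ⟨(0, 1), by simp⟩ * X ⟨(1, 1), by simp⟩ = 0 := by
    apply MvPolynomial.funext
    intro e
    rw [map_mul, map_mul, eval_X, eval_X, map_zero]
    by_cases hx : e ⟨(0, 1), by simp⟩ = 0
    · rw [hx]; ring
    by_cases hy : e ⟨(1, 1), by simp⟩ = 0
    · rw [hy]; ring
    have := h2 (e ⟨(1, 0), by simp⟩ / e ⟨(1, 1), by simp⟩)
      (e ⟨(0, 0), by simp⟩ / e ⟨(0, 1), by simp⟩) (e ⟨(0, 1), by simp⟩) (e ⟨(1, 1), by simp⟩)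
      (e ⟨(2, 1), by simp⟩)
    have he : e = pt5 (e ⟨(0, 1), by simp⟩ • ![e ⟨(0, 0), by simp⟩ / e ⟨(0, 1), by simp⟩, 1])
        (e ⟨(1, 1), by simp⟩ • ![e ⟨(1, 0), by simp⟩ / e ⟨(1, 1), by simp⟩, 1])
        (e ⟨(2, 1), by simp⟩) := by
      funext ⟨⟨i, a⟩, hi⟩
      fin_cases i <;> fin_cases a
      · simp [pt5]; field_simp
      · simp [pt5]
      · simp [pt5]; field_simp
      · simp [pt5]
      · exact absurd rfl hi
      · simp [pt5]
    rw [← he] at this
    rw [this]; ring
  have hX : ∀ i : I5, (X i : MvPolynomial I5 K) ≠ 0 := fun i => X_ne_zero i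
  rcases mul_eq_zero.1 h3 with h4 | h4
  · rcases mul_eq_zero.1 h4 with h5 | h5
    · exact h5
    · exact absurd h5 (hX _)
  · exact absurd h4 (hX _)

/-- `f` vanishes at all representatives of the point `P` -/
def Van (f : MvPolynomial (Fin 3 × Fin 2) K) (P : Fin 3 → Fin 2 → K) : Prop :=
  ∀ t : Fin 3 → K, eval (fun p => t p.1 * P p.1 p.2) f = 0

/-- a polynomial which vanishes at sufficiently many points of the surface -/
theorem dvd_of_dense [Infinite K] {c : Fin 3 → Fin 3 → Fin 3 → K} (h : Irreducible (form c))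
    {f : MvPolynomial (Fin 3 × Fin 2) K} {S : Set K} (hS : S.Infinite)
    (T : K → Set K) (hT : ∀ β ∈ S, (T β).Infinite)
    (hf : ∀ β ∈ S, ∀ α ∈ T β, ∃ z : Fin 2 → K, z 1 ≠ 0 ∧ E c ![α, 1] ![β, 1] z = 0 ∧
      Van f ![![α, 1], ![β, 1], z]) : form c ∣ f := by
  by_contra hn
  obtain ⟨r, hr, g, k, hrg⟩ := elim h hn
  refine hr (vanish5 r hS T hT fun β hβ α hα s t w => ?_)
  obtain ⟨z, hz1, hE, hV⟩ := hf β hβ α hα
  have h1 := hV ![s, t, w / z 1]
  have h2 := congrArg (eval fun p : Fin 3 × Fin 2 =>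
    (![s, t, w / z 1] : Fin 3 → K) p.1 * (![![α, 1], ![β, 1], z] : Fin 3 → Fin 2 → K) p.1 p.2) hrg
  rw [map_add, map_mul, map_mul, h1, zero_mul, zero_add, eval_form] at h2
  have h3 : E c (fun a => (![s, t, w / z 1] : Fin 3 → K) 0 *
      (![![α, 1], ![β, 1], z] : Fin 3 → Fin 2 → K) 0 a)
      (fun a => (![s, t, w / z 1] : Fin 3 → K) 1 *
      (![![α, 1], ![β, 1], z] : Fin 3 → Fin 2 → K) 1 a)
      (fun a => (![s, t, w / z 1] : Fin 3 → K) 2 *
      (![![α, 1], ![β, 1], z] : Fin 3 → Fin 2 → K) 2 a) =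
      E c (s • ![α, 1]) (t • ![β, 1]) ((w / z 1) • z) := rfl
  rw [h3, E_smul, hE, mul_zero, mul_zero, eval_rename] at h2
  rw [← h2]
  congr 2
  funext ⟨⟨i, a⟩, hi⟩
  fin_cases i <;> fin_cases a
  · simp [pt5]
  · simp [pt5]
  · simp [pt5]
  · simp [pt5]
  · exact absurd rfl hi
  · simp [pt5]; field_simp

end Pool.Agent.W279.Tri
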