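import Pool.Agent.W279.Tri.Gen

/-!
# Finiteness of the exceptional fibres (helper279)
-/

set_option autoImplicit false

namespace Pool.Agent.W279.Tri

section pder

open MvPolynomial

variable {R : Type*} [CommRing R]

lemma pderiv_mon (q : Fin 3 × Fin 2) (i : Fin 3) (l : Fin 3) :
    pderiv q (mon (fun b => (X (i, b) : MvPolynomial (Fin 3 × Fin 2) R)) l) =
      if q.1 = i then dmon q.2 (fun b => X (i, b)) l else 0 := by
  obtain ⟨j, a⟩ := q
  simp only
  have h0 : ∀ b, pderiv (j, a) (X (i, b) : MvPolynomial (Fin 3 × Fin 2) R) =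
      if j = i ∧ a = b then 1 else 0 := by
    intro b
    rw [pderiv_X, Pi.single_apply]
    simp only [Prod.mk.injEq]
    congr 1
    simp only [eq_comm]
  split_ifs with h
  · fin_cases l <;> fin_cases a <;>
      simp [mon, dmon, h, Derivation.leibniz, Derivation.leibniz_pow]
  · fin_cases l <;>
      simp [mon, h0, h, Derivation.leibniz, Derivation.leibniz_pow]

lemma form_eq_T3 (c : Fin 3 → Fin 3 → Fin 3 → R) :
    form c = T3 (fun i j k => C (c i j k)) (mon fun a => X (0, a)) (mon fun a => X (1, a))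
      (mon fun a => X (2, a)) := rfl

lemma pderiv_T3 (q : Fin 3 × Fin 2) (c : Fin 3 → Fin 3 → Fin 3 → R)
    (u v w : Fin 3 → MvPolynomial (Fin 3 × Fin 2) R) :
    pderiv q (T3 (fun i j k => C (c i j k)) u v w) =
      T3 (fun i j k => C (c i j k)) (fun i => pderiv q (u i)) v w +
      T3 (fun i j k => C (c i j k)) u (fun i => pderiv q (v i)) w +
      T3 (fun i j k => C (c i j k)) u v (fun i => pderiv q (w i)) := by
  simp only [T3, map_sum, ← Finset.sum_add_distrib]
  refine Finset.sum_congr rfl fun i _ => Finset.sum_congr rfl fun j _ =>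
    Finset.sum_congr rfl fun k _ => ?_
  simp only [Derivation.leibniz, pderiv_C, smul_eq_mul]
  ring

lemma T3_zero1 (c : Fin 3 → Fin 3 → Fin 3 → R) (q r : Fin 3 → R) :
    T3 c (fun _ => 0) q r = 0 := by simp [T3]

lemma T3_zero2 (c : Fin 3 → Fin 3 → Fin 3 → R) (q r : Fin 3 → R) :
    T3 c q (fun _ => 0) r = 0 := by simp [T3]

lemma T3_zero3 (c : Fin 3 → Fin 3 → Fin 3 → R) (q r : Fin 3 → R) :
    T3 c q r (fun _ => 0) = 0 := by simp [T3]

lemma pderiv_form0 (c : Fin 3 → Fin 3 → Fin 3 → R) (a : Fin 2) :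
    pderiv (0, a) (form c) = T3 (fun i j k => C (c i j k)) (dmon a fun a => X (0, a))
      (mon fun a => X (1, a)) (mon fun a => X (2, a)) := by
  rw [form_eq_T3, pderiv_T3]
  simp only [pderiv_mon, if_true, show ((0 : Fin 3) = 1) = False by simp,
    show ((0 : Fin 3) = 2) = False by simp, if_false]
  rw [T3_zero2, T3_zero3, add_zero, add_zero]

lemma pderiv_form1 (c : Fin 3 → Fin 3 → Fin 3 → R) (a : Fin 2) :
    pderiv (1, a) (form c) = T3 (fun i j k => C (c i j k)) (mon fun a => X (0, a))
      (dmon a fun a => X (1, a)) (mon fun a => X (2, a)) := by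
  rw [form_eq_T3, pderiv_T3]
  simp only [pderiv_mon, if_true, show ((1 : Fin 3) = 0) = False by simp,
    show ((1 : Fin 3) = 2) = False by simp, if_false]
  rw [T3_zero1, T3_zero3, add_zero, zero_add]

lemma pderiv_form2 (c : Fin 3 → Fin 3 → Fin 3 → R) (a : Fin 2) :
    pderiv (2, a) (form c) = T3 (fun i j k => C (c i j k)) (mon fun a => X (0, a))
      (mon fun a => X (1, a)) (dmon a fun a => X (2, a)) := by
  rw [form_eq_T3, pderiv_T3]
  simp only [pderiv_mon, if_true, show ((2 : Fin 3) = 0) = False by simp,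
    show ((2 : Fin 3) = 1) = False by simp, if_false]
  rw [T3_zero1, T3_zero2, zero_add, zero_add]

/-- the singular points in terms of the derivatives of the form -/
lemma singX_iff {S : Type*} [CommRing S] (φ : R →+* S) (c : Fin 3 → Fin 3 → Fin 3 → R)
    (x y z : Fin 2 → S) :
    SingX (fun i j k => φ (c i j k)) x y z ↔
      ∀ q, eval₂Hom φ (fun p : Fin 3 × Fin 2 => (![x, y, z] : Fin 3 → Fin 2 → S) p.1 p.2)
        (pderiv q (form c)) = 0 := by
  set ψ := eval₂Hom φ (fun p : Fin 3 × Fin 2 => (![x, y, z] : Fin 3 → Fin 2 → S) p.1 p.2) with hψ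
  have hC : ∀ r, ψ (C r) = φ r := fun r => by simp [hψ]
  have hm : ∀ (i : Fin 3), mon (![x, y, z] i) = fun l => ψ (mon (fun a => X (i, a)) l) := by
    intro i
    funext l
    rw [← mon_map]
    congr 1
    funext a
    simp [hψ]
  have hd : ∀ (i : Fin 3) (a : Fin 2), dmon a (![x, y, z] i) =
      fun l => ψ (dmon a (fun a => X (i, a)) l) := by
    intro i a
    funext l
    rw [← dmon_map]
    congr 1
    funext a
    simp [hψ]
  have hmx := hm 0
  have hmy := hm 1
  have hmz := hm 2
  have hdx := fun a => hd 0 a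
  have hdy := fun a => hd 1 a
  have hdz := fun a => hd 2 a
  simp only [Matrix.cons_val_zero, Matrix.cons_val_one, Matrix.cons_val] at hmx hmy hmz hdx hdy hdz
  have k0 : ∀ a, ψ (pderiv (0, a) (form c)) =
      T3 (fun i j k => φ (c i j k)) (dmon a x) (mon y) (mon z) := by
    intro a
    rw [pderiv_form0, ← T3_map, hdx, hmy, hmz]
    simp only [hC]
  have k1 : ∀ a, ψ (pderiv (1, a) (form c)) =
      T3 (fun i j k => φ (c i j k)) (mon x) (dmon a y) (mon z) := by
    intro a
    rw [pderiv_form1, ← T3_map, hdy, hmx, hmz]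
    simp only [hC]
  have k2 : ∀ a, ψ (pderiv (2, a) (form c)) =
      T3 (fun i j k => φ (c i j k)) (mon x) (mon y) (dmon a z) := by
    intro a
    rw [pderiv_form2, ← T3_map, hdz, hmx, hmy]
    simp only [hC]
  constructor
  · rintro ⟨h0, h1, h2⟩ ⟨i, a⟩
    fin_cases i
    · exact (k0 a).trans (h0 a)
    · exact (k1 a).trans (h1 a)
    · exact (k2 a).trans (h2 a)
  · intro h
    exact ⟨fun a => (k0 a).symm.trans (h _), fun a => (k1 a).symm.trans (h _),
      fun a => (k2 a).symm.trans (h _)⟩

end pder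

section gen

open Polynomial

variable {A : Type*} [Field A] [CharZero A] [IsAlgClosed A]

/-- the generic fibre is smooth -/
theorem gen_smooth {c : Fin 3 → Fin 3 → Fin 3 → A} {S : Set (Fin 2 → A)} (hS : S.Finite)
    (hS0 : ∀ s ∈ S, s ≠ 0)
    (h : ∀ x y z : Fin 2 → A, x ≠ 0 → y ≠ 0 → z ≠ 0 → SingX c x y z → ∃ s ∈ S, br x s = 0)
    (k Ω : Type*) [Field k] [Field Ω]
    [Algebra A k] [Algebra A[X] k] [IsScalarTower A A[X] k] [IsFractionRing A[X] k]
    [Algebra A Ω] [Algebra A[X] Ω] [Algebra k Ω] [IsScalarTower A A[X] Ω]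
    [IsScalarTower A k Ω] [IsScalarTower A[X] k Ω] [Algebra.IsAlgebraic k Ω]
    (u v : Fin 2 → Ω) (hu : u ≠ 0) (hv : v ≠ 0) :
    ¬Sing (fib (fun i j k => algebraMap A Ω (c i j k)) ![algebraMap A[X] Ω X, 1]) u v := by
  classical
  intro hs
  have : CharZero Ω := charZero_of_injective_algebraMap (algebraMap A Ω).injective
  obtain ⟨D, hD⟩ := exists_derivation A k Ω
  have hX := singX_of_sing D hD hs
  rw [singX_iff] at hX
  obtain ⟨a, ha⟩ := exists_ne hu
  obtain ⟨b, hb⟩ := exists_ne hv
  set I : Ideal (MvPolynomial (Fin 3 × Fin 2) A) :=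
    Ideal.span (Set.range fun q => MvPolynomial.pderiv q (form c)) with hI
  set P : MvPolynomial (Fin 3 × Fin 2) A :=
    (∏ s ∈ hS.toFinset, (MvPolynomial.X (0, 0) * MvPolynomial.C (s 1) -
      MvPolynomial.X (0, 1) * MvPolynomial.C (s 0))) *
    (MvPolynomial.X (0, 1) * (MvPolynomial.X (1, a) * MvPolynomial.X (2, b))) with hP
  have h1 : P ∈ MvPolynomial.vanishingIdeal A (MvPolynomial.zeroLocus A I) := by
    intro w hw
    have hw' : w = fun p : Fin 3 × Fin 2 =>
        (![fun a => w (0, a), fun a => w (1, a), fun a => w (2, a)] : Fin 3 → Fin 2 → A)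
          p.1 p.2 := by
      funext ⟨i, a⟩
      fin_cases i <;> rfl
    by_cases hx : (fun a => w (0, a)) = 0
    · have e : w (0, 1) = 0 := congrFun hx 1
      rw [hP]
      simp [e]
    by_cases hy : (fun a => w (1, a)) = 0
    · have e : w (1, a) = 0 := congrFun hy a
      rw [hP]
      simp [e]
    by_cases hz : (fun a => w (2, a)) = 0
    · have e : w (2, b) = 0 := congrFun hz b
      rw [hP]
      simp [e]
    have h2 : SingX (fun i j k => RingHom.id A (c i j k)) (fun a => w (0, a)) (fun a => w (1, a))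
        (fun a => w (2, a)) := by
      rw [singX_iff]
      intro q
      rw [← hw']
      have := hw _ (Ideal.subset_span ⟨q, rfl⟩)
      exact this
    obtain ⟨s, hs, hbr⟩ := h _ _ _ hx hy hz h2
    rw [hP, map_mul, map_prod]
    have : ∏ s ∈ hS.toFinset, (MvPolynomial.aeval w) (MvPolynomial.X (0, 0) * MvPolynomial.C (s 1) -
        MvPolynomial.X (0, 1) * MvPolynomial.C (s 0) : MvPolynomial (Fin 3 × Fin 2) A) = 0 := by
      refine Finset.prod_eq_zero (hS.mem_toFinset.2 hs) ?_
      simpa [br] using hbr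
    rw [this, zero_mul]
  rw [MvPolynomial.vanishingIdeal_zeroLocus_eq_radical] at h1
  obtain ⟨N, hN⟩ := h1
  set ψ := MvPolynomial.eval₂Hom (algebraMap A Ω) (fun p : Fin 3 × Fin 2 =>
    (![![algebraMap A[X] Ω X, 1], u, v] : Fin 3 → Fin 2 → Ω) p.1 p.2) with hψ
  have hker : I ≤ RingHom.ker ψ := by
    rw [hI, Ideal.span_le]
    rintro _ ⟨q, rfl⟩
    exact hX q
  have h3 : ψ P = 0 := by
    have := hker hN
    rw [RingHom.mem_ker, map_pow] at this
    exact eq_zero_of_pow_eq_zero this
  rw [hP, map_mul, map_prod] at h3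
  rcases mul_eq_zero.1 h3 with h4 | h4
  · obtain ⟨s, hs, h5⟩ := Finset.prod_eq_zero_iff.1 h4
    have hsS := hS.mem_toFinset.1 hs
    have h6 : algebraMap A[X] Ω (X * C (s 1) - C (s 0)) = 0 := by
      rw [← h5, hψ]
      have e : ∀ a : A, algebraMap A[X] Ω (C a) = algebraMap A Ω a := fun a => by
        rw [IsScalarTower.algebraMap_apply A A[X] Ω]
        rfl
      simp [e]
      ring
    have hinj : Function.Injective (algebraMap A[X] Ω) := by
      rw [IsScalarTower.algebraMap_eq A[X] k Ω]
      exact (algebraMap k Ω).injective.comp (IsFractionRing.injective A[X] k)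
    have h7 : (X * C (s 1) - C (s 0) : A[X]) = 0 := (map_eq_zero_iff _ hinj).1 h6
    have c0 := congrArg (fun p => Polynomial.coeff p 0) h7
    have c1 := congrArg (fun p => Polynomial.coeff p 1) h7
    simp at c0 c1
    apply hS0 s hsS
    funext i
    fin_cases i
    · exact c0
    · exact c1
  · rw [hψ] at h4
    simp [ha, hb] at h4

end gen

section descend

open Polynomial

attribute [local instance] MvPolynomial.algebraMvPolynomial

variable {A : Type*} [Field A]

lemma fib_map' {R S : Type*} [CommRing R] [CommRing S] (φ : R →+* S)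
    (c : Fin 3 → Fin 3 → Fin 3 → R) (x : Fin 2 → R) :
    (fun j k => φ (fib c x j k)) = fib (fun i j k => φ (c i j k)) (fun a => φ (x a)) := by
  funext j k
  rw [fib_map]

lemma vec_map {R S : Type*} [CommRing R] [CommRing S] (φ : R →+* S) (a : R) :
    (fun i => φ ((![a, 1] : Fin 2 → R) i)) = ![φ a, 1] := by
  funext i
  fin_cases i <;> simp

/-- clearing denominators -/
lemma exists_C_mul {k : Type*} [Field k] [Algebra A[X] k] [IsFractionRing A[X] k]
    {g : Fin 3 → Fin 3 → A[X]} {f : MvPolynomial (Fin 2 × Fin 2) A[X]}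
    (h : MvPolynomial.map (algebraMap A[X] k) f ∈ dI (fun i j => algebraMap A[X] k (g i j))) :
    ∃ M : A[X], M ≠ 0 ∧ MvPolynomial.C M * f ∈ dI g := by
  have h1 : dI (fun i j => algebraMap A[X] k (g i j)) =
      (dI g).map (algebraMap (MvPolynomial (Fin 2 × Fin 2) A[X]) (MvPolynomial (Fin 2 × Fin 2) k)) := by
    unfold dI
    rw [Ideal.map_span, ← Set.range_comp]
    congr 2
    funext q
    simp only [Function.comp_apply, MvPolynomial.algebraMap_def]
    unfold dP
    split_ifs
    · rw [← Gd_map]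
      congr 1
      · funext i j
        simp
      · funext j
        rw [← dmon_map]
        simp
      · funext j
        rw [← mon_map]
        simp
    · rw [← Gd_map]
      congr 1
      · funext i j
        simp
      · funext j
        rw [← mon_map]
        simp
      · funext j
        rw [← dmon_map]
        simp
  rw [h1, IsLocalization.mem_map_algebraMap_iff
    ((nonZeroDivisors A[X]).map (MvPolynomial.C (σ := Fin 2 × Fin 2)))] at h
  obtain ⟨⟨i, m⟩, him⟩ := h
  obtain ⟨m, M, hM, rfl⟩ := m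
  simp only at him
  rw [MvPolynomial.algebraMap_def, ← map_mul] at him
  have hinj : Function.Injective (MvPolynomial.map (σ := Fin 2 × Fin 2) (algebraMap A[X] k)) :=
    MvPolynomial.map_injective _ (IsFractionRing.injective A[X] k)
  refine ⟨M, nonZeroDivisors.ne_zero hM, ?_⟩
  rw [mul_comm, hinj him]
  exact i.2

variable [CharZero A] [IsAlgClosed A]

/-- only finitely many fibres are singular -/
theorem exists_bad {c : Fin 3 → Fin 3 → Fin 3 → A} {S : Set (Fin 2 → A)} (hS : S.Finite)
    (hS0 : ∀ s ∈ S, s ≠ 0)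
    (h : ∀ x y z : Fin 2 → A, x ≠ 0 → y ≠ 0 → z ≠ 0 → SingX c x y z → ∃ s ∈ S, br x s = 0) :
    ∃ M : A[X], M ≠ 0 ∧ ∀ t : A, M.eval t ≠ 0 → ∀ u v : Fin 2 → A, u ≠ 0 → v ≠ 0 →
      ¬Sing (fib c ![t, 1]) u v := by
  classical
  let k := FractionRing A[X]
  set g : Fin 3 → Fin 3 → A[X] := fib (fun i j k => C (c i j k)) ![X, 1] with hg
  have hgk : (fun i j => algebraMap A[X] k (g i j)) =
      fib (fun i j l => algebraMap A k (c i j l)) ![algebraMap A[X] k X, 1] := by
    rw [hg, fib_map', vec_map]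
    have e : (fun i j l => algebraMap A[X] k (C (c i j l))) =
        fun i j l => algebraMap A k (c i j l) := by
      funext i j l
      rw [IsScalarTower.algebraMap_apply A A[X] k]
      rfl
    rw [e]
  have hNS : NS (fun i j => algebraMap A[X] k (g i j)) := by
    intro u v hu hv hs
    rw [hgk] at hs
    apply gen_smooth hS hS0 h k (AlgebraicClosure k) u v hu hv
    rw [fib_map', vec_map] at hs
    have e : (fun i j l => algebraMap k (AlgebraicClosure k) (algebraMap A k (c i j l))) =
        fun i j l => algebraMap A (AlgebraicClosure k) (c i j l) := by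
      funext i j l
      rw [← IsScalarTower.algebraMap_apply]
    rw [e, ← IsScalarTower.algebraMap_apply] at hs
    exact hs
  have key : ∀ a b : Fin 2, ∃ M : A[X], M ≠ 0 ∧ ∃ N : ℕ, MvPolynomial.C M *
      (MvPolynomial.X (0, a) * MvPolynomial.X (1, b) : MvPolynomial (Fin 2 × Fin 2) A[X]) ^ N ∈
        dI g := by
    intro a b
    obtain ⟨N, hN⟩ := hNS.exists_pow a b
    obtain ⟨M, hM, hMN⟩ := exists_C_mul (k := k) (g := g)
      (f := (MvPolynomial.X (0, a) * MvPolynomial.X (1, b)) ^ N) (by simpa using hN)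
    exact ⟨M, hM, N, hMN⟩
  choose M hM N hN using key
  refine ⟨∏ a, ∏ b, M a b, Finset.prod_ne_zero_iff.2 fun a _ =>
    Finset.prod_ne_zero_iff.2 fun b _ => hM a b, fun t ht u v hu hv hs => ?_⟩
  obtain ⟨a, ha⟩ := exists_ne hu
  obtain ⟨b, hb⟩ := exists_ne hv
  have hMt : (M a b).eval t ≠ 0 := by
    rw [Polynomial.eval_prod] at ht
    have h1 := Finset.prod_ne_zero_iff.1 ht a (Finset.mem_univ _)
    rw [Polynomial.eval_prod] at h1
    exact Finset.prod_ne_zero_iff.1 h1 b (Finset.mem_univ _)
  have hs' : Sing (fun i j => Polynomial.evalRingHom t (g i j)) u v := by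
    rw [hg, fib_map', vec_map]
    simpa using hs
  have := eval₂_dI_of_sing hs' (hN a b)
  rw [map_mul, map_pow, map_mul] at this
  simp only [MvPolynomial.coe_eval₂Hom, MvPolynomial.eval₂_C, MvPolynomial.eval₂_X] at this
  exact mul_ne_zero hMt (pow_ne_zero _ (mul_ne_zero ha hb)) this

end descend

end Pool.Agent.W279.Tri
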