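import Pool.Agent.W279.Tri.Orb

/-!
# Orbits on the fibres of a (2,2,2)-surface, and closeness (helper279)
-/

set_option autoImplicit false

namespace Pool.Agent.W279.Tri

open Height

section ring

variable {R : Type*} [CommRing R]

/-- the fibre over `x` -/
def fib (c : Fin 3 → Fin 3 → Fin 3 → R) (x : Fin 2 → R) (j k : Fin 3) : R :=
  ∑ i, mon x i * c i j k

/-- exchange of the first two variables -/
def sw {T : Type*} (c : Fin 3 → Fin 3 → Fin 3 → T) (j i k : Fin 3) : T := c i j k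

/-- the third variable first -/
def rot {T : Type*} (c : Fin 3 → Fin 3 → Fin 3 → T) (k i j : Fin 3) : T := c i j k

lemma G_fib (c : Fin 3 → Fin 3 → Fin 3 → R) (x y z : Fin 2 → R) :
    G (fib c x) y z = E c x y z := by
  simp only [G, fib, E, coef, Finset.sum_mul, Finset.mul_sum]
  conv_rhs => rw [Finset.sum_comm]
  refine Finset.sum_congr rfl fun j _ => ?_
  conv_rhs => rw [Finset.sum_comm]
  refine Finset.sum_congr rfl fun k _ => Finset.sum_congr rfl fun i _ => ?_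
  ring

lemma E_sw (c : Fin 3 → Fin 3 → Fin 3 → R) (x y z : Fin 2 → R) :
    E (sw c) y x z = E c x y z := by
  simp only [E, sw, coef, Finset.mul_sum]
  rw [Finset.sum_comm]
  refine Finset.sum_congr rfl fun j _ => Finset.sum_congr rfl fun i _ =>
    Finset.sum_congr rfl fun k _ => ?_
  ring

lemma lf_fib (c : Fin 3 → Fin 3 → Fin 3 → R) (x v : Fin 2 → R) (j : Fin 3) :
    lf (fib c x) v j = coef (sw c) j x v := by
  simp only [lf, fib, coef, sw, Finset.sum_mul]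
  rw [Finset.sum_comm]
  refine Finset.sum_congr rfl fun j _ => Finset.sum_congr rfl fun i _ => ?_
  ring

lemma lf_fib' (c : Fin 3 → Fin 3 → Fin 3 → R) (x u : Fin 2 → R) (k : Fin 3) :
    lf (fun j k => fib c x k j) u k = coef (rot c) k x u := by
  simp only [lf, fib, coef, rot, Finset.sum_mul]
  rw [Finset.sum_comm]
  refine Finset.sum_congr rfl fun j _ => Finset.sum_congr rfl fun i _ => ?_
  ring

lemma coef_map {S : Type*} [CommRing S] (φ : R →+* S) (c : Fin 3 → Fin 3 → Fin 3 → R)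
    (i : Fin 3) (y z : Fin 2 → R) :
    coef (fun i j k => φ (c i j k)) i (fun a => φ (y a)) (fun a => φ (z a)) =
      φ (coef c i y z) := by
  simp only [coef, mon_map, map_sum, map_mul]

lemma fib_map {S : Type*} [CommRing S] (φ : R →+* S) (c : Fin 3 → Fin 3 → Fin 3 → R)
    (x : Fin 2 → R) (j k : Fin 3) :
    fib (fun i j k => φ (c i j k)) (fun a => φ (x a)) j k = φ (fib c x j k) := by
  simp only [fib, mon_map, map_sum, map_mul]

end ring

variable {K : Type*} [Field K]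

/-- the three coefficients in the first variable have no common zero over the algebraic closure -/
def NC (c : Fin 3 → Fin 3 → Fin 3 → K) : Prop :=
  ∀ y z : Fin 2 → AlgebraicClosure K, y ≠ 0 → z ≠ 0 →
    ∃ i, coef (fun i j k => algebraMap K (AlgebraicClosure K) (c i j k)) i y z ≠ 0

lemma map_ne {A B : Type*} [Field A] [Field B] (φ : A →+* B) {w : Fin 2 → A} (hw : w ≠ 0) :
    (fun a => φ (w a)) ≠ 0 := by
  intro h0
  apply hw
  funext a
  have := congrFun h0 a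
  simpa using this

lemma NC.coef_ne {c : Fin 3 → Fin 3 → Fin 3 → K} (h : NC c) {y z : Fin 2 → K} (hy : y ≠ 0)
    (hz : z ≠ 0) : ∃ i, coef c i y z ≠ 0 := by
  obtain ⟨i, hi⟩ := h (fun a => algebraMap K _ (y a)) (fun a => algebraMap K _ (z a))
    (map_ne _ hy) (map_ne _ hz)
  refine ⟨i, fun h0 => hi ?_⟩
  rw [coef_map, h0, map_zero]

/-- an orbit in one of the two directions -/
def Orb2 (g : Fin 3 → Fin 3 → K) (U V : ℕ → Fin 2 → K) : Prop :=
  Orb g U V ∨ Orb (fun j k => g k j) V U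

lemma Orb2.hU {g : Fin 3 → Fin 3 → K} {U V : ℕ → Fin 2 → K} (h : Orb2 g U V) (n : ℕ) :
    U n ≠ 0 := by
  rcases h with h | h
  · exact h.hU n
  · exact h.hV n

lemma Orb2.hV {g : Fin 3 → Fin 3 → K} {U V : ℕ → Fin 2 → K} (h : Orb2 g U V) (n : ℕ) :
    V n ≠ 0 := by
  rcases h with h | h
  · exact h.hV n
  · exact h.hU n

lemma Orb2.hdu {g : Fin 3 → Fin 3 → K} {U V : ℕ → Fin 2 → K} (h : Orb2 g U V) {n m : ℕ}
    (hnm : n ≠ m) : br (U n) (U m) ≠ 0 := by
  rcases h with h | h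
  · exact h.hdu n m hnm
  · exact h.hdv n m hnm

lemma Orb2.hdv {g : Fin 3 → Fin 3 → K} {U V : ℕ → Fin 2 → K} (h : Orb2 g U V) {n m : ℕ}
    (hnm : n ≠ m) : br (V n) (V m) ≠ 0 := by
  rcases h with h | h
  · exact h.hdv n m hnm
  · exact h.hdu n m hnm

lemma Orb2.G_eq_zero {g : Fin 3 → Fin 3 → K} {U V : ℕ → Fin 2 → K} (h : Orb2 g U V) (n : ℕ) :
    G g (U n) (V n) = 0 := by
  rcases h with h | h
  · exact h.G_eq_zero n
  · rw [G_swap]
    exact h.G_eq_zero n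

theorem Orb2.recurr {g : Fin 3 → Fin 3 → K} {U V : ℕ → Fin 2 → K} (h : Orb2 g U V)
    {L : Type*} [NontriviallyNormedField L] [ProperSpace L] (σ : K →+* L)
    (hsm : Sm (fun j k => σ (g j k))) {ε : ℝ} (hε : 0 < ε) (M : ℕ) :
    ∃ m, M ≤ m ∧
      ‖br (fun a => σ (U 0 a)) (fun a => σ (U m a))‖ ≤
        ε * (‖(fun a => σ (U 0 a))‖ * ‖(fun a => σ (U m a))‖) ∧
      ‖br (fun a => σ (V 0 a)) (fun a => σ (V m a))‖ ≤
        ε * (‖(fun a => σ (V 0 a))‖ * ‖(fun a => σ (V m a))‖) := by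
  rcases h with h | h
  · exact h.recurr σ hsm hε M
  · obtain ⟨m, hm, h1, h2⟩ := h.recurr σ hsm.transpose hε M
    exact ⟨m, hm, h2, h1⟩

/-- orbits on the fibres of large height -/
theorem exists_orb2 [AdmissibleAbsValues K] (c : Fin 3 → Fin 3 → Fin 3 → K)
    (h1 : NC (sw c)) (h2 : NC (rot c)) :
    ∃ C₀ : ℝ, ∀ x : Fin 2 → K, x ≠ 0 → C₀ < logHeight x → ∀ y z : Fin 2 → K, y ≠ 0 → z ≠ 0 →
      E c x y z = 0 → ∃ U V : ℕ → Fin 2 → K, Orb2 (fib c x) U V ∧ U 0 = y ∧ V 0 = z := by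
  obtain ⟨C₁, hC₁⟩ := height_roots (sw c) h1
  obtain ⟨C₂, hC₂⟩ := height_roots (rot c) h2
  refine ⟨max C₁ C₂ / 2, fun x hx hxC y z hy hz h0 => ?_⟩
  have hδ : 0 < 2 * logHeight x - max C₁ C₂ := by linarith
  have b1 := le_max_left C₁ C₂
  have b2 := le_max_right C₁ C₂
  have k1 : ∀ v : Fin 2 → K, v ≠ 0 → ∃ j, lf (fib c x) v j ≠ 0 := by
    intro v hv
    obtain ⟨j, hj⟩ := h1.coef_ne hx hv
    exact ⟨j, by rwa [lf_fib]⟩
  have k2 : ∀ u : Fin 2 → K, u ≠ 0 → ∃ j, lf (fun j k => fib c x k j) u j ≠ 0 := by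
    intro v hv
    obtain ⟨j, hj⟩ := h2.coef_ne hx hv
    exact ⟨j, by rwa [lf_fib']⟩
  have k3 : ∀ u u' v : Fin 2 → K, u ≠ 0 → u' ≠ 0 → v ≠ 0 →
      (∀ j, lf (fib c x) v j = pr u u' j) →
      2 * logHeight v + (2 * logHeight x - max C₁ C₂) ≤ logHeight u + logHeight u' := by
    intro u u' v hu hu' hv h
    have := hC₁ u u' x v hu hu' hx hv ⟨by rw [← lf_fib, h]; rfl, by rw [← lf_fib, h]; rfl,
      by rw [← lf_fib, h]; rfl⟩
    linarith
  have k4 : ∀ v v' u : Fin 2 → K, v ≠ 0 → v' ≠ 0 → u ≠ 0 →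
      (∀ j, lf (fun j k => fib c x k j) u j = pr v v' j) →
      2 * logHeight u + (2 * logHeight x - max C₁ C₂) ≤ logHeight v + logHeight v' := by
    intro u u' v hu hu' hv h
    have := hC₂ u u' x v hu hu' hx hv ⟨by rw [← lf_fib', h]; rfl, by rw [← lf_fib', h]; rfl,
      by rw [← lf_fib', h]; rfl⟩
    linarith
  rcases le_total (logHeight y) (logHeight z) with hyz | hyz
  · obtain ⟨U, V, hO, hU, hV⟩ := exists_orb hδ k1 k2 k3 k4 hy hz (by rw [G_fib]; exact h0) hyz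
    exact ⟨U, V, Or.inl hO, hU, hV⟩
  · obtain ⟨U, V, hO, hU, hV⟩ := exists_orb (g := fun j k => fib c x k j) hδ k2 k1 k4 k3 hz hy
      (by rw [← G_swap, G_fib]; exact h0) hyz
    exact ⟨V, U, Or.inr hO, hV, hU⟩

section reach

variable {L : Type*} [NontriviallyNormedField L]

lemma exists_norm_eq (v : Fin 2 → L) : ∃ i, ‖v i‖ = ‖v‖ := by
  obtain ⟨i, -, hi⟩ := Finset.exists_mem_eq_sup' (Finset.univ_nonempty (α := Fin 2))
    (fun i => ‖v i‖₊)
  refine ⟨i, ?_⟩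
  have h1 : ‖v‖₊ = Finset.univ.sup fun i => ‖v i‖₊ := Pi.nnnorm_def v
  rw [Finset.sup'_eq_sup] at hi
  rw [← h1] at hi
  exact (congrArg NNReal.toReal hi).symm

/-- closeness of the classes gives closeness of suitable representatives -/
lemma exists_close {u v : Fin 2 → L} (hu : u ≠ 0) (hv : v ≠ 0) {ε : ℝ} (hε1 : ε < 1)
    (h : ‖br u v‖ ≤ ε * (‖u‖ * ‖v‖)) :
    ∃ d : L, d ≠ 0 ∧ ‖d • v - u‖ ≤ ε * ‖u‖ / (1 - ε) := by
  have hu' : 0 < ‖u‖ := norm_pos_iff.2 hu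
  have hv' : 0 < ‖v‖ := norm_pos_iff.2 hv
  have hε0 : 0 ≤ ε := by
    have := (norm_nonneg _).trans h
    by_contra hn
    push Not at hn
    nlinarith [mul_pos hu' hv']
  obtain ⟨i, hi⟩ := exists_norm_eq v
  have hvi : v i ≠ 0 := by rw [← norm_ne_zero_iff, hi]; exact hv'.ne'
  -- d = u i / v i
  have hcross : ∀ a, ‖u i / v i * v a - u a‖ ≤ ε * ‖u‖ := by
    intro a
    have e : u i / v i * v a - u a = (u i * v a - u a * v i) / v i := by
      field_simp
    have e2 : ‖u i * v a - u a * v i‖ ≤ ‖br u v‖ := by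
      fin_cases i <;> fin_cases a
      · simp
      · simp [br]
      · have : u 1 * v 0 - u 0 * v 1 = -(br u v) := by unfold br; ring
        simp only [Fin.mk_one, Fin.zero_eta, this, norm_neg, le_refl]
      · simp
    rw [e, norm_div, hi, div_le_iff₀ hv']
    calc _ ≤ ε * (‖u‖ * ‖v‖) := e2.trans h
      _ = _ := by ring
  have hmain : ‖(u i / v i) • v - u‖ ≤ ε * ‖u‖ := by
    rw [pi_norm_le_iff_of_nonneg (by positivity)]
    exact hcross
  have h1 : ε * ‖u‖ ≤ ε * ‖u‖ / (1 - ε) := by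
    rw [le_div_iff₀ (by linarith)]
    have : 0 ≤ ε * ‖u‖ * ε := by positivity
    nlinarith
  refine ⟨u i / v i, ?_, hmain.trans h1⟩
  intro h0
  rw [h0, zero_smul, zero_sub, norm_neg] at hmain
  nlinarith

/-- `P` has a representative in `W` -/
def Reach (σ : K →+* L) (W : Set (Fin 3 → Fin 2 → L)) (P : Fin 3 → Fin 2 → K) : Prop :=
  ∃ c : Fin 3 → L, (∀ i, c i ≠ 0) ∧ (fun i a => c i * σ (P i a)) ∈ W

lemma reach_of_close {σ : K →+* L} {W : Set (Fin 3 → Fin 2 → L)} (hW : IsOpen W)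
    {P : Fin 3 → Fin 2 → K} (hP : ∀ i, P i ≠ 0) (h : Reach σ W P) :
    ∃ ε : ℝ, 0 < ε ∧ ∀ Q : Fin 3 → Fin 2 → K, (∀ i, Q i ≠ 0) →
      (∀ i, ‖br (fun a => σ (P i a)) (fun a => σ (Q i a))‖ ≤
        ε * (‖(fun a => σ (P i a))‖ * ‖(fun a => σ (Q i a))‖)) → Reach σ W Q := by
  obtain ⟨c, hc, hcW⟩ := h
  obtain ⟨r, hr, hball⟩ := Metric.isOpen_iff.1 hW _ hcW
  set B : ℝ := ∑ i, ‖c i‖ * ‖(fun a => σ (P i a))‖ + 1 with hB
  have hBpos : 0 < B := by positivity
  refine ⟨min (1 / 2) (r / (4 * B)), by positivity, fun Q hQ hcl => ?_⟩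
  set ε := min (1 / 2) (r / (4 * B)) with hε
  have hε2 : ε ≤ 1 / 2 := min_le_left _ _
  have hε3 : ε ≤ r / (4 * B) := min_le_right _ _
  have hε0 : 0 < ε := by positivity
  have key := fun i => exists_close (map_ne σ (hP i)) (map_ne σ (hQ i))
    (show ε < 1 by linarith) (hcl i)
  choose d hd0 hd using key
  refine ⟨fun i => c i * d i, fun i => mul_ne_zero (hc i) (hd0 i), hball ?_⟩
  rw [Metric.mem_ball, dist_eq_norm]
  refine lt_of_le_of_lt ?_ (show r / 2 < r by linarith)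
  rw [pi_norm_le_iff_of_nonneg (by positivity)]
  intro i
  have e1 : (((fun i a => c i * d i * σ (Q i a)) - fun i a => c i * σ (P i a) :
      Fin 3 → Fin 2 → L) i) = c i • (d i • (fun a => σ (Q i a)) - fun a => σ (P i a)) := by
    funext a
    simp only [Pi.sub_apply, Pi.smul_apply, smul_eq_mul]
    ring
  rw [e1, norm_smul]
  have h2 : ε * ‖(fun a => σ (P i a))‖ / (1 - ε) ≤ 2 * ε * ‖(fun a => σ (P i a))‖ := by
    rw [div_le_iff₀ (by linarith)]
    have h0 : 0 ≤ ε * ‖(fun a => σ (P i a))‖ := by positivity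
    nlinarith
  have h3 : ‖c i‖ * ‖(fun a => σ (P i a))‖ ≤ B := by
    have := Finset.single_le_sum (f := fun i => ‖c i‖ * ‖(fun a => σ (P i a))‖)
      (fun i _ => by positivity) (Finset.mem_univ i)
    rw [hB]
    linarith
  calc ‖c i‖ * ‖d i • (fun a => σ (Q i a)) - fun a => σ (P i a)‖
      ≤ ‖c i‖ * (2 * ε * ‖(fun a => σ (P i a))‖) := by
        gcongr
        exact (hd i).trans h2
    _ = 2 * ε * (‖c i‖ * ‖(fun a => σ (P i a))‖) := by ring
    _ ≤ 2 * (r / (4 * B)) * B := by gcongr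
    _ = r / 2 := by field_simp; ring

end reach

end Pool.Agent.W279.Tri
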