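import Mathlib

/-!
# A complete field with a dense number field is locally compact (helper279)
-/

set_option autoImplicit false
set_option linter.style.haveILetI false

namespace Pool.Agent.W279.Tri

open Polynomial

section

variable {L : Type*} [NontriviallyNormedField L]

/-- the absolute value on `ℚ` induced by the norm of `L` -/
noncomputable def ratAbs (L : Type*) [NontriviallyNormedField L] [CharZero L] :
    AbsoluteValue ℚ ℝ where
  toFun x := ‖(x : L)‖
  map_mul' x y := by push_cast; exact norm_mul _ _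
  nonneg' x := norm_nonneg _
  eq_zero' x := by simp
  add_le' x y := by push_cast; exact norm_add_le _ _

lemma ratAbs_apply [CharZero L] (x : ℚ) : ratAbs L x = ‖(x : L)‖ := rfl

variable [CharZero L]

lemma ratAbs_nontrivial {K : Type*} [Field K] [NumberField K] (σ : K →+* L)
    (hσ : DenseRange σ) : (ratAbs L).IsNontrivial := by
  by_contra hn
  have h1 : ∀ x : ℚ, ‖(x : L)‖ ≤ 1 := by
    intro x
    by_cases hx : x = 0
    · simp [hx]
    · by_contra h
      exact hn ⟨x, hx, by rw [ratAbs_apply]; exact fun h' => h h'.le⟩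
  have : IsUltrametricDist L :=
    IsUltrametricDist.isUltrametricDist_of_forall_norm_natCast_le_one fun n => by
      have := h1 n
      simpa using this
  obtain ⟨x, hx⟩ := NormedField.exists_one_lt_norm L
  obtain ⟨y, hy⟩ := hσ.exists_mem_open (isOpen_lt continuous_const continuous_norm) ⟨x, hx⟩
  simp only [Set.mem_ofPred_eq] at hy
  have hint : IsIntegral ℚ y := Algebra.IsIntegral.isIntegral y
  set p := minpoly ℚ y with hp
  have hmon : p.Monic := minpoly.monic hint
  have hdeg : 0 < p.natDegree := minpoly.natDegree_pos hint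
  have h2 : aeval y p = 0 := minpoly.aeval ℚ y
  rw [aeval_eq_sum_range, Finset.sum_range_succ, hmon.coeff_natDegree, one_smul] at h2
  have h3 := congrArg σ h2
  rw [map_add, map_sum, map_pow, map_zero] at h3
  have h4 : (σ y) ^ p.natDegree = -∑ i ∈ Finset.range p.natDegree, σ (p.coeff i • y ^ i) := by
    rw [← sub_eq_zero]
    rw [sub_neg_eq_add, add_comm]
    exact h3
  have h5 : ∀ i ∈ Finset.range p.natDegree,
      ‖σ (p.coeff i • y ^ i)‖ ≤ ‖σ y‖ ^ (p.natDegree - 1) := by
    intro i hi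
    rw [Finset.mem_range] at hi
    rw [Algebra.smul_def, map_mul, map_pow, norm_mul, norm_pow]
    have h6 : ‖σ ((algebraMap ℚ K) (p.coeff i))‖ ≤ 1 := by
      have : σ ((algebraMap ℚ K) (p.coeff i)) = ((p.coeff i : ℚ) : L) := by
        simp
      rw [this]
      exact h1 _
    calc ‖σ ((algebraMap ℚ K) (p.coeff i))‖ * ‖σ y‖ ^ i ≤ 1 * ‖σ y‖ ^ i := by gcongr
      _ = ‖σ y‖ ^ i := one_mul _
      _ ≤ ‖σ y‖ ^ (p.natDegree - 1) := pow_le_pow_right₀ hy.le (by omega)
  have h6 : ‖(σ y) ^ p.natDegree‖ ≤ ‖σ y‖ ^ (p.natDegree - 1) := by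
    rw [h4, norm_neg]
    exact IsUltrametricDist.norm_sum_le_of_forall_le_of_nonneg (by positivity) h5
  rw [norm_pow] at h6
  have h7 : ‖σ y‖ ^ (p.natDegree - 1) < ‖σ y‖ ^ p.natDegree :=
    pow_lt_pow_right₀ hy (by omega)
  linarith

lemma lt_of_rpow_lt' {a b c : ℝ} (hb : 0 ≤ b) (hc : 0 < c) (h : a ^ c < b ^ c) :
    a < b := by
  by_contra hab
  push Not at hab
  exact absurd h (not_lt.2 (Real.rpow_le_rpow hb hab hc.le))

lemma totallyBounded_real (h : (ratAbs L).IsEquiv Rat.AbsoluteValue.real) :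
    TotallyBounded ((fun x : ℚ => (x : L)) '' {x : ℚ | ‖(x : L)‖ < 1}) := by
  obtain ⟨c, hc, hf⟩ := AbsoluteValue.isEquiv_iff_exists_rpow_eq.1 h
  have hf' : ∀ x : ℚ, ‖(x : L)‖ ^ c = |(x : ℝ)| := by
    intro x
    have := congrFun hf x
    simp only [ratAbs_apply] at this
    rw [this]
    simp
  rw [Metric.totallyBounded_iff]
  intro ε hε
  obtain ⟨n, hn⟩ := exists_nat_one_div_lt (show 0 < ε ^ c by positivity)
  set N : ℕ := n + 1 with hN
  have hN0 : (0 : ℚ) < N := by positivity
  refine ⟨(fun k : ℤ => (((k : ℚ) / N : ℚ) : L)) '' (Set.Icc (-(N : ℤ)) N),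
    (Set.finite_Icc _ _).image _, ?_⟩
  rintro _ ⟨x, hx, rfl⟩
  simp only [Set.mem_ofPred_eq] at hx
  have hx1 : |(x : ℝ)| < 1 := by
    rw [← hf']
    exact Real.rpow_lt_one (norm_nonneg _) hx hc
  have hx2 : |x| < 1 := by exact_mod_cast hx1
  rw [abs_lt] at hx2
  simp only [Set.mem_iUnion]
  refine ⟨_, ⟨⌊x * N⌋, ?_, rfl⟩, ?_⟩
  · constructor
    · rw [Int.le_floor]
      push_cast
      nlinarith
    · have h1 := Int.floor_le (x * N)
      have h2 : ((⌊x * N⌋ : ℤ) : ℚ) ≤ N := by nlinarith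
      exact_mod_cast h2
  · rw [Metric.mem_ball, dist_eq_norm]
    have h1 := Int.floor_le (x * N)
    have h2 := Int.lt_floor_add_one (x * N)
    have h3 : |((x - (⌊x * N⌋ : ℚ) / N : ℚ) : ℝ)| < ε ^ c := by
      have h4 : |x - (⌊x * N⌋ : ℚ) / N| ≤ 1 / N := by
        have e : x - (⌊x * N⌋ : ℚ) / N = (x * N - ⌊x * N⌋) / N := by
          field_simp
        rw [e, abs_div, abs_of_pos hN0]
        apply div_le_div_of_nonneg_right _ hN0.le
        rw [abs_le]
        constructor <;> linarith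
      have h5 : |((x - (⌊x * N⌋ : ℚ) / N : ℚ) : ℝ)| ≤ ((1 / N : ℚ) : ℝ) := by
        rw [← Rat.cast_abs]
        exact_mod_cast h4
      refine lt_of_le_of_lt h5 ?_
      push_cast
      rw [hN]
      push_cast
      exact hn
    rw [← hf'] at h3
    have h4 : ‖((x - (⌊x * N⌋ : ℚ) / N : ℚ) : L)‖ < ε :=
      lt_of_rpow_lt' hε.le hc h3
    have e : ((x : L) - (((⌊x * N⌋ : ℤ) : ℚ) / N : ℚ)) = ((x - (⌊x * N⌋ : ℚ) / N : ℚ) : L) := by
      push_cast
      ring
    rw [e]
    exact h4

lemma totallyBounded_padic (p : ℕ) [Fact p.Prime]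
    (h : (ratAbs L).IsEquiv (Rat.AbsoluteValue.padic p)) :
    TotallyBounded ((fun x : ℚ => (x : L)) '' {x : ℚ | ‖(x : L)‖ < 1}) := by
  obtain ⟨c, hc, hf⟩ := AbsoluteValue.isEquiv_iff_exists_rpow_eq.1 h
  have hf' : ∀ x : ℚ, ‖(x : L)‖ ^ c = ‖(x : ℚ_[p])‖ := by
    intro x
    have := congrFun hf x
    simp only [ratAbs_apply] at this
    rw [this]
    simp
  rw [Metric.totallyBounded_iff]
  intro ε hε
  have hp1 : (1 : ℝ) < p := by exact_mod_cast (Fact.out : p.Prime).one_lt
  obtain ⟨m, hm⟩ := exists_pow_lt_of_lt_one (show 0 < ε ^ c by positivity)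
    (show ((p : ℝ)⁻¹) < 1 from inv_lt_one_of_one_lt₀ hp1)
  refine ⟨(fun k : ℕ => (k : L)) '' (Set.Iio (p ^ m)), (Set.finite_Iio _).image _, ?_⟩
  rintro _ ⟨x, hx, rfl⟩
  simp only [Set.mem_ofPred_eq] at hx
  have hx1 : ‖(x : ℚ_[p])‖ ≤ 1 := by
    rw [← hf']
    exact Real.rpow_le_one (norm_nonneg _) hx.le hc.le
  set X : ℤ_[p] := ⟨(x : ℚ_[p]), hx1⟩ with hX
  simp only [Set.mem_iUnion]
  refine ⟨_, ⟨X.appr m, PadicInt.appr_lt X m, rfl⟩, ?_⟩
  rw [Metric.mem_ball, dist_eq_norm]
  have h1 := PadicInt.appr_spec m X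
  rw [← PadicInt.norm_le_pow_iff_mem_span_pow] at h1
  have h2 : ‖((x - (X.appr m : ℚ) : ℚ) : ℚ_[p])‖ < ε ^ c := by
    have e : ((x - (X.appr m : ℚ) : ℚ) : ℚ_[p]) = ((X - (X.appr m : ℤ_[p]) : ℤ_[p]) : ℚ_[p]) := by
      push_cast
      rfl
    rw [e]
    refine lt_of_le_of_lt h1 ?_
    rw [zpow_neg, zpow_natCast, ← inv_pow]
    exact hm
  rw [← hf'] at h2
  have h4 : ‖((x - (X.appr m : ℚ) : ℚ) : L)‖ < ε :=
    lt_of_rpow_lt' hε.le hc h2
  have e : ((x : L) - (X.appr m : L)) = ((x - (X.appr m : ℚ) : ℚ) : L) := by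
    push_cast
    ring
  rw [e]
  exact h4

end

/-- A complete nontrivially normed field which contains a number field as a dense subfield is
a proper metric space. -/
theorem properSpace_of_denseRange {K : Type*} [Field K] [NumberField K] {L : Type*}
    [NontriviallyNormedField L] [CompleteSpace L] (σ : K →+* L) (hσ : DenseRange σ) :
    ProperSpace L := by
  have : CharZero L := charZero_of_injective_ringHom σ.injective
  have hnt := ratAbs_nontrivial σ hσ
  have htb : TotallyBounded ((fun x : ℚ => (x : L)) '' {x : ℚ | ‖(x : L)‖ < 1}) := by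
    rcases Rat.AbsoluteValue.equiv_real_or_padic _ hnt with h | ⟨p, ⟨hp, h⟩, -⟩
    · exact totallyBounded_real h
    · exact totallyBounded_padic p h
  set F : Subfield L := (algebraMap ℚ L).fieldRange.topologicalClosure with hF
  have hFc : IsClosed (F : Set L) := Subfield.isClosed_topologicalClosure _
  have hQF : ∀ x : ℚ, (x : L) ∈ F := fun x =>
    Subfield.le_topologicalClosure _ ⟨x, by simp⟩
  have hFd : (F : Set L) ⊆ closure (Set.range (fun x : ℚ => (x : L))) := by
    intro x hx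
    have h1 : x ∈ closure ((algebraMap ℚ L).fieldRange : Set L) := hx
    refine closure_mono ?_ h1
    rintro _ ⟨y, rfl⟩
    exact ⟨y, by simp⟩
  -- `F` is a nontrivially normed field
  obtain ⟨r, hr⟩ : ∃ r : ℚ, 1 < ‖(r : L)‖ := by
    obtain ⟨x, hx, hx1⟩ := hnt
    rw [ratAbs_apply] at hx1
    rcases lt_or_gt_of_ne hx1 with h | h
    · refine ⟨x⁻¹, ?_⟩
      push_cast
      rw [norm_inv]
      exact (one_lt_inv₀ (by simpa using hx)).2 h
    · exact ⟨x, h⟩
  letI instF : NontriviallyNormedField F :=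
    { SubfieldClass.toNormedField F with
      non_trivial := ⟨⟨(r : L), hQF r⟩, hr⟩ }
  have : CompleteSpace F := hFc.completeSpace_coe
  -- compact neighbourhood
  have hcomp : IsCompact (closure ((fun x : ℚ => (x : L)) '' {x : ℚ | ‖(x : L)‖ < 1})) :=
    htb.closure.isCompact_of_isClosed isClosed_closure
  have hemb : Topology.IsClosedEmbedding (Subtype.val : F → L) := hFc.isClosedEmbedding_subtypeVal
  have hcF : IsCompact (Subtype.val ⁻¹'
      (closure ((fun x : ℚ => (x : L)) '' {x : ℚ | ‖(x : L)‖ < 1})) : Set F) :=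
    hemb.isCompact_preimage hcomp
  have hnhds : (Subtype.val ⁻¹'
      (closure ((fun x : ℚ => (x : L)) '' {x : ℚ | ‖(x : L)‖ < 1})) : Set F) ∈ nhds (0 : F) := by
    have h1 : Subtype.val ⁻¹' (Metric.ball (0 : L) 1) ∈ nhds (0 : F) :=
      continuous_subtype_val.continuousAt.preimage_mem_nhds
        (Metric.ball_mem_nhds _ one_pos)
    refine Filter.mem_of_superset h1 ?_
    intro x hx
    simp only [Set.mem_preimage, mem_ball_zero_iff] at hx ⊢
    have h2 : (x : L) ∈ closure (Set.range (fun x : ℚ => (x : L))) := hFd x.2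
    rw [mem_closure_iff_nhds] at h2 ⊢
    intro t ht
    obtain ⟨z, ⟨hz1, hz2⟩, y, rfl⟩ := h2 (t ∩ Metric.ball 0 1)
      (Filter.inter_mem ht (Metric.isOpen_ball.mem_nhds (by simpa using hx)))
    exact ⟨_, hz1, y, by simpa using hz2, rfl⟩
  have : LocallyCompactSpace F :=
    hcF.locallyCompactSpace_of_mem_nhds_of_addGroup hnhds
  letI : NormedSpace F L := { (inferInstance : Module F L) with
    norm_smul_le := fun a b => by
      change ‖(a : L) * b‖ ≤ ‖(a : L)‖ * ‖b‖
      exact (norm_mul _ _).le }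
  -- finite dimension
  set b := Module.finBasis ℚ K with hb
  set W : Submodule F L := Submodule.span F (Set.range fun i => σ (b i)) with hW
  have : FiniteDimensional F W := FiniteDimensional.span_of_finite F (Set.finite_range _)
  have hWc : IsClosed (W : Set L) := Submodule.closed_of_finiteDimensional W
  have hσW : ∀ x : K, σ x ∈ W := by
    intro x
    rw [← b.sum_repr x, map_sum]
    refine W.sum_mem fun i _ => ?_
    have e : σ (b.repr x i • b i) = (⟨((b.repr x i : ℚ) : L), hQF _⟩ : F) • σ (b i) := by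
      rw [Algebra.smul_def, map_mul]
      change _ = ((b.repr x i : ℚ) : L) * σ (b i)
      congr 1
      simp
    rw [e]
    exact W.smul_mem _ (Submodule.subset_span ⟨i, rfl⟩)
  have hWtop : W = ⊤ := by
    rw [eq_top_iff]
    intro x _
    have h1 : x ∈ closure (Set.range σ) := hσ x
    exact closure_minimal (by rintro _ ⟨y, rfl⟩; exact hσW y) hWc h1
  have : FiniteDimensional F L := by
    have h1 : Module.Finite F W := inferInstance
    rw [hWtop, Module.Finite.iff_fg] at h1
    exact ⟨h1⟩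
  exact FiniteDimensional.proper F L

end Pool.Agent.W279.Tri
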