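import Pool.Agent.W279.Tri.Exc
import Pool.Agent.W279.Tri.LocComp

/-!
# The local closures of the rational points of a (2,2,2)-surface (helper279)
-/

set_option autoImplicit false

namespace Pool.Agent.W279.Tri

open Height Filter

variable {K : Type*} [Field K]

/-- finiteness of the bad classes -/
theorem finite_bad [NumberField K] (c : Fin 3 → Fin 3 → Fin 3 → K) (h1 : NC (sw c))
    (h2 : NC (rot c)) {S : Set (Fin 2 → AlgebraicClosure K)} (hS : S.Finite)
    (hS0 : ∀ s ∈ S, s ≠ 0)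
    (h : ∀ x y z : Fin 2 → AlgebraicClosure K, x ≠ 0 → y ≠ 0 → z ≠ 0 →
      SingX (fun i j k => algebraMap K (AlgebraicClosure K) (c i j k)) x y z →
        ∃ s ∈ S, br x s = 0) :
    {t : K | ¬Good c ![t, 1]}.Finite := by
  obtain ⟨C₀, hC₀⟩ := exists_orb2 c h1 h2
  have : CharZero (AlgebraicClosure K) :=
    charZero_of_injective_algebraMap (algebraMap K (AlgebraicClosure K)).injective
  obtain ⟨M, hM, hbad⟩ := exists_bad hS hS0 h
  have f1 : {t : K | logHeight₁ t ≤ C₀}.Finite := NumberField.finite_setOfPred_logHeight₁_le K C₀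
  have f2 : {t : K | M.eval (algebraMap K (AlgebraicClosure K) t) = 0}.Finite := by
    have h3 : (M.rootSet (AlgebraicClosure K)).Finite := M.rootSet_finite _
    have h4 : {t : AlgebraicClosure K | M.eval t = 0}.Finite := by
      refine h3.subset fun t ht => ?_
      rw [Polynomial.mem_rootSet]
      exact ⟨hM, by simpa using ht⟩
    exact h4.preimage (algebraMap K (AlgebraicClosure K)).injective.injOn
  refine (f1.union f2).subset fun t ht => ?_
  by_contra hn
  simp only [Set.mem_union, Set.mem_ofPred_eq, not_or, not_le] at hn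
  apply ht
  have hne : (![t, 1] : Fin 2 → K) ≠ 0 := fun h0 => by
    have := congrFun h0 1
    simp at this
  refine ⟨?_, fun y z hy hz h0 => hC₀ _ hne ?_ y z hy hz h0⟩
  · intro u v hu hv hs
    rw [fib_map', vec_map] at hs
    exact hbad _ hn.2 u v hu hv hs
  · rw [← logHeight₁_eq_logHeight]
    exact hn.1

/-- the normalised representative -/
noncomputable def nrm (v : Fin 2 → K) : Fin 2 → K := by
  classical
  exact if v 1 = 0 then ![1, 0] else ![v 0 / v 1, 1]

lemma nrm_spec {v : Fin 2 → K} (hv : v ≠ 0) : ∃ t : K, t ≠ 0 ∧ v = t • nrm v := by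
  classical
  by_cases h : v 1 = 0
  · have h0 : v 0 ≠ 0 := by
      intro h0
      apply hv
      funext i
      fin_cases i
      · exact h0
      · exact h
    refine ⟨v 0, h0, ?_⟩
    have e : nrm v = ![1, 0] := by simp [nrm, h]
    rw [e]
    funext i
    fin_cases i
    · simp
    · simpa using h
  · refine ⟨v 1, h, ?_⟩
    have e : nrm v = ![v 0 / v 1, 1] := by simp [nrm, h]
    rw [e]
    exact norm_vec h

/-- the bad classes -/
def Bad (c : Fin 3 → Fin 3 → Fin 3 → K) : Set (Fin 2 → K) :=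
  insert ![1, 0] ((fun t => ![t, 1]) '' {t : K | ¬Good c ![t, 1]})

lemma good_of_not_bad {c : Fin 3 → Fin 3 → Fin 3 → K} {v : Fin 2 → K} (h : nrm v ∉ Bad c) :
    Good c (nrm v) := by
  classical
  by_cases hv : v 1 = 0
  · have e : nrm v = ![1, 0] := by simp [nrm, hv]
    rw [e] at h
    exact absurd (Set.mem_insert _ _) h
  · have e : nrm v = ![v 0 / v 1, 1] := by simp [nrm, hv]
    rw [e] at h ⊢
    by_contra hg
    exact h (Set.mem_insert_of_mem _ ⟨_, hg, rfl⟩)

lemma Bad.ne_zero {c : Fin 3 → Fin 3 → Fin 3 → K} {v : Fin 2 → K} (h : v ∈ Bad c) : v ≠ 0 := by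
  rcases h with rfl | ⟨t, -, rfl⟩
  · intro h0
    have := congrFun h0 0
    simp at this
  · intro h0
    have := congrFun h0 1
    simp at this

/-- the points over a pair of classes -/
lemma exists_roots {c : Fin 3 → Fin 3 → Fin 3 → K} (h2 : NC (rot c)) {a b : Fin 2 → K}
    (ha : a ≠ 0) (hb : b ≠ 0) :
    ∃ Z : Set (Fin 2 → K), Z.Finite ∧ (∀ z ∈ Z, z ≠ 0 ∧ E c a b z = 0) ∧
      ∀ w : Fin 2 → K, w ≠ 0 → E c a b w = 0 → ∃ z ∈ Z, ∃ t : K, t ≠ 0 ∧ w = t • z := by
  by_cases hz : ∃ z : Fin 2 → K, z ≠ 0 ∧ E c a b z = 0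
  · obtain ⟨z, hz0, hz⟩ := hz
    have h3 : ∃ j, lf (fun j k => fib c a k j) b j ≠ 0 := by
      obtain ⟨j, hj⟩ := h2.coef_ne ha hb
      exact ⟨j, by rwa [lf_fib']⟩
    obtain ⟨z', hz'0, hz'⟩ := exists_other (g := fun j k => fib c a k j) hz0 h3
      (by rw [← G_swap, G_fib]; exact hz)
    have hE : ∀ w, E c a b w = br w z * br w z' := by
      intro w
      rw [← G_fib, G_swap, G_of_pr hz']
    refine ⟨{z, z'}, by simp, ?_, ?_⟩
    · rintro w (rfl | rfl)
      · exact ⟨hz0, hz⟩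
      · exact ⟨hz'0, by rw [hE, br_self, mul_zero]⟩
    · intro w hw0 hw
      rw [hE, mul_eq_zero] at hw
      rcases hw with hw | hw
      · rw [br_swap, neg_eq_zero] at hw
        exact ⟨z, by simp, (br_eq_zero_iff hz0 hw0).1 hw⟩
      · rw [br_swap, neg_eq_zero] at hw
        exact ⟨z', by simp, (br_eq_zero_iff hz'0 hw0).1 hw⟩
  · push Not at hz
    exact ⟨∅, Set.finite_empty, fun z hz => hz.elim, fun w hw0 hw => absurd hw (hz w hw0)⟩

/-- equality of points of the product of three projective lines -/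
def Eqv {F : Type*} [Field F] (P Q : Fin 3 → Fin 2 → F) : Prop :=
  ∀ i, ∃ t : F, t ≠ 0 ∧ P i = t • Q i

lemma Van.eqv {f : MvPolynomial (Fin 3 × Fin 2) K} {P Q : Fin 3 → Fin 2 → K} (h : Van f Q)
    (hPQ : Eqv P Q) : Van f P := by
  choose t ht0 ht using hPQ
  intro s
  have := h (fun i => s i * t i)
  rw [← this]
  congr 2
  funext p
  rw [ht, Pi.smul_apply, smul_eq_mul, mul_assoc]

lemma Eqv.symm {F : Type*} [Field F] {P Q : Fin 3 → Fin 2 → F} (h : Eqv P Q) : Eqv Q P := by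
  intro i
  obtain ⟨t, ht0, ht⟩ := h i
  exact ⟨t⁻¹, inv_ne_zero ht0, by rw [ht, smul_smul, inv_mul_cancel₀ ht0, one_smul]⟩

/-- the exceptional points -/
theorem exists_T {c : Fin 3 → Fin 3 → Fin 3 → K} (h2 : NC (rot c)) (hb0 : (Bad c).Finite)
    (hb1 : (Bad (sw c)).Finite) :
    ∃ T : Set (Fin 3 → Fin 2 → K), T.Finite ∧
      (∀ P ∈ T, (∀ i, P i ≠ 0) ∧ E c (P 0) (P 1) (P 2) = 0) ∧
      ∀ Q : Fin 3 → Fin 2 → K, (∀ i, Q i ≠ 0) → E c (Q 0) (Q 1) (Q 2) = 0 →
        nrm (Q 0) ∈ Bad c → nrm (Q 1) ∈ Bad (sw c) → ∃ P ∈ T, Eqv Q P := by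
  classical
  choose! Z hZ1 hZ2 hZ3 using fun (a : Fin 2 → K) (b : Fin 2 → K) (ha : a ≠ 0) (hb : b ≠ 0) =>
    exists_roots h2 ha hb
  refine ⟨⋃ a ∈ Bad c, ⋃ b ∈ Bad (sw c), (fun z => ![a, b, z]) '' (Z a b), ?_, ?_, ?_⟩
  · refine hb0.biUnion fun a ha => hb1.biUnion fun b hb => ?_
    exact (hZ1 a b (Bad.ne_zero ha) (Bad.ne_zero hb)).image _
  · intro P hP
    simp only [Set.mem_iUnion, Set.mem_image] at hP
    obtain ⟨a, ha, b, hb, z, hz, rfl⟩ := hP
    have ha0 := Bad.ne_zero ha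
    have hb0 := Bad.ne_zero hb
    obtain ⟨hz0, hE⟩ := hZ2 a b ha0 hb0 z hz
    refine ⟨fun i => ?_, hE⟩
    fin_cases i
    · exact ha0
    · exact hb0
    · exact hz0
  · intro Q hQ hE h0 h1
    obtain ⟨s, hs0, hs⟩ := nrm_spec (hQ 0)
    obtain ⟨t, ht0, ht⟩ := nrm_spec (hQ 1)
    have hE' : E c (nrm (Q 0)) (nrm (Q 1)) (Q 2) = 0 := by
      have e : E c (Q 0) (Q 1) (Q 2) = s ^ 2 * t ^ 2 * 1 ^ 2 *
          E c (nrm (Q 0)) (nrm (Q 1)) (Q 2) := by
        conv_lhs => rw [hs, ht, ← one_smul K (Q 2)]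
        rw [E_smul]
      rw [e] at hE
      have : s ^ 2 * t ^ 2 * 1 ^ 2 ≠ 0 := mul_ne_zero (mul_ne_zero (pow_ne_zero 2 hs0)
        (pow_ne_zero 2 ht0)) (pow_ne_zero 2 one_ne_zero)
      exact (mul_eq_zero.1 hE).resolve_left this
    obtain ⟨z, hz, w, hw0, hw⟩ := hZ3 _ _ (Bad.ne_zero h0) (Bad.ne_zero h1) (Q 2) (hQ 2) hE'
    refine ⟨![nrm (Q 0), nrm (Q 1), z], ?_, ?_⟩
    · simp only [Set.mem_iUnion, Set.mem_image]
      exact ⟨_, h0, _, h1, z, hz, rfl⟩
    · intro i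
      fin_cases i
      · exact ⟨s, hs0, hs⟩
      · exact ⟨t, ht0, ht⟩
      · exact ⟨w, hw0, hw⟩

section place

variable {L : Type*} [NontriviallyNormedField L]

/-- the polynomials which vanish at all rational points of the surface near `x` -/
def Jx (c : Fin 3 → Fin 3 → Fin 3 → K) (σ : K →+* L) (x : Fin 3 → Fin 2 → L) :
    Set (MvPolynomial (Fin 3 × Fin 2) K) :=
  {f | ∃ U ∈ nhds x, ∀ y, Pt c σ U y → Van f y}

lemma Reach.mono {σ : K →+* L} {U W : Set (Fin 3 → Fin 2 → L)} (h : U ⊆ W)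
    {P : Fin 3 → Fin 2 → K} (hP : Reach σ U P) : Reach σ W P := by
  obtain ⟨d, hd, hU⟩ := hP
  exact ⟨d, hd, h hU⟩

lemma Pt.mono {c : Fin 3 → Fin 3 → Fin 3 → K} {σ : K →+* L} {U W : Set (Fin 3 → Fin 2 → L)}
    (h : U ⊆ W) {P : Fin 3 → Fin 2 → K} (hP : Pt c σ U P) : Pt c σ W P :=
  ⟨hP.1, hP.2.1, hP.2.2.mono h⟩

lemma van_of_dvd {c : Fin 3 → Fin 3 → Fin 3 → K} {f : MvPolynomial (Fin 3 × Fin 2) K}
    (h : form c ∣ f) {P : Fin 3 → Fin 2 → K} (hP : E c (P 0) (P 1) (P 2) = 0) : Van f P := by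
  obtain ⟨g, rfl⟩ := h
  intro t
  rw [map_mul, eval_form]
  have : E c (fun a => t 0 * P 0 a) (fun a => t 1 * P 1 a) (fun a => t 2 * P 2 a) =
      E c (t 0 • P 0) (t 1 • P 1) (t 2 • P 2) := rfl
  rw [this, E_smul, hP, mul_zero, zero_mul]

/-- the local closures -/
theorem local_closure [Infinite K] [ProperSpace L] {c : Fin 3 → Fin 3 → Fin 3 → K}
    (hirr : Irreducible (form c))
    (hb0 : {t : K | ¬Good c ![t, 1]}.Finite) (hb1 : {t : K | ¬Good (sw c) ![t, 1]}.Finite)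
    {T : Set (Fin 3 → Fin 2 → K)} (hT : T.Finite)
    (hT1 : ∀ P ∈ T, (∀ i, P i ≠ 0) ∧ E c (P 0) (P 1) (P 2) = 0)
    (hT2 : ∀ Q : Fin 3 → Fin 2 → K, (∀ i, Q i ≠ 0) → E c (Q 0) (Q 1) (Q 2) = 0 →
        nrm (Q 0) ∈ Bad c → nrm (Q 1) ∈ Bad (sw c) → ∃ P ∈ T, Eqv Q P)
    (σ : K →+* L) (x : Fin 3 → Fin 2 → L) (hx : ∀ i, x i ≠ 0) :
    Jx c σ x = Set.univ ∨ Jx c σ x = {f | form c ∣ f} ∨
      ∃ P ∈ T, Eqv x (fun i a => σ (P i a)) ∧ Jx c σ x = {f | Van f P} := by
  classical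
  have hnrm : ∀ U : Set (Fin 3 → Fin 2 → L), ∀ y, Pt c σ U y →
      Pt c σ U ![nrm (y 0), nrm (y 1), y 2] := by
    intro U y hy
    refine hy.smul fun i => ?_
    fin_cases i
    · exact nrm_spec (hy.1 0)
    · exact nrm_spec (hy.1 1)
    · exact ⟨1, one_ne_zero, (one_smul _ _).symm⟩
  by_cases hA : ∀ U ∈ nhds x, ∃ y, Pt c σ U y ∧
      (nrm (y 0) ∉ Bad c ∨ nrm (y 1) ∉ Bad (sw c))
  · right; left
    apply Set.Subset.antisymm
    · rintro f ⟨U, hU, hf⟩
      obtain ⟨y, hy, hg⟩ := hA (interior U) (interior_mem_nhds.2 hU)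
      refine density hirr hb0 hb1 isOpen_interior (hnrm _ y hy) ?_
        (fun Q hQ => hf Q (hQ.mono interior_subset))
      exact hg.imp good_of_not_bad good_of_not_bad
    · intro f hf
      exact ⟨Set.univ, univ_mem, fun y hy => van_of_dvd hf hy.2.1⟩
  · push Not at hA
    obtain ⟨U₀, hU₀, hA⟩ := hA
    -- separate the points of `T` different from `x`
    set T' := {P ∈ T | ¬Eqv x (fun i a => σ (P i a))} with hT'
    have hT'f : T'.Finite := hT.subset fun P hP => hP.1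
    have hsep : ∀ P ∈ T', ∃ V ∈ nhds x, ∀ y, Pt c σ V y → ¬Eqv y P := by
      rintro P ⟨hPT, hPx⟩
      have : ∃ i, br (x i) (fun a => σ (P i a)) ≠ 0 := by
        by_contra hn
        push Not at hn
        apply hPx
        intro i
        have h1 := hn i
        rw [br_swap, neg_eq_zero] at h1
        exact (br_eq_zero_iff (map_ne σ ((hT1 P hPT).1 i)) (hx i)).1 h1
      obtain ⟨i, hi⟩ := this
      refine ⟨{w | br (w i) (fun a => σ (P i a)) ≠ 0}, ?_, ?_⟩
      · refine IsOpen.mem_nhds ?_ hi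
        exact isOpen_ne_fun (continuous_br (continuous_apply i) continuous_const)
          continuous_const
      · rintro y ⟨-, -, d, hd, hdy⟩ hyP
        obtain ⟨t, ht0, ht⟩ := hyP i
        apply hdy
        have e : (fun a => d i * σ (y i a)) = (d i * σ t) • fun a => σ (P i a) := by
          funext a
          rw [ht]
          simp only [Pi.smul_apply, smul_eq_mul, map_mul]
          ring
        change br (fun a => d i * σ (y i a)) (fun a => σ (P i a)) = 0
        rw [e, br_smul_left, br_self, mul_zero]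
    choose! V hV1 hV2 using hsep
    set U₁ := U₀ ∩ ⋂ P ∈ T', V P with hU₁
    have hU₁n : U₁ ∈ nhds x :=
      inter_mem hU₀ ((biInter_mem hT'f).2 hV1)
    have hall : ∀ y, Pt c σ U₁ y → ∃ P ∈ T, Eqv x (fun i a => σ (P i a)) ∧ Eqv y P := by
      intro y hy
      have h0 := hA y (hy.mono Set.inter_subset_left)
      obtain ⟨P, hPT, hyP⟩ := hT2 y hy.1 hy.2.1 h0.1 h0.2
      by_cases hPx : Eqv x (fun i a => σ (P i a))
      · exact ⟨P, hPT, hPx, hyP⟩
      · have hPT' : P ∈ T' := ⟨hPT, hPx⟩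
        exact absurd hyP (hV2 P hPT' y (hy.mono (Set.inter_subset_right.trans
          (Set.biInter_subset_of_mem hPT'))))
    by_cases hex : ∃ P ∈ T, Eqv x (fun i a => σ (P i a))
    · obtain ⟨P, hPT, hPx⟩ := hex
      right; right
      refine ⟨P, hPT, hPx, ?_⟩
      apply Set.Subset.antisymm
      · rintro f ⟨U, hU, hf⟩
        refine hf P ⟨(hT1 P hPT).1, (hT1 P hPT).2, ?_⟩
        choose d hd0 hd using hPx
        refine ⟨d, hd0, ?_⟩
        have e : (fun i a => d i * σ (P i a)) = x := by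
          funext i a
          rw [hd i, Pi.smul_apply, smul_eq_mul]
        rw [e]
        exact mem_of_mem_nhds hU
      · intro f hf
        refine ⟨U₁, hU₁n, fun y hy => ?_⟩
        obtain ⟨Q, hQT, hQx, hyQ⟩ := hall y hy
        refine Van.eqv hf fun i => ?_
        obtain ⟨a, ha0, ha⟩ := hPx i
        obtain ⟨b, hb0, hb⟩ := hQx i
        obtain ⟨t, ht0, ht⟩ := hyQ i
        have h1 : br (fun a => σ (P i a)) (fun a => σ (y i a)) = 0 := by
          have e1 : (fun a => σ (y i a)) = (σ t * b⁻¹ * a) • fun a => σ (P i a) := by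
            have e2 : (fun a => σ (Q i a)) = b⁻¹ • x i := by
              rw [hb, smul_smul, inv_mul_cancel₀ hb0, one_smul]
            have e3 : (fun a => σ (y i a)) = σ t • fun a => σ (Q i a) := by
              funext a
              rw [ht]
              simp only [Pi.smul_apply, smul_eq_mul, map_mul]
            rw [e3, e2, ha, smul_smul, smul_smul]
          rw [e1, br_smul_right, br_self, mul_zero]
        rw [br_map, map_eq_zero] at h1
        exact (br_eq_zero_iff ((hT1 P hPT).1 i) (hy.1 i)).1 h1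
    · left
      rw [Set.eq_univ_iff_forall]
      intro f
      refine ⟨U₁, hU₁n, fun y hy => ?_⟩
      obtain ⟨P, hPT, hPx, -⟩ := hall y hy
      exact absurd ⟨P, hPT, hPx⟩ hex

end place

end Pool.Agent.W279.Tri
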