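import Pool.Agent.W279.Tri.Dense

/-!
# Generic smoothness of the fibrations of a (2,2,2)-surface (helper279)
-/

set_option autoImplicit false

namespace Pool.Agent.W279.Tri

open Polynomial TensorProduct

/-- the derivation `d/dX` on an algebraic extension of the field of rational functions -/
theorem exists_derivation (A k Ω : Type*) [Field A] [CharZero A] [Field k] [Field Ω]
    [Algebra A k] [Algebra A[X] k] [IsScalarTower A A[X] k] [IsFractionRing A[X] k]
    [Algebra A Ω] [Algebra A[X] Ω] [Algebra k Ω] [IsScalarTower A A[X] Ω]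
    [IsScalarTower A k Ω] [IsScalarTower A[X] k Ω] [Algebra.IsAlgebraic k Ω] :
    ∃ D : Derivation A Ω Ω, D (algebraMap A[X] Ω X) = 1 := by
  have : CharZero k := charZero_of_injective_algebraMap (algebraMap A k).injective
  have : Algebra.FormallyEtale A[X] k :=
    Algebra.FormallyEtale.of_isLocalization (nonZeroDivisors A[X])
  have : Algebra.IsSeparable k Ω := inferInstance
  have : Algebra.FormallyEtale k Ω := Algebra.FormallyEtale.of_isSeparable k Ω
  have : Algebra.FormallyEtale A[X] Ω := Algebra.FormallyEtale.comp A[X] k Ω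
  let D0 : Derivation A A[X] Ω := (Polynomial.mkDerivation A (1 : Ω))
  let l : Ω ⊗[A[X]] Ω[A[X]⁄A] →ₗ[Ω] Ω := D0.liftKaehlerDifferential.liftBaseChange Ω
  let m : Ω[Ω⁄A] →ₗ[Ω] Ω :=
    l ∘ₗ (KaehlerDifferential.tensorKaehlerEquivOfFormallyEtale A A[X] Ω).symm.toLinearMap
  refine ⟨m.compDer (KaehlerDifferential.D A Ω), ?_⟩
  change l ((KaehlerDifferential.tensorKaehlerEquivOfFormallyEtale A A[X] Ω).symm
    (KaehlerDifferential.D A Ω (algebraMap A[X] Ω X))) = 1
  rw [KaehlerDifferential.tensorKaehlerEquivOfFormallyEtale_symm_D_algebraMap]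
  simp [l, D0]

section ring

variable {R : Type*} [CommRing R]

/-- the trilinear expression -/
def T3 (c : Fin 3 → Fin 3 → Fin 3 → R) (p q r : Fin 3 → R) : R :=
  ∑ i, ∑ j, ∑ k, c i j k * (p i * (q j * r k))

lemma E_eq_T3 (c : Fin 3 → Fin 3 → Fin 3 → R) (x y z : Fin 2 → R) :
    E c x y z = T3 c (mon x) (mon y) (mon z) := E_expand c x y z

lemma Gd_fib (c : Fin 3 → Fin 3 → Fin 3 → R) (x : Fin 2 → R) (q r : Fin 3 → R) :
    Gd (fib c x) q r = T3 c (mon x) q r := by
  simp only [Gd, fib, T3, Finset.sum_mul]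
  conv_rhs => rw [Finset.sum_comm]
  refine Finset.sum_congr rfl fun j _ => ?_
  conv_rhs => rw [Finset.sum_comm]
  refine Finset.sum_congr rfl fun k _ => Finset.sum_congr rfl fun i _ => ?_
  ring

/-- singular points of the surface -/
def SingX (c : Fin 3 → Fin 3 → Fin 3 → R) (x y z : Fin 2 → R) : Prop :=
  (∀ a, T3 c (dmon a x) (mon y) (mon z) = 0) ∧ (∀ a, T3 c (mon x) (dmon a y) (mon z) = 0) ∧
    ∀ a, T3 c (mon x) (mon y) (dmon a z) = 0

lemma euler1 (c : Fin 3 → Fin 3 → Fin 3 → R) (x : Fin 2 → R) (q r : Fin 3 → R) :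
    ∑ a, x a * T3 c (dmon a x) q r = 2 * T3 c (mon x) q r := by
  simp only [T3, Finset.mul_sum]
  rw [Finset.sum_comm]
  refine Finset.sum_congr rfl fun i _ => ?_
  rw [Finset.sum_comm]
  refine Finset.sum_congr rfl fun j _ => ?_
  rw [Finset.sum_comm]
  refine Finset.sum_congr rfl fun k _ => ?_
  rw [Fin.sum_univ_two]
  fin_cases i <;> simp [dmon, mon] <;> ring

lemma euler2 (c : Fin 3 → Fin 3 → Fin 3 → R) (x : Fin 2 → R) (p r : Fin 3 → R) :
    ∑ a, x a * T3 c p (dmon a x) r = 2 * T3 c p (mon x) r := by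
  simp only [T3, Finset.mul_sum]
  rw [Finset.sum_comm]
  refine Finset.sum_congr rfl fun i _ => ?_
  rw [Finset.sum_comm]
  refine Finset.sum_congr rfl fun j _ => ?_
  rw [Finset.sum_comm]
  refine Finset.sum_congr rfl fun k _ => ?_
  rw [Fin.sum_univ_two]
  fin_cases j <;> simp [dmon, mon] <;> ring

lemma T3_lin1 (c : Fin 3 → Fin 3 → Fin 3 → R) (p : Fin 2 → Fin 3 → R) (d : Fin 2 → R)
    (q r : Fin 3 → R) : T3 c (fun i => ∑ a, d a * p a i) q r = ∑ a, d a * T3 c (p a) q r := by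
  simp only [T3, Finset.mul_sum, Finset.sum_mul]
  conv_rhs => rw [Finset.sum_comm]
  refine Finset.sum_congr rfl fun i _ => ?_
  conv_rhs => rw [Finset.sum_comm]
  refine Finset.sum_congr rfl fun j _ => ?_
  conv_rhs => rw [Finset.sum_comm]
  refine Finset.sum_congr rfl fun k _ => Finset.sum_congr rfl fun a _ => ?_
  ring

lemma T3_lin2 (c : Fin 3 → Fin 3 → Fin 3 → R) (p : Fin 2 → Fin 3 → R) (d : Fin 2 → R)
    (q r : Fin 3 → R) : T3 c q (fun i => ∑ a, d a * p a i) r = ∑ a, d a * T3 c q (p a) r := by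
  simp only [T3, Finset.mul_sum, Finset.sum_mul]
  conv_rhs => rw [Finset.sum_comm]
  refine Finset.sum_congr rfl fun i _ => ?_
  conv_rhs => rw [Finset.sum_comm]
  refine Finset.sum_congr rfl fun j _ => ?_
  conv_rhs => rw [Finset.sum_comm]
  refine Finset.sum_congr rfl fun k _ => Finset.sum_congr rfl fun a _ => ?_
  ring

lemma T3_lin3 (c : Fin 3 → Fin 3 → Fin 3 → R) (p : Fin 2 → Fin 3 → R) (d : Fin 2 → R)
    (q r : Fin 3 → R) : T3 c q r (fun i => ∑ a, d a * p a i) = ∑ a, d a * T3 c q r (p a) := by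
  simp only [T3, Finset.mul_sum]
  conv_rhs => rw [Finset.sum_comm]
  refine Finset.sum_congr rfl fun i _ => ?_
  conv_rhs => rw [Finset.sum_comm]
  refine Finset.sum_congr rfl fun j _ => ?_
  conv_rhs => rw [Finset.sum_comm]
  refine Finset.sum_congr rfl fun k _ => Finset.sum_congr rfl fun a _ => ?_
  ring

lemma T3_map {S : Type*} [CommRing S] (φ : R →+* S) (c : Fin 3 → Fin 3 → Fin 3 → R)
    (p q r : Fin 3 → R) :
    T3 (fun i j k => φ (c i j k)) (fun j => φ (p j)) (fun j => φ (q j)) (fun j => φ (r j)) =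
      φ (T3 c p q r) := by
  simp only [T3, map_sum, map_mul]

end ring

section derivation

variable {A Ω : Type*} [Field A] [Field Ω] [Algebra A Ω]

lemma D_mon (D : Derivation A Ω Ω) (x : Fin 2 → Ω) (i : Fin 3) :
    D (mon x i) = ∑ a, D (x a) * dmon a x i := by
  rw [Fin.sum_univ_two]
  fin_cases i
  · simp [mon, dmon]; ring
  · simp [mon, dmon]; ring
  · simp [mon, dmon]; ring

lemma D_T3 (D : Derivation A Ω Ω) (c : Fin 3 → Fin 3 → Fin 3 → A) (p q r : Fin 3 → Ω) :
    D (T3 (fun i j k => algebraMap A Ω (c i j k)) p q r) =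
      T3 (fun i j k => algebraMap A Ω (c i j k)) (fun i => D (p i)) q r +
      T3 (fun i j k => algebraMap A Ω (c i j k)) p (fun i => D (q i)) r +
      T3 (fun i j k => algebraMap A Ω (c i j k)) p q (fun i => D (r i)) := by
  simp only [T3, map_sum, ← Finset.sum_add_distrib]
  refine Finset.sum_congr rfl fun i _ => Finset.sum_congr rfl fun j _ =>
    Finset.sum_congr rfl fun k _ => ?_
  simp only [Derivation.leibniz, Derivation.map_algebraMap, smul_eq_mul]
  ring

/-- a singular point of the generic fibre is a singular point of the surface -/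
lemma singX_of_sing [CharZero Ω] {c : Fin 3 → Fin 3 → Fin 3 → A} (D : Derivation A Ω Ω) {ξ : Ω}
    (hξ : D ξ = 1) {u v : Fin 2 → Ω}
    (h : Sing (fib (fun i j k => algebraMap A Ω (c i j k)) ![ξ, 1]) u v) :
    SingX (fun i j k => algebraMap A Ω (c i j k)) ![ξ, 1] u v := by
  set c' : Fin 3 → Fin 3 → Fin 3 → Ω := fun i j k => algebraMap A Ω (c i j k) with hc'
  obtain ⟨h1, h2⟩ := h
  simp only [Gd_fib] at h1 h2
  have hE : T3 c' (mon ![ξ, 1]) (mon u) (mon v) = 0 := by
    have := euler2 c' u (mon ![ξ, 1]) (mon v)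
    simp only [h1, mul_zero, Finset.sum_const_zero] at this
    exact (mul_eq_zero.1 this.symm).resolve_left two_ne_zero
  have hD := D_T3 D c (mon ![ξ, 1]) (mon u) (mon v)
  rw [← hc', hE, map_zero] at hD
  simp only [D_mon] at hD
  rw [T3_lin1, T3_lin2, T3_lin3] at hD
  simp only [h1, h2, mul_zero, Finset.sum_const_zero, add_zero, Fin.sum_univ_two] at hD
  have e0 : D ((![ξ, 1] : Fin 2 → Ω) 0) = 1 := hξ
  have e1 : D ((![ξ, 1] : Fin 2 → Ω) 1) = 0 := D.map_one_eq_zero
  rw [e0, e1, one_mul, zero_mul, add_zero] at hD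
  have hEu := euler1 c' ![ξ, 1] (mon u) (mon v)
  rw [hE, Fin.sum_univ_two, ← hD, mul_zero, zero_add, mul_zero] at hEu
  have e2 : (![ξ, 1] : Fin 2 → Ω) 1 = 1 := rfl
  rw [e2, one_mul] at hEu
  refine ⟨fun a => ?_, h1, h2⟩
  fin_cases a
  · exact hD.symm
  · exact hEu

end derivation

end Pool.Agent.W279.Tri
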