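import Pool.Agent.W279.Tri.Br

/-!
# Heights of the coefficients of a (2,2,2)-form (helper279)
-/

set_option autoImplicit false

namespace Pool.Agent.W279.Tri

open MvPolynomial Height

section ring

variable {R : Type*} [CommRing R]

/-- the three monomials of degree two -/
def mon (x : Fin 2 → R) (i : Fin 3) : R := ![x 0 ^ 2, x 0 * x 1, x 1 ^ 2] i

/-- the coefficient of the `i`-th monomial in the first variable -/
def coef (c : Fin 3 → Fin 3 → Fin 3 → R) (i : Fin 3) (y z : Fin 2 → R) : R :=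
  ∑ j, ∑ k, c i j k * (mon y j * mon z k)

/-- the value of the (2,2,2)-form -/
def E (c : Fin 3 → Fin 3 → Fin 3 → R) (x y z : Fin 2 → R) : R := ∑ i, mon x i * coef c i y z

lemma E_eq_qf (c : Fin 3 → Fin 3 → Fin 3 → R) (x y z : Fin 2 → R) :
    E c x y z = qf (coef c 0 y z) (coef c 1 y z) (coef c 2 y z) x := by
  simp only [E, qf, mon, Fin.sum_univ_three, Matrix.cons_val_zero, Matrix.cons_val_one,
    Matrix.cons_val]
  ring

/-- products of two of the `w_{ab} = y_a z_b` -/
def mm (w : Fin 2 × Fin 2 → R) (j k : Fin 3) : R :=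
  ![![w (0, 0) ^ 2, w (0, 0) * w (0, 1), w (0, 1) ^ 2],
    ![w (0, 0) * w (1, 0), w (0, 0) * w (1, 1), w (0, 1) * w (1, 1)],
    ![w (1, 0) ^ 2, w (1, 0) * w (1, 1), w (1, 1) ^ 2]] j k

lemma mm_segre (y z : Fin 2 → R) (j k : Fin 3) :
    mm (fun a => y a.1 * z a.2) j k = mon y j * mon z k := by
  fin_cases j <;> fin_cases k <;> simp [mm, mon] <;> ring

end ring

lemma homComp_mul {σ R : Type*} [CommRing R] {m : ℕ} {P : MvPolynomial σ R}
    (hP : P.IsHomogeneous m) (H : MvPolynomial σ R) (n : ℕ) :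
    homogeneousComponent (n + m) (H * P) = homogeneousComponent n H * P := by
  classical
  conv_lhs => rw [← sum_homogeneousComponent H, Finset.sum_mul, map_sum]
  have h1 : ∀ i ∈ Finset.range (H.totalDegree + 1),
      homogeneousComponent (n + m) (homogeneousComponent i H * P) =
        if i = n then homogeneousComponent n H * P else 0 := by
    intro i _
    have h2 : homogeneousComponent i H * P ∈ homogeneousSubmodule σ R (i + m) :=
      (homogeneousComponent_isHomogeneous i H).mul hP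
    rw [homogeneousComponent_of_mem h2]
    by_cases h : i = n
    · simp [h]
    · rw [if_neg (by omega), if_neg h]
  rw [Finset.sum_congr rfl h1, Finset.sum_ite_eq']
  split_ifs with h
  · rfl
  · rw [Finset.mem_range, not_lt] at h
    rw [homogeneousComponent_eq_zero n H (by omega), zero_mul]

section field

variable {K : Type*} [Field K]

/-- the quadratic polynomials in the Segre coordinates -/
noncomputable def Pp (c : Fin 3 → Fin 3 → Fin 3 → K) (i : Fin 3) : MvPolynomial (Fin 2 × Fin 2) K :=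
  ∑ j, ∑ k, C (c i j k) * mm (fun a => (X a : MvPolynomial (Fin 2 × Fin 2) K)) j k

lemma mm_hom (j k : Fin 3) :
    (mm (fun a => (X a : MvPolynomial (Fin 2 × Fin 2) K)) j k).IsHomogeneous 2 := by
  fin_cases j <;> fin_cases k <;> simp only [mm] <;>
    first
    | exact (isHomogeneous_X_pow _ _)
    | exact (isHomogeneous_X K _).mul (isHomogeneous_X K _)

lemma Pp_hom (c : Fin 3 → Fin 3 → Fin 3 → K) (i : Fin 3) : (Pp c i).IsHomogeneous 2 := by
  unfold Pp
  refine IsHomogeneous.sum _ _ _ fun j _ => IsHomogeneous.sum _ _ _ fun k _ => ?_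
  have := (isHomogeneous_C (Fin 2 × Fin 2) (c i j k)).mul (mm_hom (K := K) j k)
  simpa using this

lemma aeval_Pp {A : Type*} [CommRing A] [Algebra K A] (c : Fin 3 → Fin 3 → Fin 3 → K) (i : Fin 3)
    (w : Fin 2 × Fin 2 → A) :
    aeval w (Pp c i) = ∑ j, ∑ k, algebraMap K A (c i j k) * mm w j k := by
  unfold Pp
  rw [map_sum]
  refine Finset.sum_congr rfl fun j _ => ?_
  rw [map_sum]
  refine Finset.sum_congr rfl fun k _ => ?_
  rw [map_mul, aeval_C]
  congr 1
  fin_cases j <;> fin_cases k <;> simp [mm]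

lemma aeval_Pp_segre {A : Type*} [CommRing A] [Algebra K A] (c : Fin 3 → Fin 3 → Fin 3 → K)
    (i : Fin 3) (y z : Fin 2 → A) :
    aeval (fun a : Fin 2 × Fin 2 => y a.1 * z a.2) (Pp c i) =
      coef (fun i j k => algebraMap K A (c i j k)) i y z := by
  rw [aeval_Pp]
  simp only [mm_segre, coef]

/-- a nonzero matrix with determinant zero has rank one -/
lemma exists_segre {A : Type*} [Field A] {w : Fin 2 × Fin 2 → A} (hw : w ≠ 0)
    (hS : w (0, 0) * w (1, 1) = w (0, 1) * w (1, 0)) :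
    ∃ y z : Fin 2 → A, y ≠ 0 ∧ z ≠ 0 ∧ w = fun a => y a.1 * z a.2 := by
  obtain ⟨⟨a, b⟩, hab⟩ : ∃ p, w p ≠ 0 := by
    by_contra h
    push Not at h
    exact hw (funext h)
  have key : ∀ i j, w (i, b) * w (a, j) = w (a, b) * w (i, j) := by
    intro i j
    fin_cases a <;> fin_cases b <;> fin_cases i <;> fin_cases j <;>
      simp only [Fin.zero_eta, Fin.mk_one, Fin.isValue] <;>
      first
      | ring1
      | linear_combination hS
      | linear_combination -hS
  refine ⟨fun i => w (i, b), fun j => w (a, j) / w (a, b), ?_, ?_, ?_⟩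
  · intro h
    exact hab (congrFun h a)
  · intro h
    have := congrFun h b
    simp [hab] at this
  · ext ⟨i, j⟩
    simp only
    rw [mul_div_assoc', key i j, mul_div_cancel_left₀ _ hab]

/-- The Nullstellensatz for the three coefficients. -/
lemma exists_null (c : Fin 3 → Fin 3 → Fin 3 → K)
    (hc : ∀ y z : Fin 2 → AlgebraicClosure K, y ≠ 0 → z ≠ 0 →
      ∃ i, coef (fun i j k => algebraMap K (AlgebraicClosure K) (c i j k)) i y z ≠ 0) :
    ∃ (M : ℕ) (q : (Fin 2 × Fin 2) × Fin 3 → MvPolynomial (Fin 2 × Fin 2) K),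
      (∀ a, (q a).IsHomogeneous M) ∧ ∀ y z : Fin 2 → K, ∀ k : Fin 2 × Fin 2,
        ∑ j, eval (fun a : Fin 2 × Fin 2 => y a.1 * z a.2) (q (k, j)) *
          eval (fun a : Fin 2 × Fin 2 => y a.1 * z a.2) (Pp c j) = (y k.1 * z k.2) ^ (M + 2) := by
  classical
  set S : MvPolynomial (Fin 2 × Fin 2) K := X (0, 0) * X (1, 1) - X (0, 1) * X (1, 0) with hS
  set gen : Option (Fin 3) → MvPolynomial (Fin 2 × Fin 2) K :=
    fun o => o.elim S (Pp c) with hgen
  set I : Ideal (MvPolynomial (Fin 2 × Fin 2) K) := Ideal.span (Set.range gen) with hI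
  have hzero : ∀ w ∈ zeroLocus (AlgebraicClosure K) I, w = 0 := by
    intro w hw
    by_contra hne
    have h1 : aeval w S = 0 := hw _ (Ideal.subset_span ⟨none, rfl⟩)
    have h2 : ∀ i, aeval w (Pp c i) = 0 := fun i => hw _ (Ideal.subset_span ⟨some i, rfl⟩)
    obtain ⟨y, z, hy, hz, rfl⟩ := exists_segre hne (by
      rw [hS] at h1
      simp only [map_sub, map_mul, aeval_X] at h1
      exact sub_eq_zero.1 h1)
    obtain ⟨i, hi⟩ := hc y z hy hz
    exact hi (by rw [← aeval_Pp_segre]; exact h2 i)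
  have hrad : ∀ k, ∃ n : ℕ, (X k : MvPolynomial (Fin 2 × Fin 2) K) ^ n ∈ I := by
    intro k
    have h1 : (X k : MvPolynomial (Fin 2 × Fin 2) K) ∈
        vanishingIdeal K (zeroLocus (AlgebraicClosure K) I) := by
      intro w hw
      rw [hzero w hw, aeval_X]
      rfl
    rw [vanishingIdeal_zeroLocus_eq_radical] at h1
    exact h1
  choose n hn using hrad
  set N := ∑ k, n k with hN
  have hNk : ∀ k, (X k : MvPolynomial (Fin 2 × Fin 2) K) ^ (N + 2) ∈ I := by
    intro k
    have h1 : n k ≤ N + 2 := (Finset.single_le_sum (f := n) (fun i _ => Nat.zero_le _)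
      (Finset.mem_univ k)).trans (by omega)
    obtain ⟨m, hm⟩ := Nat.exists_eq_add_of_le h1
    rw [hm, pow_add]
    exact I.mul_mem_right _ (hn k)
  have hrep : ∀ k, ∃ H : Option (Fin 3) → MvPolynomial (Fin 2 × Fin 2) K,
      ∑ o, H o * gen o = X k ^ (N + 2) := by
    intro k
    have h1 := hNk k
    rw [hI] at h1
    obtain ⟨H, hH⟩ := (Ideal.mem_span_range_iff_exists_fun).1 h1
    exact ⟨H, hH⟩
  choose H hH using hrep
  have hgenhom : ∀ o, (gen o).IsHomogeneous 2 := by
    intro o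
    cases o with
    | none =>
      exact ((isHomogeneous_X K _).mul (isHomogeneous_X K _)).sub
        ((isHomogeneous_X K _).mul (isHomogeneous_X K _))
    | some i => exact Pp_hom c i
  refine ⟨N, fun p => homogeneousComponent N (H p.1 (some p.2)), fun a =>
    homogeneousComponent_isHomogeneous _ _, ?_⟩
  intro y z k
  have h1 := congrArg (homogeneousComponent (N + 2)) (hH k)
  rw [map_sum] at h1
  simp only [homComp_mul (hgenhom _)] at h1
  rw [homogeneousComponent_of_mem (m := N + 2) (isHomogeneous_X_pow k (N + 2)), if_pos rfl] at h1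
  have h2 := congrArg (eval (fun a : Fin 2 × Fin 2 => y a.1 * z a.2)) h1
  rw [map_sum, Fintype.sum_option] at h2
  simp only [map_mul, map_pow, eval_X] at h2
  have h3 : eval (fun a : Fin 2 × Fin 2 => y a.1 * z a.2) (gen none) = 0 := by
    change eval _ S = 0
    rw [hS]
    simp only [map_sub, map_mul, eval_X]
    ring
  rw [h3, mul_zero, zero_add] at h2
  exact h2

variable [AdmissibleAbsValues K]

/-- The height of the triple of coefficients. -/
theorem height_coef (c : Fin 3 → Fin 3 → Fin 3 → K)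
    (hc : ∀ y z : Fin 2 → AlgebraicClosure K, y ≠ 0 → z ≠ 0 →
      ∃ i, coef (fun i j k => algebraMap K (AlgebraicClosure K) (c i j k)) i y z ≠ 0) :
    ∃ C₀ : ℝ, ∀ y z : Fin 2 → K, y ≠ 0 → z ≠ 0 →
      C₀ + 2 * (logHeight y + logHeight z) ≤ logHeight (fun i => coef c i y z) := by
  obtain ⟨M, q, hq, h⟩ := exists_null c hc
  obtain ⟨C₀, hC₀⟩ := logHeight_eval_ge' (M := M) (N := 2) hq
  refine ⟨C₀, fun y z hy hz => ?_⟩
  have h1 := hC₀ (Pp c) (x := fun a : Fin 2 × Fin 2 => y a.1 * z a.2) (h y z)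
  rw [logHeight_fun_mul_eq hy hz] at h1
  have h2 : (fun j => eval (fun a : Fin 2 × Fin 2 => y a.1 * z a.2) (Pp c j)) =
      fun i => coef c i y z := by
    funext i
    have := aeval_Pp_segre (A := K) c i y z
    have e : aeval (fun a : Fin 2 × Fin 2 => y a.1 * z a.2) (Pp c i) =
        eval (fun a : Fin 2 × Fin 2 => y a.1 * z a.2) (Pp c i) := by
      rw [← coe_aeval_eq_eval]
      rfl
    rw [← e, this]
    rfl
  rw [h2] at h1
  exact_mod_cast h1

omit [AdmissibleAbsValues K] in
lemma vec_ne {y : Fin 2 → K} (hy : y ≠ 0) : ![y 1, -y 0] ≠ 0 := by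
  intro h
  apply hy
  have h0 := congrFun h 0
  have h1 := congrFun h 1
  simp at h0 h1
  ext i; fin_cases i <;> simp [h0, h1]

lemma logHeight_vec (y : Fin 2 → K) : logHeight ![y 1, -y 0] = logHeight y := by
  rcases eq_or_ne y 0 with rfl | hy
  · simp [show (![0, 0] : Fin 2 → K) = 0 by ext i; fin_cases i <;> rfl]
  have hne : (1 : K) ≠ 0 := one_ne_zero
  have h1 : logHeight ![y 1, -y 0] = logHeight ![-y 0, y 1] := logHeight_swap _ _
  rw [h1]
  rw [logHeight_eq_log_mulHeight, logHeight_eq_log_mulHeight]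
  congr 1
  have hy' : (![-y 0, y 1] : Fin 2 → K) ≠ 0 := by
    intro h
    apply hy
    have h0 := congrFun h 0
    have h1 := congrFun h 1
    simp at h0 h1
    ext i; fin_cases i <;> simp [h0, h1]
  rw [mulHeight_eq hy, mulHeight_eq hy']
  have key : ∀ v : AbsoluteValue K ℝ, (⨆ i, v ((![-y 0, y 1] : Fin 2 → K) i)) = ⨆ i, v (y i) := by
    intro v
    congr 1
    ext i
    fin_cases i <;> simp
  simp only [key]

/-- The height inequality for the two roots in the first variable. -/
theorem height_roots (c : Fin 3 → Fin 3 → Fin 3 → K)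
    (hc : ∀ y z : Fin 2 → AlgebraicClosure K, y ≠ 0 → z ≠ 0 →
      ∃ i, coef (fun i j k => algebraMap K (AlgebraicClosure K) (c i j k)) i y z ≠ 0) :
    ∃ C₀ : ℝ, ∀ x x' y z : Fin 2 → K, x ≠ 0 → x' ≠ 0 → y ≠ 0 → z ≠ 0 →
      (coef c 0 y z = x 1 * x' 1 ∧ coef c 1 y z = -(x 1 * x' 0 + x 0 * x' 1) ∧
        coef c 2 y z = x 0 * x' 0) →
      2 * (logHeight y + logHeight z) ≤ C₀ + (logHeight x + logHeight x') := by
  obtain ⟨C₁, h1⟩ := height_coef c hc
  obtain ⟨C₂, h2⟩ := logHeight_sym2_le K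
  refine ⟨C₂ - C₁, fun x x' y z hx hx' hy hz h => ?_⟩
  have h3 := h1 y z hy hz
  have h4 := h2 (x 1) (-x 0) (x' 1) (-x' 0)
  have h5 : (![x 1 * x' 1, x 1 * -x' 0 + -x 0 * x' 1, -x 0 * -x' 0] : Fin 3 → K) =
      fun i => coef c i y z := by
    ext i
    fin_cases i
    · simp [h.1]
    · simp [h.2.1]; ring
    · simp [h.2.2]
  rw [h5, logHeight_vec, logHeight_vec] at h4
  linarith

end field

end Pool.Agent.W279.Tri
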