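import Pool.Agent.W279.Tri.Rec

/-!
# Zigzag orbits on curves of bidegree (2,2) (helper279)
-/

set_option autoImplicit false

namespace Pool.Agent.W279.Tri

open Height

section ring

variable {R : Type*} [CommRing R]

/-- the coefficients of the quadratic form in the first variable -/
def lf (g : Fin 3 → Fin 3 → R) (v : Fin 2 → R) (j : Fin 3) : R := ∑ k, g j k * mon v k

/-- the coefficients of the product of two brackets -/
def pr (u u' : Fin 2 → R) (j : Fin 3) : R :=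
  ![u 1 * u' 1, -(u 1 * u' 0 + u 0 * u' 1), u 0 * u' 0] j

lemma G_eq_lf (g : Fin 3 → Fin 3 → R) (w v : Fin 2 → R) :
    G g w v = qf (lf g v 0) (lf g v 1) (lf g v 2) w := by
  simp only [G, lf, qf, mon, Fin.sum_univ_three, Matrix.cons_val_zero, Matrix.cons_val_one,
    Matrix.cons_val]
  ring

lemma G_of_pr {g : Fin 3 → Fin 3 → R} {v u u' : Fin 2 → R} (h : ∀ j, lf g v j = pr u u' j)
    (w : Fin 2 → R) : G g w v = br w u * br w u' := by
  rw [G_eq_lf, h, h, h]
  simp only [pr, qf, br, Matrix.cons_val_zero, Matrix.cons_val_one, Matrix.cons_val]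
  ring

lemma mon_map {S : Type*} [CommRing S] (φ : R →+* S) (v : Fin 2 → R) (j : Fin 3) :
    mon (fun a => φ (v a)) j = φ (mon v j) := by
  fin_cases j <;> simp [mon]

lemma lf_map {S : Type*} [CommRing S] (φ : R →+* S) (g : Fin 3 → Fin 3 → R) (v : Fin 2 → R)
    (j : Fin 3) : lf (fun j k => φ (g j k)) (fun a => φ (v a)) j = φ (lf g v j) := by
  simp only [lf, mon_map, map_sum, map_mul]

lemma pr_map {S : Type*} [CommRing S] (φ : R →+* S) (u u' : Fin 2 → R)
    (j : Fin 3) : pr (fun a => φ (u a)) (fun a => φ (u' a)) j = φ (pr u u' j) := by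
  fin_cases j <;> simp [pr]

lemma G_map {S : Type*} [CommRing S] (φ : R →+* S) (g : Fin 3 → Fin 3 → R) (u v : Fin 2 → R) :
    G (fun j k => φ (g j k)) (fun a => φ (u a)) (fun a => φ (v a)) = φ (G g u v) := by
  simp only [G, mon_map, map_sum, map_mul]

end ring

variable {K : Type*} [Field K]

/-- a zigzag orbit -/
structure Orb (g : Fin 3 → Fin 3 → K) (U V : ℕ → Fin 2 → K) : Prop where
  hU : ∀ n, U n ≠ 0
  hV : ∀ n, V n ≠ 0
  hu : ∀ n j, lf g (V n) j = pr (U n) (U (n + 1)) j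
  hv : ∀ n k, lf (fun j k => g k j) (U (n + 1)) k = pr (V n) (V (n + 1)) k
  hdu : ∀ n m, n ≠ m → br (U n) (U m) ≠ 0
  hdv : ∀ n m, n ≠ m → br (V n) (V m) ≠ 0

lemma Orb.G_eq_zero {g : Fin 3 → Fin 3 → K} {U V : ℕ → Fin 2 → K} (h : Orb g U V) (n : ℕ) :
    G g (U n) (V n) = 0 := by
  rw [G_of_pr (h.hu n), br_self, zero_mul]

/-- smoothness of the curve over `L` -/
def Sm {L : Type*} [CommRing L] (g : Fin 3 → Fin 3 → L) : Prop :=
  ∀ ξ η : Fin 2 → L, ξ ≠ 0 → η ≠ 0 → G g ξ η = 0 →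
    (∃ e, Pv g ξ η e ≠ 0) ∨ (∃ e, Pv (fun j k => g k j) η ξ e ≠ 0)

lemma Sm.transpose {L : Type*} [CommRing L] {g : Fin 3 → Fin 3 → L} (h : Sm g) :
    Sm (fun j k => g k j) := by
  intro ξ η hξ hη h0
  rw [G_swap] at h0
  exact (h η ξ hη hξ h0).symm

theorem Orb.recurr {g : Fin 3 → Fin 3 → K} {U V : ℕ → Fin 2 → K} (h : Orb g U V)
    {L : Type*} [NontriviallyNormedField L] [ProperSpace L] (σ : K →+* L)
    (hsm : Sm (fun j k => σ (g j k))) {ε : ℝ} (hε : 0 < ε) (M : ℕ) :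
    ∃ m, M ≤ m ∧
      ‖br (fun a => σ (U 0 a)) (fun a => σ (U m a))‖ ≤
        ε * (‖(fun a => σ (U 0 a))‖ * ‖(fun a => σ (U m a))‖) ∧
      ‖br (fun a => σ (V 0 a)) (fun a => σ (V m a))‖ ≤
        ε * (‖(fun a => σ (V 0 a))‖ * ‖(fun a => σ (V m a))‖) := by
  have hne : ∀ w : Fin 2 → K, w ≠ 0 → (fun a => σ (w a)) ≠ 0 := by
    intro w hw h0
    apply hw
    funext a
    have := congrFun h0 a
    simpa using this
  refine recurrence (fun j k => σ (g j k)) (u := fun n a => σ (U n a)) (v := fun n a => σ (V n a))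
    (fun n => hne _ (h.hU n)) (fun n => hne _ (h.hV n)) ?_ ?_ ?_ ?_ hsm hε M
  · intro n w
    refine G_of_pr (fun j => ?_) w
    rw [lf_map, pr_map, h.hu n j]
  · intro n w
    rw [G_swap]
    refine G_of_pr (fun j => ?_) w
    rw [lf_map σ (fun j k => g k j), pr_map, h.hv n j]
  · intro n m hnm
    rw [br_map]
    exact (map_ne_zero σ).2 (h.hdu n m hnm)
  · intro n m hnm
    rw [br_map]
    exact (map_ne_zero σ).2 (h.hdv n m hnm)

/-- the other root -/
lemma exists_other {g : Fin 3 → Fin 3 → K} {u v : Fin 2 → K} (hu : u ≠ 0)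
    (hg : ∃ j, lf g v j ≠ 0) (h0 : G g u v = 0) :
    ∃ u' : Fin 2 → K, u' ≠ 0 ∧ ∀ j, lf g v j = pr u u' j := by
  rw [G_eq_lf] at h0
  obtain ⟨u', hu', hA, hB, hC⟩ := exists_root (A := lf g v 0) (B := lf g v 1) (C := lf g v 2)
    (by
      rintro ⟨h0, h1, h2⟩
      obtain ⟨j, hj⟩ := hg
      fin_cases j
      · exact hj h0
      · exact hj h1
      · exact hj h2) hu h0
  refine ⟨u', hu', fun j => ?_⟩
  fin_cases j
  · exact hA
  · exact hB
  · exact hC

variable [AdmissibleAbsValues K]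

lemma br_ne_of_height {u v : Fin 2 → K} (hu : u ≠ 0) (hv : v ≠ 0)
    (h : logHeight u ≠ logHeight v) : br u v ≠ 0 := by
  intro h0
  obtain ⟨c, hc, rfl⟩ := (br_eq_zero_iff hu hv).1 h0
  exact h (logHeight_smul_eq_logHeight u hc).symm

/-- existence of the orbit when the heights grow in the right direction -/
lemma exists_orb {g : Fin 3 → Fin 3 → K} {δ : ℝ} (hδ : 0 < δ)
    (h1 : ∀ v : Fin 2 → K, v ≠ 0 → ∃ j, lf g v j ≠ 0)
    (h2 : ∀ u : Fin 2 → K, u ≠ 0 → ∃ j, lf (fun j k => g k j) u j ≠ 0)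
    (hh1 : ∀ u u' v : Fin 2 → K, u ≠ 0 → u' ≠ 0 → v ≠ 0 → (∀ j, lf g v j = pr u u' j) →
      2 * logHeight v + δ ≤ logHeight u + logHeight u')
    (hh2 : ∀ v v' u : Fin 2 → K, v ≠ 0 → v' ≠ 0 → u ≠ 0 →
      (∀ j, lf (fun j k => g k j) u j = pr v v' j) →
      2 * logHeight u + δ ≤ logHeight v + logHeight v')
    {y z : Fin 2 → K} (hy : y ≠ 0) (hz : z ≠ 0) (h0 : G g y z = 0)
    (hyz : logHeight y ≤ logHeight z) :
    ∃ U V : ℕ → Fin 2 → K, Orb g U V ∧ U 0 = y ∧ V 0 = z := by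
  classical
  -- the states
  let St := {p : (Fin 2 → K) × (Fin 2 → K) // p.1 ≠ 0 ∧ p.2 ≠ 0 ∧ G g p.1 p.2 = 0}
  have hstep : ∀ p : St, ∃ q : St, (∀ j, lf g p.1.2 j = pr p.1.1 q.1.1 j) ∧
      ∀ k, lf (fun j k => g k j) q.1.1 k = pr p.1.2 q.1.2 k := by
    rintro ⟨⟨u, v⟩, hu, hv, h0⟩
    simp only at hu hv h0
    obtain ⟨u', hu', h3⟩ := exists_other hu (h1 v hv) h0
    have h4 : G g u' v = 0 := by
      rw [G_of_pr h3, br_self, mul_zero]
    obtain ⟨v', hv', h5⟩ := exists_other (g := fun j k => g k j) hv (h2 u' hu')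
      (by rw [← G_swap]; exact h4)
    have h6 : G g u' v' = 0 := by
      rw [G_swap, G_of_pr h5, br_self, mul_zero]
    exact ⟨⟨(u', v'), hu', hv', h6⟩, h3, h5⟩
  choose s hs1 hs2 using hstep
  let p0 : St := ⟨(y, z), hy, hz, h0⟩
  let P : ℕ → St := fun n => s^[n] p0
  have hP : ∀ n, P (n + 1) = s (P n) := fun n => Function.iterate_succ_apply' s n p0
  let U : ℕ → Fin 2 → K := fun n => (P n).1.1
  let V : ℕ → Fin 2 → K := fun n => (P n).1.2
  have hU : ∀ n, U n ≠ 0 := fun n => (P n).2.1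
  have hV : ∀ n, V n ≠ 0 := fun n => (P n).2.2.1
  have hu : ∀ n j, lf g (V n) j = pr (U n) (U (n + 1)) j := by
    intro n j
    change lf g (P n).1.2 j = pr (P n).1.1 (P (n + 1)).1.1 j
    rw [hP]
    exact hs1 (P n) j
  have hv : ∀ n k, lf (fun j k => g k j) (U (n + 1)) k = pr (V n) (V (n + 1)) k := by
    intro n k
    change lf _ (P (n + 1)).1.1 k = pr (P n).1.2 (P (n + 1)).1.2 k
    rw [hP]
    exact hs2 (P n) k
  have hle : ∀ n, logHeight (U n) ≤ logHeight (V n) := by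
    intro n
    induction n with
    | zero => exact hyz
    | succ n ih =>
      have a1 := hh1 _ _ _ (hU n) (hU (n + 1)) (hV n) (hu n)
      have a2 := hh2 _ _ _ (hV n) (hV (n + 1)) (hU (n + 1)) (hv n)
      linarith
  have hlt1 : ∀ n, logHeight (U n) < logHeight (U (n + 1)) := by
    intro n
    have a1 := hh1 _ _ _ (hU n) (hU (n + 1)) (hV n) (hu n)
    have := hle n
    linarith
  have hlt2 : ∀ n, logHeight (V n) < logHeight (V (n + 1)) := by
    intro n
    have a1 := hh1 _ _ _ (hU n) (hU (n + 1)) (hV n) (hu n)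
    have a2 := hh2 _ _ _ (hV n) (hV (n + 1)) (hU (n + 1)) (hv n)
    have := hle n
    linarith
  have hm1 : StrictMono fun n => logHeight (U n) := strictMono_nat_of_lt_succ hlt1
  have hm2 : StrictMono fun n => logHeight (V n) := strictMono_nat_of_lt_succ hlt2
  refine ⟨U, V, ⟨hU, hV, hu, hv, ?_, ?_⟩, rfl, rfl⟩
  · intro n m hnm
    exact br_ne_of_height (hU n) (hU m) fun h => hnm (hm1.injective h)
  · intro n m hnm
    exact br_ne_of_height (hV n) (hV m) fun h => hnm (hm2.injective h)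

end Pool.Agent.W279.Tri
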