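import Pool.Agent.W279.Tri.Ht

/-!
# Recurrence on curves of bidegree (2,2) over a locally compact field (helper279)
-/

set_option autoImplicit false

namespace Pool.Agent.W279.Tri

open Filter Topology

section ring

variable {R : Type*} [CommRing R]

/-- the value of a form of bidegree (2,2) -/
def G (g : Fin 3 → Fin 3 → R) (u v : Fin 2 → R) : R := ∑ j, ∑ k, g j k * (mon u j * mon v k)

/-- polar form in the second variable -/
def Pv (g : Fin 3 → Fin 3 → R) (u v e : Fin 2 → R) : R := G g u (v + e) - G g u v - G g u e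

lemma G_swap (g : Fin 3 → Fin 3 → R) (u v : Fin 2 → R) :
    G g u v = G (fun j k => g k j) v u := by
  unfold G
  rw [Finset.sum_comm]
  refine Finset.sum_congr rfl fun j _ => Finset.sum_congr rfl fun k _ => ?_
  ring

lemma G_smul_left (g : Fin 3 → Fin 3 → R) (c : R) (u v : Fin 2 → R) :
    G g (c • u) v = c ^ 2 * G g u v := by
  simp only [G, mon, Fin.sum_univ_three, Pi.smul_apply, smul_eq_mul, Matrix.cons_val_zero,
    Matrix.cons_val_one, Matrix.cons_val]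
  ring

lemma G_smul_right (g : Fin 3 → Fin 3 → R) (c : R) (u v : Fin 2 → R) :
    G g u (c • v) = c ^ 2 * G g u v := by
  rw [G_swap, G_smul_left, G_swap g]

lemma G_identity (g : Fin 3 → Fin 3 → R) (u v v' e : Fin 2 → R) :
    br e v ^ 2 * G g u v' = br e v' ^ 2 * G g u v + br e v' * br v' v * Pv g u v e +
      br v' v ^ 2 * G g u e := by
  simp only [Pv, G, mon, br, Fin.sum_univ_three, Pi.add_apply, Matrix.cons_val_zero,
    Matrix.cons_val_one, Matrix.cons_val]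
  ring

end ring

section analysis

variable {L : Type*} [NontriviallyNormedField L]

lemma continuous_mon (j : Fin 3) : Continuous fun u : Fin 2 → L => mon u j := by
  fin_cases j <;> simp only [mon] <;> fun_prop

lemma continuous_br {X : Type*} [TopologicalSpace X] {f h : X → Fin 2 → L} (hf : Continuous f)
    (hh : Continuous h) : Continuous fun x => br (f x) (h x) := by
  unfold br
  fun_prop

lemma continuous_G (g : Fin 3 → Fin 3 → L) {X : Type*} [TopologicalSpace X] {f h : X → Fin 2 → L}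
    (hf : Continuous f) (hh : Continuous h) : Continuous fun x => G g (f x) (h x) := by
  unfold G
  refine continuous_finsetSum _ fun j _ => continuous_finsetSum _ fun k _ => ?_
  exact continuous_const.mul (((continuous_mon j).comp hf).mul ((continuous_mon k).comp hh))

lemma continuous_Pv (g : Fin 3 → Fin 3 → L) {X : Type*} [TopologicalSpace X]
    {f h : X → Fin 2 → L} (e : Fin 2 → L)
    (hf : Continuous f) (hh : Continuous h) : Continuous fun x => Pv g (f x) (h x) e := by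
  unfold Pv
  exact ((continuous_G g hf (hh.add continuous_const)).sub (continuous_G g hf hh)).sub
    (continuous_G g hf continuous_const)

/-- lower bound near a point where the second partial derivative does not vanish -/
lemma lower (g : Fin 3 → Fin 3 → L) {ξ η e : Fin 2 → L} (hη : η ≠ 0) (h0 : G g ξ η = 0)
    (he : Pv g ξ η e ≠ 0) :
    ∃ δ : ℝ, 0 < δ ∧ ∀ᶠ p : (Fin 2 → L) × (Fin 2 → L) × (Fin 2 → L) in 𝓝 (ξ, η, η),
      G g p.1 p.2.1 = 0 → δ * ‖br p.2.2 p.2.1‖ ≤ ‖G g p.1 p.2.2‖ := by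
  have hbr : br e η ≠ 0 := by
    intro h
    apply he
    rcases eq_or_ne e 0 with rfl | he0
    · have : G g ξ 0 = 0 := by
        have := G_smul_right g 0 ξ 0
        rw [smul_zero] at this
        rw [this]; ring
      simp [Pv, this]
    · rw [br_swap, neg_eq_zero, br_eq_zero_iff hη he0] at h
      obtain ⟨c, -, rfl⟩ := h
      have e1 : η + c • η = (1 + c) • η := by rw [add_smul, one_smul]
      unfold Pv
      rw [e1, G_smul_right, G_smul_right, h0]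
      ring
  set Ψ : (Fin 2 → L) × (Fin 2 → L) × (Fin 2 → L) → L := fun p =>
    br e p.2.2 * Pv g p.1 p.2.1 e + br p.2.2 p.2.1 * G g p.1 e with hΨ
  have hΨc : Continuous Ψ := by
    rw [hΨ]
    exact ((continuous_br continuous_const (by fun_prop)).mul
      (continuous_Pv g e (by fun_prop) (by fun_prop))).add
      ((continuous_br (by fun_prop) (by fun_prop)).mul
        (continuous_G g (by fun_prop) continuous_const))
  have hΨ0 : Ψ (ξ, η, η) = br e η * Pv g ξ η e := by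
    simp [hΨ, br_self]
  have hne : Ψ (ξ, η, η) ≠ 0 := by rw [hΨ0]; exact mul_ne_zero hbr he
  have hb : 0 < ‖br e η‖ := norm_pos_iff.2 hbr
  have hp : 0 < ‖Ψ (ξ, η, η)‖ := norm_pos_iff.2 hne
  refine ⟨‖Ψ (ξ, η, η)‖ / (2 * ‖br e η‖ ^ 2), by positivity, ?_⟩
  have hbc : Continuous fun p : (Fin 2 → L) × (Fin 2 → L) × (Fin 2 → L) => br e p.2.1 :=
    continuous_br continuous_const (by fun_prop)
  have h1 : ∀ᶠ p : (Fin 2 → L) × (Fin 2 → L) × (Fin 2 → L) in 𝓝 (ξ, η, η),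
      ‖Ψ (ξ, η, η)‖ / (2 * ‖br e η‖ ^ 2) * ‖br e p.2.1‖ ^ 2 < ‖Ψ p‖ := by
    have hcc : Continuous fun p : (Fin 2 → L) × (Fin 2 → L) × (Fin 2 → L) =>
        ‖Ψ (ξ, η, η)‖ / (2 * ‖br e η‖ ^ 2) * ‖br e p.2.1‖ ^ 2 :=
      continuous_const.mul (hbc.norm.pow 2)
    refine hcc.continuousAt.eventually_lt hΨc.norm.continuousAt ?_
    have e3 : ‖Ψ (ξ, η, η)‖ / (2 * ‖br e η‖ ^ 2) * ‖br e η‖ ^ 2 = ‖Ψ (ξ, η, η)‖ / 2 := by
      field_simp
    change ‖Ψ (ξ, η, η)‖ / (2 * ‖br e η‖ ^ 2) * ‖br e η‖ ^ 2 < _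
    rw [e3]
    linarith
  have h2 : ∀ᶠ p : (Fin 2 → L) × (Fin 2 → L) × (Fin 2 → L) in 𝓝 (ξ, η, η), 0 < ‖br e p.2.1‖ :=
    continuousAt_const.eventually_lt hbc.norm.continuousAt hb
  filter_upwards [h1, h2] with p hp1 hp2 hp0
  have h3 := G_identity g p.1 p.2.1 p.2.2 e
  rw [hp0, mul_zero, zero_add] at h3
  have h4 : ‖br e p.2.1‖ ^ 2 * ‖G g p.1 p.2.2‖ = ‖br p.2.2 p.2.1‖ * ‖Ψ p‖ := by
    rw [← norm_pow, ← norm_mul, h3, ← norm_mul]
    congr 1
    simp only [hΨ]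
    ring
  have h5 : ‖br e p.2.1‖ ^ 2 * (‖Ψ (ξ, η, η)‖ / (2 * ‖br e η‖ ^ 2) * ‖br p.2.2 p.2.1‖) ≤
      ‖br e p.2.1‖ ^ 2 * ‖G g p.1 p.2.2‖ := by
    rw [h4]
    calc _ = ‖br p.2.2 p.2.1‖ * (‖Ψ (ξ, η, η)‖ / (2 * ‖br e η‖ ^ 2) * ‖br e p.2.1‖ ^ 2) := by ring
      _ ≤ _ := by gcongr
  exact le_of_mul_le_mul_left h5 (by positivity)

lemma exists_coord {v : Fin 2 → L} (hv : ‖v‖ = 1) : ‖v 0‖ = 1 ∨ ‖v 1‖ = 1 := by
  have h0 := norm_le_pi_norm v 0
  have h1 := norm_le_pi_norm v 1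
  by_contra h
  push Not at h
  have : ‖v‖ < 1 := by
    rw [pi_norm_lt_iff one_pos]
    intro i
    fin_cases i
    · exact lt_of_le_of_ne (by rw [← hv]; exact h0) h.1
    · exact lt_of_le_of_ne (by rw [← hv]; exact h1) h.2
  linarith

/-- upper bound -/
lemma upper [ProperSpace L] (g : Fin 3 → Fin 3 → L) :
    ∃ C : ℝ, 0 ≤ C ∧ ∀ u v v' : Fin 2 → L, ‖u‖ = 1 → ‖v‖ = 1 → ‖v'‖ = 1 → G g u v = 0 →
      ‖G g u v'‖ ≤ C * ‖br v' v‖ := by
  have key : ∀ e : Fin 2 → L, ∃ C : ℝ, ∀ u v v' : Fin 2 → L, ‖u‖ = 1 → ‖v‖ = 1 → ‖v'‖ = 1 →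
      ‖br e v' * Pv g u v e + br v' v * G g u e‖ ≤ C := by
    intro e
    have hc : Continuous fun p : (Fin 2 → L) × (Fin 2 → L) × (Fin 2 → L) =>
        br e p.2.2 * Pv g p.1 p.2.1 e + br p.2.2 p.2.1 * G g p.1 e :=
      ((continuous_br continuous_const (by fun_prop)).mul
        (continuous_Pv g e (by fun_prop) (by fun_prop))).add
        ((continuous_br (by fun_prop) (by fun_prop)).mul
          (continuous_G g (by fun_prop) continuous_const))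
    obtain ⟨C, hC⟩ := ((isCompact_sphere (0 : Fin 2 → L) 1).prod
      ((isCompact_sphere (0 : Fin 2 → L) 1).prod (isCompact_sphere (0 : Fin 2 → L) 1))).bddAbove_image
      hc.norm.continuousOn
    refine ⟨C, fun u v v' hu hv hv' => hC ⟨(u, v, v'), ?_, rfl⟩⟩
    simp [hu, hv, hv']
  obtain ⟨C0, h0⟩ := key ![1, 0]
  obtain ⟨C1, h1⟩ := key ![0, 1]
  refine ⟨max 0 (max C0 C1), le_max_left _ _, fun u v v' hu hv hv' hG => ?_⟩
  rcases exists_coord hv with h | h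
  · have h3 := G_identity g u v v' ![0, 1]
    have e1 : br ![0, 1] v = -v 0 := by simp [br]
    rw [hG, mul_zero, zero_add] at h3
    have h4 := congrArg norm h3
    rw [norm_mul, norm_pow, e1, norm_neg, h, one_pow, one_mul] at h4
    rw [h4]
    have e2 : br ![0, 1] v' * br v' v * Pv g u v ![0, 1] + br v' v ^ 2 * G g u ![0, 1] =
        (br ![0, 1] v' * Pv g u v ![0, 1] + br v' v * G g u ![0, 1]) * br v' v := by ring
    rw [e2, norm_mul]
    exact mul_le_mul_of_nonneg_right ((h1 u v v' hu hv hv').trans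
      ((le_max_right _ _).trans (le_max_right _ _))) (norm_nonneg _)
  · have h3 := G_identity g u v v' ![1, 0]
    have e1 : br ![1, 0] v = v 1 := by simp [br]
    rw [hG, mul_zero, zero_add] at h3
    have h4 := congrArg norm h3
    rw [norm_mul, norm_pow, e1, h, one_pow, one_mul] at h4
    rw [h4]
    have e2 : br ![1, 0] v' * br v' v * Pv g u v ![1, 0] + br v' v ^ 2 * G g u ![1, 0] =
        (br ![1, 0] v' * Pv g u v ![1, 0] + br v' v * G g u ![1, 0]) * br v' v := by ring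
    rw [e2, norm_mul]
    exact mul_le_mul_of_nonneg_right ((h0 u v v' hu hv hv').trans
      ((le_max_left _ _).trans (le_max_right _ _))) (norm_nonneg _)

lemma exists_normalize {v : Fin 2 → L} (hv : v ≠ 0) : ∃ c : L, c ≠ 0 ∧ ‖c • v‖ = 1 := by
  have h0 : ‖v‖ ≠ 0 := norm_ne_zero_iff.2 hv
  obtain ⟨i, hi⟩ : ∃ i, ‖v i‖ = ‖v‖ := by
    obtain ⟨i, -, hi⟩ := Finset.exists_mem_eq_sup' (Finset.univ_nonempty (α := Fin 2))
      (fun i => ‖v i‖₊)
    refine ⟨i, ?_⟩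
    have h1 : ‖v‖₊ = Finset.univ.sup fun i => ‖v i‖₊ := Pi.nnnorm_def v
    rw [Finset.sup'_eq_sup] at hi
    rw [← h1] at hi
    exact (congrArg NNReal.toReal hi).symm
  refine ⟨(v i)⁻¹, ?_, ?_⟩
  · intro h
    rw [inv_eq_zero] at h
    rw [h, norm_zero] at hi
    exact h0 hi.symm
  · rw [norm_smul, norm_inv, hi, inv_mul_cancel₀ h0]

/-- the invariant -/
noncomputable def Rr (g : Fin 3 → Fin 3 → L) (u v u' v' : Fin 2 → L) : L :=
  G g u v' * G g u' v / (br u u' ^ 2 * br v v' ^ 2)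

lemma Rr_smul (g : Fin 3 → Fin 3 → L) (u v u' v' : Fin 2 → L) {a b c d : L} (ha : a ≠ 0)
    (hb : b ≠ 0) (hc : c ≠ 0) (hd : d ≠ 0) :
    Rr g (a • u) (b • v) (c • u') (d • v') = Rr g u v u' v' := by
  unfold Rr
  simp only [G_smul_left, G_smul_right, br_smul_left, br_smul_right]
  have : a ^ 2 * b ^ 2 * c ^ 2 * d ^ 2 ≠ 0 := by positivity
  rw [← mul_div_mul_left (G g u v' * G g u' v) (br u u' ^ 2 * br v v' ^ 2) this]
  congr 1 <;> ring

lemma Rr_step {g : Fin 3 → Fin 3 → L} {u v : ℕ → Fin 2 → L}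
    (hv : ∀ n w, G g w (v n) = br w (u n) * br w (u (n + 1)))
    (hu : ∀ n w, G g (u (n + 1)) w = br w (v n) * br w (v (n + 1)))
    (hdu : ∀ n m, n ≠ m → br (u n) (u m) ≠ 0) (hdv : ∀ n m, n ≠ m → br (v n) (v m) ≠ 0)
    {n m : ℕ} (hnm : n ≠ m) :
    Rr g (u (n + 1)) (v (n + 1)) (u (m + 1)) (v (m + 1)) = Rr g (u n) (v n) (u m) (v m) := by
  have h1 := hdu n m hnm
  have h2 := hdv n m hnm
  have h3 := hdu (n + 1) (m + 1) (by omega)
  have h4 := hdv (n + 1) (m + 1) (by omega)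
  -- the intermediate value
  have hA : Rr g (u n) (v n) (u m) (v m) = Rr g (u (n + 1)) (v n) (u (m + 1)) (v m) := by
    unfold Rr
    rw [div_eq_div_iff (by positivity) (by positivity)]
    rw [hv m (u n), hv n (u m), hv m (u (n + 1)), hv n (u (m + 1))]
    simp only [br]
    ring
  have hB : Rr g (u (n + 1)) (v (n + 1)) (u (m + 1)) (v (m + 1)) =
      Rr g (u (n + 1)) (v n) (u (m + 1)) (v m) := by
    unfold Rr
    rw [div_eq_div_iff (by positivity) (by positivity)]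
    rw [hu n (v (m + 1)), hu m (v (n + 1)), hu n (v m), hu m (v n)]
    simp only [br]
    ring
  rw [hA, hB]

lemma Rr_shift {g : Fin 3 → Fin 3 → L} {u v : ℕ → Fin 2 → L}
    (hv : ∀ n w, G g w (v n) = br w (u n) * br w (u (n + 1)))
    (hu : ∀ n w, G g (u (n + 1)) w = br w (v n) * br w (v (n + 1)))
    (hdu : ∀ n m, n ≠ m → br (u n) (u m) ≠ 0) (hdv : ∀ n m, n ≠ m → br (v n) (v m) ≠ 0)
    (n : ℕ) {m : ℕ} (hm : m ≠ 0) :
    Rr g (u n) (v n) (u (n + m)) (v (n + m)) = Rr g (u 0) (v 0) (u m) (v m) := by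
  induction n with
  | zero => rw [zero_add]
  | succ n ih =>
    rw [← ih, show n + 1 + m = n + m + 1 by ring]
    exact Rr_step hv hu hdu hdv (by omega)

lemma Rr_transpose (g : Fin 3 → Fin 3 → L) (x y x' y' : Fin 2 → L) :
    Rr (fun j k => g k j) y x y' x' = Rr g x y x' y' := by
  unfold Rr
  rw [← G_swap g x y', ← G_swap g x' y]
  ring

/-- the invariant is unbounded along pairs with large gaps -/
lemma rec_big (g : Fin 3 → Fin 3 → L) {U V : ℕ → Fin 2 → L}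
    (hG : ∀ n, G g (U n) (V n) = 0)
    (hdU : ∀ n m, n ≠ m → br (U n) (U m) ≠ 0) (hdV : ∀ n m, n ≠ m → br (V n) (V m) ≠ 0)
    {ξ η : Fin 2 → L} {φ : ℕ → ℕ} (hφ : StrictMono φ) (hη : η ≠ 0) (h0 : G g ξ η = 0)
    (hξl : Tendsto (U ∘ φ) atTop (𝓝 ξ)) (hηl : Tendsto (V ∘ φ) atTop (𝓝 η))
    {e : Fin 2 → L} (he : Pv g ξ η e ≠ 0) (M : ℕ) (B : ℝ) (hB : 0 < B) :
    ∃ k l, k + M ≤ l ∧ B ^ 2 ≤ ‖Rr g (U k) (V k) (U l) (V l)‖ := by
  obtain ⟨δ, hδ, hlow⟩ := lower g hη h0 he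
  -- eventually
  have hpair : Tendsto (fun p : ℕ × ℕ => (U (φ p.1), V (φ p.1), V (φ p.2)))
      (atTop ×ˢ atTop) (𝓝 (ξ, η, η)) := by
    have a1 : Tendsto (fun p : ℕ × ℕ => U (φ p.1)) (atTop ×ˢ atTop) (𝓝 ξ) :=
      hξl.comp tendsto_fst
    have a2 : Tendsto (fun p : ℕ × ℕ => V (φ p.1)) (atTop ×ˢ atTop) (𝓝 η) :=
      hηl.comp tendsto_fst
    have a3 : Tendsto (fun p : ℕ × ℕ => V (φ p.2)) (atTop ×ˢ atTop) (𝓝 η) :=
      hηl.comp tendsto_snd
    exact a1.prodMk_nhds (a2.prodMk_nhds a3)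
  have hpair' : Tendsto (fun p : ℕ × ℕ => (U (φ p.2), V (φ p.2), V (φ p.1)))
      (atTop ×ˢ atTop) (𝓝 (ξ, η, η)) := by
    have a1 : Tendsto (fun p : ℕ × ℕ => U (φ p.2)) (atTop ×ˢ atTop) (𝓝 ξ) :=
      hξl.comp tendsto_snd
    have a2 : Tendsto (fun p : ℕ × ℕ => V (φ p.2)) (atTop ×ˢ atTop) (𝓝 η) :=
      hηl.comp tendsto_snd
    have a3 : Tendsto (fun p : ℕ × ℕ => V (φ p.1)) (atTop ×ˢ atTop) (𝓝 η) :=
      hηl.comp tendsto_fst
    exact a1.prodMk_nhds (a2.prodMk_nhds a3)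
  have hbrt : Tendsto (fun p : ℕ × ℕ => ‖br (U (φ p.1)) (U (φ p.2))‖) (atTop ×ˢ atTop) (𝓝 0) := by
    have hc : Continuous fun q : (Fin 2 → L) × (Fin 2 → L) => ‖br q.1 q.2‖ :=
      (continuous_br continuous_fst continuous_snd).norm
    have h1 := (hc.tendsto (ξ, ξ)).comp ((hξl.comp tendsto_fst).prodMk_nhds
      (hξl.comp (tendsto_snd (f := (atTop : Filter ℕ)) (g := (atTop : Filter ℕ)))))
    simpa [br_self, Function.comp_def] using h1
  have hev := (hpair.eventually hlow).and ((hpair'.eventually hlow).and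
    (hbrt.eventually_lt_const (show (0 : ℝ) < δ / B by positivity)))
  rw [prod_atTop_atTop_eq, eventually_atTop] at hev
  obtain ⟨⟨k1, k2⟩, hk⟩ := hev
  set k := max k1 k2 with hkdef
  obtain ⟨l, hl⟩ : ∃ l, φ k + (M + 1) ≤ φ l ∧ k ≤ l := by
    have h1 := (hφ.tendsto_atTop.eventually_ge_atTop (φ k + (M + 1))).and (eventually_ge_atTop k)
    exact h1.exists
  obtain ⟨q1, q2, q3⟩ := hk (k, l) ⟨le_max_left _ _, (le_max_right _ _).trans hl.2⟩
  simp only at q1 q2 q3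
  have q1' := q1 (hG _)
  have q2' := q2 (hG _)
  have hne : φ k ≠ φ l := by omega
  have hbU : 0 < ‖br (U (φ k)) (U (φ l))‖ := norm_pos_iff.2 (hdU _ _ hne)
  have hbV : 0 < ‖br (V (φ k)) (V (φ l))‖ := norm_pos_iff.2 (hdV _ _ hne)
  have hsw : ‖br (V (φ l)) (V (φ k))‖ = ‖br (V (φ k)) (V (φ l))‖ := by
    rw [br_swap, norm_neg]
  rw [hsw] at q1'
  refine ⟨φ k, φ l, by omega, ?_⟩
  have hBle : B ≤ δ / ‖br (U (φ k)) (U (φ l))‖ := by
    rw [lt_div_iff₀ hB] at q3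
    rw [le_div_iff₀ hbU]
    linarith
  have hlarge : (δ / ‖br (U (φ k)) (U (φ l))‖) ^ 2 ≤
      ‖Rr g (U (φ k)) (V (φ k)) (U (φ l)) (V (φ l))‖ := by
    unfold Rr
    rw [norm_div, norm_mul, norm_mul, norm_pow, norm_pow, div_pow, div_le_div_iff₀ (by positivity)
      (by positivity)]
    calc δ ^ 2 * (‖br (U (φ k)) (U (φ l))‖ ^ 2 * ‖br (V (φ k)) (V (φ l))‖ ^ 2)
        = ((δ * ‖br (V (φ k)) (V (φ l))‖) * (δ * ‖br (V (φ k)) (V (φ l))‖)) *
          ‖br (U (φ k)) (U (φ l))‖ ^ 2 := by ring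
      _ ≤ _ := by gcongr
  exact le_trans (by gcongr) hlarge

/-- a large invariant forces a return to the start -/
lemma rec_core [ProperSpace L] (g : Fin 3 → Fin 3 → L) {u v U V : ℕ → Fin 2 → L}
    (hv : ∀ n w, G g w (v n) = br w (u n) * br w (u (n + 1)))
    (hu : ∀ n w, G g (u (n + 1)) w = br w (v n) * br w (v (n + 1)))
    (hdu : ∀ n m, n ≠ m → br (u n) (u m) ≠ 0) (hdv : ∀ n m, n ≠ m → br (v n) (v m) ≠ 0)
    (hU : ∀ n, ‖U n‖ = 1) (hV : ∀ n, ‖V n‖ = 1)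
    (hUV : ∀ n m, Rr g (U n) (V n) (U m) (V m) = Rr g (u n) (v n) (u m) (v m))
    (hG : ∀ n, G g (U n) (V n) = 0)
    (hdU : ∀ n m, n ≠ m → br (U n) (U m) ≠ 0) (hdV : ∀ n m, n ≠ m → br (V n) (V m) ≠ 0)
    (hbig : ∀ (M : ℕ) (B : ℝ), 0 < B →
      ∃ k l, k + M ≤ l ∧ B ^ 2 ≤ ‖Rr g (U k) (V k) (U l) (V l)‖)
    {ε : ℝ} (hε : 0 < ε) (M : ℕ) :
    ∃ m, M ≤ m ∧ ‖br (U 0) (U m)‖ ≤ ε ∧ ‖br (V 0) (V m)‖ ≤ ε := by
  obtain ⟨C1, hC1, hup1⟩ := upper g
  obtain ⟨C2, hC2, hup2⟩ := upper (fun j k => g k j)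
  set C := max C1 C2 + 1 with hC
  have hCpos : 0 < C := by
    have := le_max_left C1 C2
    rw [hC]; linarith
  obtain ⟨k, l, hkl, hlarge⟩ := hbig (M + 1) (C / ε) (by positivity)
  obtain ⟨m, hm⟩ := Nat.exists_eq_add_of_le hkl
  set m' := M + 1 + m with hm'
  have hl : l = k + m' := by omega
  have hm0 : m' ≠ 0 := by omega
  rw [hUV, hl, Rr_shift hv hu hdu hdv k hm0, ← hUV] at hlarge
  -- upper bounds
  have hbU' : 0 < ‖br (U 0) (U m')‖ := norm_pos_iff.2 (hdU _ _ (by omega))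
  have hbV' : 0 < ‖br (V 0) (V m')‖ := norm_pos_iff.2 (hdV _ _ (by omega))
  have hCC1 : C1 ≤ C := by have := le_max_left C1 C2; rw [hC]; linarith
  have hCC2 : C2 ≤ C := by have := le_max_right C1 C2; rw [hC]; linarith
  have a1 : ‖G g (U 0) (V m')‖ ≤ C * ‖br (V 0) (V m')‖ := by
    have := hup1 (U 0) (V 0) (V m') (hU _) (hV _) (hV _) (hG _)
    rw [br_swap, norm_neg] at this
    exact this.trans (by gcongr)
  have a2 : ‖G g (U m') (V 0)‖ ≤ C * ‖br (V 0) (V m')‖ := by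
    have := hup1 (U m') (V m') (V 0) (hU _) (hV _) (hV _) (hG _)
    exact this.trans (by gcongr)
  have a3 : ‖G g (U 0) (V m')‖ ≤ C * ‖br (U 0) (U m')‖ := by
    have := hup2 (V m') (U m') (U 0) (hV _) (hU _) (hU _) (by rw [← G_swap]; exact hG _)
    rw [← G_swap] at this
    exact this.trans (by gcongr)
  have a4 : ‖G g (U m') (V 0)‖ ≤ C * ‖br (U 0) (U m')‖ := by
    have := hup2 (V 0) (U 0) (U m') (hV _) (hU _) (hU _) (by rw [← G_swap]; exact hG _)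
    rw [← G_swap, br_swap, norm_neg] at this
    exact this.trans (by gcongr)
  have b1 : ‖Rr g (U 0) (V 0) (U m') (V m')‖ ≤ (C / ‖br (U 0) (U m')‖) ^ 2 := by
    unfold Rr
    rw [norm_div, norm_mul, norm_mul, norm_pow, norm_pow, div_pow, div_le_div_iff₀ (by positivity)
      (by positivity)]
    calc ‖G g (U 0) (V m')‖ * ‖G g (U m') (V 0)‖ * ‖br (U 0) (U m')‖ ^ 2
        ≤ (C * ‖br (V 0) (V m')‖) * (C * ‖br (V 0) (V m')‖) * ‖br (U 0) (U m')‖ ^ 2 := by gcongr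
      _ = _ := by ring
  have b2 : ‖Rr g (U 0) (V 0) (U m') (V m')‖ ≤ (C / ‖br (V 0) (V m')‖) ^ 2 := by
    unfold Rr
    rw [norm_div, norm_mul, norm_mul, norm_pow, norm_pow, div_pow, div_le_div_iff₀ (by positivity)
      (by positivity)]
    calc ‖G g (U 0) (V m')‖ * ‖G g (U m') (V 0)‖ * ‖br (V 0) (V m')‖ ^ 2
        ≤ (C * ‖br (U 0) (U m')‖) * (C * ‖br (U 0) (U m')‖) * ‖br (V 0) (V m')‖ ^ 2 := by gcongr
      _ = _ := by ring
  have fin : ∀ t : ℝ, 0 < t → (C / ε) ^ 2 ≤ (C / t) ^ 2 → t ≤ ε := by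
    intro t ht h
    have h1 : C / ε ≤ C / t :=
      (pow_le_pow_iff_left₀ (by positivity) (by positivity) (by norm_num)).1 h
    exact (div_le_div_iff_of_pos_left hCpos hε ht).1 h1
  exact ⟨m', by omega, fin _ hbU' (hlarge.trans b1), fin _ hbV' (hlarge.trans b2)⟩

/-- the recurrence, for normalised sequences -/
lemma rec_norm [ProperSpace L] (g : Fin 3 → Fin 3 → L) {u v U V : ℕ → Fin 2 → L}
    (hv : ∀ n w, G g w (v n) = br w (u n) * br w (u (n + 1)))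
    (hu : ∀ n w, G g (u (n + 1)) w = br w (v n) * br w (v (n + 1)))
    (hdu : ∀ n m, n ≠ m → br (u n) (u m) ≠ 0) (hdv : ∀ n m, n ≠ m → br (v n) (v m) ≠ 0)
    (hU : ∀ n, ‖U n‖ = 1) (hV : ∀ n, ‖V n‖ = 1)
    (hUV : ∀ n m, Rr g (U n) (V n) (U m) (V m) = Rr g (u n) (v n) (u m) (v m))
    (hG : ∀ n, G g (U n) (V n) = 0)
    (hdU : ∀ n m, n ≠ m → br (U n) (U m) ≠ 0) (hdV : ∀ n m, n ≠ m → br (V n) (V m) ≠ 0)
    (hsm : ∀ ξ η : Fin 2 → L, ξ ≠ 0 → η ≠ 0 → G g ξ η = 0 →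
      (∃ e, Pv g ξ η e ≠ 0) ∨ (∃ e, Pv (fun j k => g k j) η ξ e ≠ 0))
    {ε : ℝ} (hε : 0 < ε) (M : ℕ) :
    ∃ m, M ≤ m ∧ ‖br (U 0) (U m)‖ ≤ ε ∧ ‖br (V 0) (V m)‖ ≤ ε := by
  obtain ⟨p, hmem, φ, hφ, hlim⟩ := ((isCompact_sphere (0 : Fin 2 → L) 1).prod
    (isCompact_sphere (0 : Fin 2 → L) 1)).tendsto_subseq (x := fun n => (U n, V n))
    (fun n => by simp [hU n, hV n])
  obtain ⟨ξ, η⟩ := p
  have hξ1 : ‖ξ‖ = 1 := by simpa using hmem.1
  have hη1 : ‖η‖ = 1 := by simpa using hmem.2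
  have hξ0 : ξ ≠ 0 := by rintro rfl; simp at hξ1
  have hη0 : η ≠ 0 := by rintro rfl; simp at hη1
  have hξl : Tendsto (U ∘ φ) atTop (𝓝 ξ) := by
    have h1 := (continuous_fst.tendsto (ξ, η)).comp hlim
    exact h1
  have hηl : Tendsto (V ∘ φ) atTop (𝓝 η) := by
    have h1 := (continuous_snd.tendsto (ξ, η)).comp hlim
    exact h1
  have hGlim : G g ξ η = 0 := by
    have h1 := ((continuous_G g continuous_fst continuous_snd).tendsto (ξ, η)).comp hlim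
    have h2 : ((fun x : (Fin 2 → L) × (Fin 2 → L) => G g x.1 x.2) ∘
        (fun n => (U n, V n)) ∘ φ) = fun _ => 0 := by
      funext n
      exact hG (φ n)
    rw [h2] at h1
    exact (tendsto_nhds_unique h1 tendsto_const_nhds)
  refine rec_core g hv hu hdu hdv hU hV hUV hG hdU hdV ?_ hε M
  intro M' B hB
  rcases hsm ξ η hξ0 hη0 hGlim with ⟨e, he⟩ | ⟨e, he⟩
  · exact rec_big g hG hdU hdV hφ hη0 hGlim hξl hηl he M' B hB
  · obtain ⟨k, l, h1, h2⟩ := rec_big (fun j k => g k j) (U := V) (V := U)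
      (fun n => by rw [← G_swap]; exact hG n) hdV hdU hφ hξ0 (by rw [← G_swap]; exact hGlim)
      hηl hξl he M' B hB
    refine ⟨k, l, h1, ?_⟩
    rwa [Rr_transpose] at h2

/-- **Recurrence.** An infinite orbit of the translation on a curve of bidegree (2,2) comes back
to its initial point, provided the curve is smooth. -/
theorem recurrence [ProperSpace L] (g : Fin 3 → Fin 3 → L) {u v : ℕ → Fin 2 → L}
    (hu0 : ∀ n, u n ≠ 0) (hv0 : ∀ n, v n ≠ 0)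
    (hv : ∀ n w, G g w (v n) = br w (u n) * br w (u (n + 1)))
    (hu : ∀ n w, G g (u (n + 1)) w = br w (v n) * br w (v (n + 1)))
    (hdu : ∀ n m, n ≠ m → br (u n) (u m) ≠ 0) (hdv : ∀ n m, n ≠ m → br (v n) (v m) ≠ 0)
    (hsm : ∀ ξ η : Fin 2 → L, ξ ≠ 0 → η ≠ 0 → G g ξ η = 0 →
      (∃ e, Pv g ξ η e ≠ 0) ∨ (∃ e, Pv (fun j k => g k j) η ξ e ≠ 0))
    {ε : ℝ} (hε : 0 < ε) (M : ℕ) :
    ∃ m, M ≤ m ∧ ‖br (u 0) (u m)‖ ≤ ε * (‖u 0‖ * ‖u m‖) ∧
      ‖br (v 0) (v m)‖ ≤ ε * (‖v 0‖ * ‖v m‖) := by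
  choose a ha0 ha using fun n => exists_normalize (hu0 n)
  choose b hb0 hb using fun n => exists_normalize (hv0 n)
  have hUV : ∀ n m, Rr g (a n • u n) (b n • v n) (a m • u m) (b m • v m) =
      Rr g (u n) (v n) (u m) (v m) := fun n m =>
    Rr_smul g _ _ _ _ (ha0 n) (hb0 n) (ha0 m) (hb0 m)
  have hG : ∀ n, G g (a n • u n) (b n • v n) = 0 := by
    intro n
    simp only [G_smul_left, G_smul_right, hv n (u n), br_self]
    ring
  have hdU : ∀ n m, n ≠ m → br (a n • u n) (a m • u m) ≠ 0 := fun n m h => by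
    simp only [br_smul_left, br_smul_right]
    exact mul_ne_zero (ha0 _) (mul_ne_zero (ha0 _) (hdu _ _ h))
  have hdV : ∀ n m, n ≠ m → br (b n • v n) (b m • v m) ≠ 0 := fun n m h => by
    simp only [br_smul_left, br_smul_right]
    exact mul_ne_zero (hb0 _) (mul_ne_zero (hb0 _) (hdv _ _ h))
  obtain ⟨m, hm, h1, h2⟩ := rec_norm g hv hu hdu hdv ha hb hUV hG hdU hdV hsm hε M
  refine ⟨m, hm, ?_, ?_⟩
  · have e1 : ‖br (a 0 • u 0) (a m • u m)‖ = ‖a 0‖ * (‖a m‖ * ‖br (u 0) (u m)‖) := by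
      simp only [br_smul_left, br_smul_right, norm_mul]; ring
    have e2 : ‖a 0‖ * ‖u 0‖ = 1 := by rw [← norm_smul]; exact ha 0
    have e3 : ‖a m‖ * ‖u m‖ = 1 := by rw [← norm_smul]; exact ha m
    rw [e1] at h1
    have p1 : 0 < ‖u 0‖ := norm_pos_iff.2 (hu0 0)
    have p2 : 0 < ‖u m‖ := norm_pos_iff.2 (hu0 m)
    calc ‖br (u 0) (u m)‖ = (‖a 0‖ * ‖u 0‖) * ((‖a m‖ * ‖u m‖) * ‖br (u 0) (u m)‖) := by
          rw [e2, e3]; ring
      _ = (‖a 0‖ * (‖a m‖ * ‖br (u 0) (u m)‖)) * (‖u 0‖ * ‖u m‖) := by ring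
      _ ≤ ε * (‖u 0‖ * ‖u m‖) := by gcongr
  · have e1 : ‖br (b 0 • v 0) (b m • v m)‖ = ‖b 0‖ * (‖b m‖ * ‖br (v 0) (v m)‖) := by
      simp only [br_smul_left, br_smul_right, norm_mul]; ring
    have e2 : ‖b 0‖ * ‖v 0‖ = 1 := by rw [← norm_smul]; exact hb 0
    have e3 : ‖b m‖ * ‖v m‖ = 1 := by rw [← norm_smul]; exact hb m
    rw [e1] at h2
    have p1 : 0 < ‖v 0‖ := norm_pos_iff.2 (hv0 0)
    have p2 : 0 < ‖v m‖ := norm_pos_iff.2 (hv0 m)
    calc ‖br (v 0) (v m)‖ = (‖b 0‖ * ‖v 0‖) * ((‖b m‖ * ‖v m‖) * ‖br (v 0) (v m)‖) := by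
          rw [e2, e3]; ring
      _ = (‖b 0‖ * (‖b m‖ * ‖br (v 0) (v m)‖)) * (‖v 0‖ * ‖v m‖) := by ring
      _ ≤ ε * (‖v 0‖ * ‖v m‖) := by gcongr

end analysis

end Pool.Agent.W279.Tri
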