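import Pool.Agent.W279.Tri.Elim

/-!
# Smoothness of curves of bidegree (2,2) and extension of the base field (helper279)
-/

set_option autoImplicit false

namespace Pool.Agent.W279.Tri

open MvPolynomial

section ring

variable {R : Type*} [CommRing R]

/-- the derivatives of the monomials of degree two -/
def dmon (a : Fin 2) (x : Fin 2 → R) (i : Fin 3) : R :=
  ![![2 * x 0, x 1, 0], ![0, x 0, 2 * x 1]] a i

/-- the bilinear expression with the matrix `g` -/
def Gd (g : Fin 3 → Fin 3 → R) (p q : Fin 3 → R) : R := ∑ j, ∑ k, g j k * (p j * q k)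

lemma G_eq_Gd (g : Fin 3 → Fin 3 → R) (u v : Fin 2 → R) : G g u v = Gd g (mon u) (mon v) := rfl

/-- the singular points -/
def Sing (g : Fin 3 → Fin 3 → R) (u v : Fin 2 → R) : Prop :=
  (∀ a, Gd g (dmon a u) (mon v) = 0) ∧ ∀ a, Gd g (mon u) (dmon a v) = 0

lemma Pv_eq (g : Fin 3 → Fin 3 → R) (u v e : Fin 2 → R) :
    Pv g u v e = ∑ a, e a * Gd g (mon u) (dmon a v) := by
  simp only [Pv, G, Gd, mon, dmon, Fin.sum_univ_three, Fin.sum_univ_two, Pi.add_apply,
    Matrix.cons_val_zero, Matrix.cons_val_one, Matrix.cons_val]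
  ring

lemma Gd_swap (g : Fin 3 → Fin 3 → R) (p q : Fin 3 → R) :
    Gd g p q = Gd (fun j k => g k j) q p := by
  unfold Gd
  rw [Finset.sum_comm]
  refine Finset.sum_congr rfl fun j _ => Finset.sum_congr rfl fun k _ => ?_
  ring

lemma sm_of_not_sing {g : Fin 3 → Fin 3 → R}
    (h : ∀ u v : Fin 2 → R, u ≠ 0 → v ≠ 0 → ¬Sing g u v) : Sm g := by
  intro ξ η hξ hη _
  by_contra hn
  push Not at hn
  refine h ξ η hξ hη ⟨fun a => ?_, fun a => ?_⟩
  · have := hn.2 (Pi.single a 1)
    rw [Pv_eq, Fin.sum_univ_two] at this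
    rw [Gd_swap]
    fin_cases a
    · simpa using this
    · simpa using this
  · have := hn.1 (Pi.single a 1)
    rw [Pv_eq, Fin.sum_univ_two] at this
    fin_cases a
    · simpa using this
    · simpa using this

lemma dmon_map {S : Type*} [CommRing S] (φ : R →+* S) (a : Fin 2) (v : Fin 2 → R) (j : Fin 3) :
    dmon a (fun a => φ (v a)) j = φ (dmon a v j) := by
  have h2 : φ 2 = 2 := map_ofNat φ 2
  fin_cases a <;> fin_cases j <;> simp [dmon, h2]

lemma Gd_map {S : Type*} [CommRing S] (φ : R →+* S) (g : Fin 3 → Fin 3 → R) (p q : Fin 3 → R) :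
    Gd (fun j k => φ (g j k)) (fun j => φ (p j)) (fun j => φ (q j)) = φ (Gd g p q) := by
  simp only [Gd, map_sum, map_mul]

/-- the four derivatives of the form of bidegree (2,2) -/
noncomputable def dP (g : Fin 3 → Fin 3 → R) (q : Fin 2 × Fin 2) : MvPolynomial (Fin 2 × Fin 2) R :=
  if q.1 = 0 then
    Gd (fun j k => C (g j k)) (dmon q.2 fun a => X (0, a)) (mon fun a => X (1, a))
  else Gd (fun j k => C (g j k)) (mon fun a => X (0, a)) (dmon q.2 fun a => X (1, a))

lemma eval₂_dP {S : Type*} [CommRing S] (φ : R →+* S) (g : Fin 3 → Fin 3 → R)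
    (q : Fin 2 × Fin 2) (u v : Fin 2 → S) :
    eval₂Hom φ (fun p : Fin 2 × Fin 2 => (![u, v] : Fin 2 → Fin 2 → S) p.1 p.2) (dP g q) =
      if q.1 = 0 then Gd (fun j k => φ (g j k)) (dmon q.2 u) (mon v)
      else Gd (fun j k => φ (g j k)) (mon u) (dmon q.2 v) := by
  unfold dP
  split_ifs
  · rw [← Gd_map]
    congr 1
    · funext j k
      simp
    · funext j
      rw [← dmon_map]
      simp
    · funext j
      rw [← mon_map]
      simp
  · rw [← Gd_map]
    congr 1
    · funext j k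
      simp
    · funext j
      rw [← mon_map]
      simp
    · funext j
      rw [← dmon_map]
      simp

lemma eval₂_dP_of_sing {S : Type*} [CommRing S] {φ : R →+* S} {g : Fin 3 → Fin 3 → R}
    {u v : Fin 2 → S} (h : Sing (fun j k => φ (g j k)) u v) (q : Fin 2 × Fin 2) :
    eval₂Hom φ (fun p : Fin 2 × Fin 2 => (![u, v] : Fin 2 → Fin 2 → S) p.1 p.2) (dP g q) = 0 := by
  rw [eval₂_dP]
  split_ifs
  · exact h.1 _
  · exact h.2 _

/-- the ideal of the derivatives -/
noncomputable def dI (g : Fin 3 → Fin 3 → R) : Ideal (MvPolynomial (Fin 2 × Fin 2) R) :=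
  Ideal.span (Set.range (dP g))

lemma eval₂_dI_of_sing {S : Type*} [CommRing S] {φ : R →+* S} {g : Fin 3 → Fin 3 → R}
    {u v : Fin 2 → S} (h : Sing (fun j k => φ (g j k)) u v) {f : MvPolynomial (Fin 2 × Fin 2) R}
    (hf : f ∈ dI g) :
    eval₂Hom φ (fun p : Fin 2 × Fin 2 => (![u, v] : Fin 2 → Fin 2 → S) p.1 p.2) f = 0 := by
  have h1 : dI g ≤ RingHom.ker
      (eval₂Hom φ (fun p : Fin 2 × Fin 2 => (![u, v] : Fin 2 → Fin 2 → S) p.1 p.2)) := by
    rw [dI, Ideal.span_le]
    rintro _ ⟨q, rfl⟩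
    exact eval₂_dP_of_sing h q
  exact h1 hf

end ring

section field

variable {K : Type*} [Field K]

/-- no singular point over the algebraic closure -/
def NS (g : Fin 3 → Fin 3 → K) : Prop :=
  ∀ u v : Fin 2 → AlgebraicClosure K, u ≠ 0 → v ≠ 0 →
    ¬Sing (fun j k => algebraMap K (AlgebraicClosure K) (g j k)) u v

lemma NS.exists_pow {g : Fin 3 → Fin 3 → K} (h : NS g) (a b : Fin 2) :
    ∃ N : ℕ, (X (0, a) * X (1, b) : MvPolynomial (Fin 2 × Fin 2) K) ^ N ∈ dI g := by
  have h1 : (X (0, a) * X (1, b) : MvPolynomial (Fin 2 × Fin 2) K) ∈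
      vanishingIdeal K (zeroLocus (AlgebraicClosure K) (dI g)) := by
    intro w hw
    by_contra hne
    rw [map_mul, aeval_X, aeval_X] at hne
    have hu : (fun a => w (0, a)) ≠ 0 := fun h0 => left_ne_zero_of_mul hne (congrFun h0 a)
    have hv : (fun a => w (1, a)) ≠ 0 := fun h0 => right_ne_zero_of_mul hne (congrFun h0 b)
    have hw' : w = fun p : Fin 2 × Fin 2 =>
        (![fun a => w (0, a), fun a => w (1, a)] : Fin 2 → Fin 2 → AlgebraicClosure K) p.1 p.2 := by
      funext ⟨i, a⟩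
      fin_cases i <;> rfl
    have h2 : ∀ q, eval₂Hom (algebraMap K (AlgebraicClosure K)) (fun p : Fin 2 × Fin 2 =>
        (![fun a => w (0, a), fun a => w (1, a)] : Fin 2 → Fin 2 → AlgebraicClosure K) p.1 p.2)
        (dP g q) = 0 := by
      intro q
      rw [← hw']
      exact hw _ (Ideal.subset_span ⟨q, rfl⟩)
    refine h _ _ hu hv ⟨fun a => ?_, fun a => ?_⟩
    · have := h2 (0, a)
      rwa [eval₂_dP, if_pos rfl] at this
    · have := h2 (1, a)
      rwa [eval₂_dP, if_neg (by simp)] at this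
  rw [vanishingIdeal_zeroLocus_eq_radical] at h1
  exact h1

lemma exists_ne {L : Type*} [Zero L] {u : Fin 2 → L} (hu : u ≠ 0) : ∃ a, u a ≠ 0 := by
  by_contra h
  push Not at h
  exact hu (funext h)

/-- no singular points over any extension -/
lemma not_sing_of_pow {g : Fin 3 → Fin 3 → K}
    (h : ∀ a b : Fin 2,
      ∃ N : ℕ, (X (0, a) * X (1, b) : MvPolynomial (Fin 2 × Fin 2) K) ^ N ∈ dI g)
    {L : Type*} [Field L] (σ : K →+* L) (u v : Fin 2 → L) (hu : u ≠ 0) (hv : v ≠ 0) :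
    ¬Sing (fun j k => σ (g j k)) u v := by
  intro hs
  obtain ⟨a, ha⟩ := exists_ne hu
  obtain ⟨b, hb⟩ := exists_ne hv
  obtain ⟨N, hN⟩ := h a b
  have h1 := eval₂_dI_of_sing hs hN
  rw [map_pow, map_mul, coe_eval₂Hom, eval₂_X, eval₂_X] at h1
  exact pow_ne_zero N (mul_ne_zero ha hb) h1

lemma NS.sm {g : Fin 3 → Fin 3 → K} (h : NS g) {L : Type*} [Field L] (σ : K →+* L) :
    Sm (fun j k => σ (g j k)) :=
  sm_of_not_sing fun u v hu hv => not_sing_of_pow h.exists_pow σ u v hu hv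

end field

end Pool.Agent.W279.Tri
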