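import Pool.Agent.W279.Tri.Fin

/-!
# Polynomials of tridegree (2,2,2) (helper279)
-/

set_option autoImplicit false

namespace Pool.Agent.W279.Tri

open MvPolynomial

/-- the exponent of the monomial with the indices `i`, `j`, `k` -/
noncomputable def mexp (p : Fin 3 × Fin 3 × Fin 3) : Fin 3 × Fin 2 →₀ ℕ :=
  Finsupp.equivFunOnFinite.symm fun q =>
    (![![2 - p.1.1, p.1.1], ![2 - p.2.1.1, p.2.1.1], ![2 - p.2.2.1, p.2.2.1]] :
      Fin 3 → Fin 2 → ℕ) q.1 q.2

lemma mexp_apply (p : Fin 3 × Fin 3 × Fin 3) (q : Fin 3 × Fin 2) :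
    mexp p q = (![![2 - p.1.1, p.1.1], ![2 - p.2.1.1, p.2.1.1], ![2 - p.2.2.1, p.2.2.1]] :
      Fin 3 → Fin 2 → ℕ) q.1 q.2 := rfl

lemma mexp_injective : Function.Injective mexp := by
  intro p p' h
  have h0 := DFunLike.congr_fun h (0, 1)
  have h1 := DFunLike.congr_fun h (1, 1)
  have h2 := DFunLike.congr_fun h (2, 1)
  simp only [mexp_apply, Matrix.cons_val_zero, Matrix.cons_val_one, Matrix.cons_val] at h0 h1 h2
  ext
  · exact h0
  · exact h1
  · exact h2

variable {K : Type*} [Field K]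

lemma mon_X (l : Fin 3) (i : Fin 3) :
    mon (fun a => (X (l, a) : MvPolynomial (Fin 3 × Fin 2) K)) i =
      X (l, 0) ^ (2 - i.1) * X (l, 1) ^ i.1 := by
  fin_cases i <;> simp [mon]

lemma monomial_mexp (p : Fin 3 × Fin 3 × Fin 3) (a : K) :
    monomial (mexp p) a = C a * (mon (fun a => X (0, a)) p.1 *
      (mon (fun a => X (1, a)) p.2.1 * mon (fun a => X (2, a)) p.2.2)) := by
  rw [monomial_eq, Finsupp.prod_fintype _ _ (fun i => by rw [pow_zero]), Fintype.prod_prod_type,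
    Fin.prod_univ_three, Fin.prod_univ_two, Fin.prod_univ_two, Fin.prod_univ_two, mon_X, mon_X,
    mon_X]
  simp only [mexp_apply, Matrix.cons_val_zero, Matrix.cons_val_one, Matrix.cons_val]
  rw [mul_assoc]

/-- a polynomial of tridegree (2,2,2) is given by an array of coefficients -/
theorem exists_form {F : MvPolynomial (Fin 3 × Fin 2) K}
    (h : ∀ m ∈ F.support, ∀ i, m (i, 0) + m (i, 1) = 2) :
    ∃ c : Fin 3 → Fin 3 → Fin 3 → K, F = form c := by
  classical
  refine ⟨fun i j k => coeff (mexp (i, j, k)) F, ?_⟩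
  have h1 : form (fun i j k => coeff (mexp (i, j, k)) F) =
      ∑ p : Fin 3 × Fin 3 × Fin 3, monomial (mexp p) (coeff (mexp p) F) := by
    rw [Fintype.sum_prod_type]
    simp only [Fintype.sum_prod_type, monomial_mexp]
    rfl
  have h2 : F.support ⊆ Finset.univ.image mexp := by
    intro m hm
    rw [Finset.mem_image]
    have a0 := h m hm 0
    have a1 := h m hm 1
    have a2 := h m hm 2
    refine ⟨(⟨m (0, 1), by omega⟩, ⟨m (1, 1), by omega⟩, ⟨m (2, 1), by omega⟩),
      Finset.mem_univ _, ?_⟩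
    ext ⟨i, a⟩
    rw [mexp_apply]
    fin_cases i <;> fin_cases a <;> simp <;> omega
  rw [h1]
  conv_lhs => rw [← F.support_sum_monomial_coeff]
  rw [Finset.sum_subset h2 (fun m _ hm => by
    rw [MvPolynomial.notMem_support_iff.1 hm, monomial_zero]), Finset.sum_image
      mexp_injective.injOn]

lemma E_rot {R : Type*} [CommRing R] (c : Fin 3 → Fin 3 → Fin 3 → R) (x y z : Fin 2 → R) :
    E (rot c) z x y = E c x y z := by
  rw [← G_fib c, G_eq_lf]
  rw [← G_eq_lf, G_swap, G_eq_lf, lf_fib', lf_fib', lf_fib', E_eq_qf]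

lemma T3_sw {R : Type*} [CommRing R] (c : Fin 3 → Fin 3 → Fin 3 → R) (p q r : Fin 3 → R) :
    T3 (sw c) q p r = T3 c p q r := by
  simp only [T3, sw]
  rw [Finset.sum_comm]
  refine Finset.sum_congr rfl fun j _ => Finset.sum_congr rfl fun i _ =>
    Finset.sum_congr rfl fun k _ => ?_
  ring

lemma coef_rot_sw {R : Type*} [CommRing R] (c : Fin 3 → Fin 3 → Fin 3 → R) (k : Fin 3)
    (x y : Fin 2 → R) : coef (rot (sw c)) k y x = coef (rot c) k x y := by
  simp only [coef, rot, sw]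
  rw [Finset.sum_comm]
  refine Finset.sum_congr rfl fun j _ => Finset.sum_congr rfl fun i _ => ?_
  ring

lemma NC_of_E {c : Fin 3 → Fin 3 → Fin 3 → K}
    (h : ∀ y z : Fin 2 → AlgebraicClosure K, y ≠ 0 → z ≠ 0 → ∃ w : Fin 2 → AlgebraicClosure K,
      E (fun i j k => algebraMap K (AlgebraicClosure K) (c i j k)) w y z ≠ 0) : NC c := by
  intro y z hy hz
  obtain ⟨w, hw⟩ := h y z hy hz
  by_contra hn
  push Not at hn
  apply hw
  unfold E
  simp only [hn, mul_zero, Finset.sum_const_zero]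

lemma NC_rot_sw {c : Fin 3 → Fin 3 → Fin 3 → K} (h : NC (rot c)) : NC (rot (sw c)) := by
  intro y x hy hx
  obtain ⟨i, hi⟩ := h x y hx hy
  refine ⟨i, ?_⟩
  have := coef_rot_sw (fun i j k => algebraMap K (AlgebraicClosure K) (c i j k)) i x y
  intro h0
  apply hi
  exact this.symm.trans h0

lemma SingX_sw {R : Type*} [CommRing R] {c : Fin 3 → Fin 3 → Fin 3 → R} {x y z : Fin 2 → R}
    (h : SingX (sw c) y x z) : SingX c x y z := by
  obtain ⟨h0, h1, h2⟩ := h
  simp only [T3_sw] at h0 h1 h2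
  exact ⟨h1, h0, h2⟩

/-- the main theorem for a form given by its coefficients -/
theorem main_form [NumberField K] {c : Fin 3 → Fin 3 → Fin 3 → K} (hirr : Irreducible (form c))
    (hl : ∀ (i : Fin 3) (p : Fin 3 → Fin 2 → AlgebraicClosure K), (∀ j, p j ≠ 0) →
      ∃ w : Fin 2 → AlgebraicClosure K,
        aeval (fun q : Fin 3 × Fin 2 => Function.update p i w q.1 q.2) (form c) ≠ 0)
    (hs : ∃ S : Set (Fin 3 → Fin 2 → AlgebraicClosure K), S.Finite ∧
      ∀ p : Fin 3 → Fin 2 → AlgebraicClosure K, (∀ i, p i ≠ 0) →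
        (∀ q : Fin 3 × Fin 2,
          aeval (fun r : Fin 3 × Fin 2 => p r.1 r.2) (pderiv q (form c)) = 0) →
        ∃ s ∈ S, ∀ i, ∃ t : AlgebraicClosure K, p i = t • s i) :
    ∃ T : Set (Fin 3 → Fin 2 → K), T.Finite ∧
      (∀ P ∈ T, (∀ i, P i ≠ 0) ∧ E c (P 0) (P 1) (P 2) = 0) ∧
      ∀ (L : Type*) [NontriviallyNormedField L] [CompleteSpace L] (σ : K →+* L),
        DenseRange σ → ∀ x : Fin 3 → Fin 2 → L, (∀ i, x i ≠ 0) →
          Jx c σ x = Set.univ ∨ Jx c σ x = {f | form c ∣ f} ∨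
            ∃ P ∈ T, Eqv x (fun i a => σ (P i a)) ∧ Jx c σ x = {f | Van f P} := by
  classical
  set A := AlgebraicClosure K with hA
  set c' : Fin 3 → Fin 3 → Fin 3 → A := fun i j k => algebraMap K A (c i j k) with hc'
  have hE : ∀ p : Fin 3 → Fin 2 → A, aeval (fun q : Fin 3 × Fin 2 => p q.1 q.2) (form c) =
      E c' (p 0) (p 1) (p 2) := by
    intro p
    rw [aeval_def, eval₂_form]
  have hne : (![1, 0] : Fin 2 → A) ≠ 0 := fun h => by
    have := congrFun h 0
    simp at this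
  have n0 : NC c := NC_of_E fun y z hy hz => by
    obtain ⟨w, hw⟩ := hl 0 ![![1, 0], y, z] (fun i => by
      fin_cases i
      · exact hne
      · exact hy
      · exact hz)
    rw [hE] at hw
    exact ⟨w, by simpa using hw⟩
  have n1 : NC (sw c) := NC_of_E fun x z hx hz => by
    obtain ⟨w, hw⟩ := hl 1 ![x, ![1, 0], z] (fun i => by
      fin_cases i
      · exact hx
      · exact hne
      · exact hz)
    rw [hE] at hw
    refine ⟨w, ?_⟩
    have e : E (fun i j k => algebraMap K A (sw c i j k)) w x z = E c' x w z :=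
      E_sw c' x w z
    rw [e]
    simpa using hw
  have n2 : NC (rot c) := NC_of_E fun x y hx hy => by
    obtain ⟨w, hw⟩ := hl 2 ![x, y, ![1, 0]] (fun i => by
      fin_cases i
      · exact hx
      · exact hy
      · exact hne)
    rw [hE] at hw
    refine ⟨w, ?_⟩
    have e : E (fun i j k => algebraMap K A (rot c i j k)) w x y = E c' x y w :=
      E_rot c' x y w
    rw [e]
    simpa using hw
  obtain ⟨S, hSf, hS⟩ := hs
  have hSX : ∀ x y z : Fin 2 → A, x ≠ 0 → y ≠ 0 → z ≠ 0 → SingX c' x y z →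
      ∃ s ∈ S, ∀ i, ∃ t : A, ![x, y, z] i = t • s i := by
    intro x y z hx hy hz h
    refine hS ![x, y, z] (fun i => ?_) ?_
    · fin_cases i
      · exact hx
      · exact hy
      · exact hz
    · have h1 := (singX_iff (algebraMap K A) c x y z).1 h
      intro q
      exact h1 q
  have hb : ∀ (x s : Fin 2 → A) (t : A), x ≠ 0 → x = t • s → s ≠ 0 ∧ br x s = 0 := by
    intro x s t hx hxs
    refine ⟨fun h => hx ?_, ?_⟩
    · rw [hxs, h, smul_zero]
    · rw [hxs, br_smul_left, br_self, mul_zero]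
  have hb0 : {t : K | ¬Good c ![t, 1]}.Finite := by
    refine finite_bad c n1 n2 (S := {v | v ≠ 0 ∧ ∃ s ∈ S, v = s 0}) ?_ (fun s hs => hs.1) ?_
    · exact (hSf.image fun s => s 0).subset (by rintro v ⟨-, s, hs, rfl⟩; exact ⟨s, hs, rfl⟩)
    · intro x y z hx hy hz h
      obtain ⟨s, hs, h1⟩ := hSX x y z hx hy hz h
      obtain ⟨t, ht⟩ := h1 0
      obtain ⟨k1, k2⟩ := hb x (s 0) t hx ht
      exact ⟨s 0, ⟨k1, s, hs, rfl⟩, k2⟩
  have hb1 : {t : K | ¬Good (sw c) ![t, 1]}.Finite := by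
    refine finite_bad (sw c) n0 (NC_rot_sw n2) (S := {v | v ≠ 0 ∧ ∃ s ∈ S, v = s 1}) ?_
      (fun s hs => hs.1) ?_
    · exact (hSf.image fun s => s 1).subset (by rintro v ⟨-, s, hs, rfl⟩; exact ⟨s, hs, rfl⟩)
    · intro y x z hy hx hz h
      obtain ⟨s, hs, h1⟩ := hSX x y z hx hy hz (SingX_sw h)
      obtain ⟨t, ht⟩ := h1 1
      obtain ⟨k1, k2⟩ := hb y (s 1) t hy ht
      exact ⟨s 1, ⟨k1, s, hs, rfl⟩, k2⟩
  have hB0 : (Bad c).Finite := (hb0.image _).insert _
  have hB1 : (Bad (sw c)).Finite := (hb1.image _).insert _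
  obtain ⟨T, hT, hT1, hT2⟩ := exists_T n2 hB0 hB1
  refine ⟨T, hT, hT1, ?_⟩
  intro L _ _ σ hσ x hx
  have := properSpace_of_denseRange σ hσ
  exact local_closure hirr hb0 hb1 hT hT1 hT2 σ x hx

end Pool.Agent.W279.Tri
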